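import Pool.Agent.K1H30.QN.Basic

set_option autoImplicit false

/-!
# The closed algebra generated by `(z, A)` in `C(K) × L(E)`
-/

namespace Pool.Agent.K1H30.QN

open scoped InnerProductSpace

open Complex ComplexConjugate Set Polynomial

variable {E : Type*} [NormedAddCommGroup E] [InnerProductSpace ℂ E]


/-- the big algebra -/
abbrev Big (K : Set ℂ) (E : Type*) [NormedAddCommGroup E] [InnerProductSpace ℂ E] : Type _ :=
  C(K, ℂ) × (E →L[ℂ] E)

variable (K : Set ℂ) (A : E →L[ℂ] E)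

/-- the generator -/
noncomputable def gen : Big K E := (⟨fun z => (z : ℂ), continuous_subtype_val⟩, A)

variable [CompactSpace K]

/-- the closed subalgebra -/
noncomputable def alg : Subalgebra ℂ (Big K E) := (Algebra.adjoin ℂ {gen K A}).topologicalClosure

instance [CompleteSpace E] : CompleteSpace (alg K A) := by
  have h : IsClosed ((alg K A : Subalgebra ℂ (Big K E)) : Set (Big K E)) :=
    Subalgebra.isClosed_topologicalClosure _
  exact h.completeSpace_coe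

variable {K A}

lemma gen_mem : gen K A ∈ alg K A :=
  Subalgebra.le_topologicalClosure _ (Algebra.subset_adjoin (mem_singleton _))

lemma aeval_mem (p : ℂ[X]) : aeval (gen K A) p ∈ alg K A :=
  Subalgebra.le_topologicalClosure _ (Polynomial.aeval_mem_adjoin_singleton _ _)

omit [CompactSpace K] in
lemma aeval_fst (p : ℂ[X]) (z : K) : (aeval (gen K A) p).1 z = p.eval (z : ℂ) := by
  induction p using Polynomial.induction_on' with
  | add p r hp hr =>
    rw [map_add, Prod.fst_add, ContinuousMap.add_apply, hp, hr, eval_add]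
  | monomial n c =>
    rw [aeval_monomial, eval_monomial]
    simp [gen]

omit [CompactSpace K] in
lemma aeval_snd (p : ℂ[X]) : (aeval (gen K A) p).2 = aeval A p := by
  have h := Polynomial.aeval_algHom_apply (AlgHom.snd ℂ C(K, ℂ) (E →L[ℂ] E)) (gen K A) p
  simpa [gen] using h.symm

theorem alg_le {M : ℝ} (hM : ∀ p : ℂ[X], ‖aeval A p‖ ≤ M * ‖(aeval (gen K A) p).1‖)
    (x : Big K E) (hx : x ∈ alg K A) : ‖x.2‖ ≤ M * ‖x.1‖ := by
  have hc : IsClosed {x : Big K E | ‖x.2‖ ≤ M * ‖x.1‖} :=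
    isClosed_le continuous_snd.norm (continuous_const.mul continuous_fst.norm)
  have hs : ((Algebra.adjoin ℂ {gen K A} : Subalgebra ℂ (Big K E)) : Set (Big K E)) ⊆
      {x : Big K E | ‖x.2‖ ≤ M * ‖x.1‖} := by
    intro x hx
    rw [Algebra.adjoin_singleton_eq_range_aeval] at hx
    obtain ⟨p, rfl⟩ := hx
    show ‖(aeval (gen K A) p).2‖ ≤ M * ‖(aeval (gen K A) p).1‖
    rw [aeval_snd]
    exact hM p
  exact closure_minimal hs hc hx

/-- Neumann series criterion -/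
lemma isUnit_of_small {𝒜 : Type*} [NormedRing 𝒜] [NormedAlgebra ℂ 𝒜] [CompleteSpace 𝒜]
    {b : 𝒜} {r : ℂ} (hr : r ≠ 0) (h : ‖1 - r • b‖ < 1) : IsUnit b := by
  have h1 := isUnit_one_sub_of_norm_lt_one h
  rw [sub_sub_cancel] at h1
  exact (isUnit_smul_iff (Units.mk0 r hr) b).1 h1

/-- accretive elements are invertible in the closed algebra -/
theorem isUnit_of_accretive [CompleteSpace E] (b : alg K A) {ε : ℝ} (hε : 0 < ε)
    (h1 : ∀ z : K, ε ≤ (b.1.1 z).re) (h2 : ∀ x : E, ε * ‖x‖ ^ 2 ≤ (⟪x, b.1.2 x⟫_ℂ).re) :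
    IsUnit b := by
  set Cb : ℝ := max ‖b.1.1‖ ‖b.1.2‖ + ε with hCb
  have hC1 : ‖b.1.1‖ ≤ Cb := by
    rw [hCb]; linarith [le_max_left ‖b.1.1‖ ‖b.1.2‖]
  have hC2 : ‖b.1.2‖ ≤ Cb := by
    rw [hCb]; linarith [le_max_right ‖b.1.1‖ ‖b.1.2‖]
  have hCε : ε ≤ Cb := by
    rw [hCb]; linarith [le_max_left ‖b.1.1‖ ‖b.1.2‖, norm_nonneg b.1.1]
  have hC0 : 0 < Cb := hε.trans_le hCε
  set r : ℝ := ε / Cb ^ 2 with hr
  have hr0 : 0 < r := by positivity
  have key : 1 - 2 * r * ε + r ^ 2 * Cb ^ 2 = 1 - (ε / Cb) ^ 2 := by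
    rw [hr]; field_simp; ring
  have hle : ε / Cb ≤ 1 := (div_le_one hC0).2 hCε
  have hpos : 0 < ε / Cb := by positivity
  set θ : ℝ := Real.sqrt (1 - (ε / Cb) ^ 2) with hθ
  have hθ0 : 0 ≤ θ := Real.sqrt_nonneg _
  have hθ2 : θ ^ 2 = 1 - (ε / Cb) ^ 2 := Real.sq_sqrt (by nlinarith)
  have hθ1 : θ < 1 := by
    rw [hθ, Real.sqrt_lt' one_pos]
    nlinarith
  refine isUnit_of_small (r := (r : ℂ)) (by exact_mod_cast hr0.ne') (lt_of_le_of_lt ?_ hθ1)
  have hn : ‖1 - (r : ℂ) • b‖ = ‖((1 - (r : ℂ) • b : alg K A) : Big K E)‖ := rfl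
  rw [hn, Prod.norm_def, max_le_iff]
  constructor
  · rw [ContinuousMap.norm_le _ hθ0]
    intro z
    have e1 : ((1 - (r : ℂ) • b : alg K A) : Big K E).1 z = 1 - r * b.1.1 z := by
      simp
    rw [e1]
    refine (pow_le_pow_iff_left₀ (norm_nonneg _) hθ0 two_ne_zero).1 ?_
    have h3 : ‖b.1.1 z‖ ≤ Cb := (ContinuousMap.norm_coe_le_norm _ z).trans hC1
    have h4 : ‖1 - r * b.1.1 z‖ ^ 2 = 1 - 2 * r * (b.1.1 z).re + r ^ 2 * ‖b.1.1 z‖ ^ 2 := by
      rw [← Complex.normSq_eq_norm_sq, ← Complex.normSq_eq_norm_sq, Complex.normSq_apply,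
        Complex.normSq_apply]
      simp
      ring
    rw [h4, hθ2, ← key]
    have h5 : ‖b.1.1 z‖ ^ 2 ≤ Cb ^ 2 := pow_le_pow_left₀ (norm_nonneg _) h3 2
    nlinarith [h1 z, mul_le_mul_of_nonneg_left h5 (sq_nonneg r),
      mul_le_mul_of_nonneg_left (h1 z) hr0.le]
  · refine ContinuousLinearMap.opNorm_le_bound _ hθ0 fun x => ?_
    have e1 : ((1 - (r : ℂ) • b : alg K A) : Big K E).2 x = x - (r : ℂ) • b.1.2 x := by
      simp
    rw [e1]
    refine (pow_le_pow_iff_left₀ (norm_nonneg _) (by positivity) two_ne_zero).1 ?_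
    have h3 : ‖b.1.2 x‖ ≤ Cb * ‖x‖ :=
      (b.1.2.le_opNorm x).trans (mul_le_mul_of_nonneg_right hC2 (norm_nonneg _))
    have h4 : ‖x - (r : ℂ) • b.1.2 x‖ ^ 2 =
        ‖x‖ ^ 2 - 2 * (r * (⟪x, b.1.2 x⟫_ℂ).re) + r ^ 2 * ‖b.1.2 x‖ ^ 2 := by
      rw [@_root_.norm_sub_sq ℂ, inner_smul_right, norm_smul, Complex.norm_real, mul_pow,
        Real.norm_eq_abs, sq_abs]
      congr 3
      exact Complex.re_ofReal_mul _ _
    rw [h4, mul_pow, hθ2, ← key]
    have h5 : ‖b.1.2 x‖ ^ 2 ≤ Cb ^ 2 * ‖x‖ ^ 2 := by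
      rw [← mul_pow]; exact pow_le_pow_left₀ (norm_nonneg _) h3 2
    nlinarith [h2 x, mul_le_mul_of_nonneg_left h5 (sq_nonneg r),
      mul_le_mul_of_nonneg_left (h2 x) hr0.le]

/-- Moebius transforms -/
theorem mobius [CompleteSpace E] (x : alg K A) (hx : ‖x.1.1‖ ≤ 1) {a : ℂ} (ha1 : ‖a‖ < 1)
    (ha : ‖a‖ * ‖x‖ < 1) :
    ∃ y : alg K A, ‖y.1.1‖ ≤ 1 ∧ y.1.2 * (1 - conj a • x.1.2) = x.1.2 - a • 1 := by
  have hu : IsUnit (1 - conj a • x) := by
    apply isUnit_one_sub_of_norm_lt_one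
    rwa [norm_smul, Complex.norm_conj]
  obtain ⟨u, hu⟩ := hu
  set y : alg K A := (x - a • 1) * ((u⁻¹ : (alg K A)ˣ) : alg K A) with hy
  have hyu : y * (1 - conj a • x) = x - a • 1 := by
    rw [hy, ← hu, mul_assoc, Units.inv_mul, mul_one]
  refine ⟨y, ?_, ?_⟩
  · rw [ContinuousMap.norm_le _ zero_le_one]
    intro z
    have h1 := congrArg (fun w : alg K A => w.1.1 z) hyu
    have h2 : y.1.1 z * (1 - conj a * x.1.1 z) = x.1.1 z - a := by simpa using h1
    have h3 : ‖x.1.1 z‖ ≤ 1 := (ContinuousMap.norm_coe_le_norm _ z).trans hx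
    have h4 : ‖x.1.1 z - a‖ ≤ ‖1 - conj a * x.1.1 z‖ := by
      refine (pow_le_pow_iff_left₀ (norm_nonneg _) (norm_nonneg _) two_ne_zero).1 ?_
      have h5 : ‖x.1.1 z‖ ^ 2 ≤ 1 := by nlinarith [norm_nonneg (x.1.1 z)]
      have h6 : ‖a‖ ^ 2 ≤ 1 := by nlinarith [norm_nonneg a]
      rw [← Complex.normSq_eq_norm_sq, Complex.normSq_apply] at h5 h6 ⊢
      rw [← Complex.normSq_eq_norm_sq, Complex.normSq_apply]
      simp
      nlinarith [mul_nonneg (sub_nonneg.2 h5) (sub_nonneg.2 h6)]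
    have h5 : 0 < ‖1 - conj a * x.1.1 z‖ := by
      have h6 : ‖conj a * x.1.1 z‖ < 1 := by
        rw [norm_mul, Complex.norm_conj]
        nlinarith [norm_nonneg a, norm_nonneg (x.1.1 z)]
      have h7 := norm_sub_norm_le (1 : ℂ) (conj a * x.1.1 z)
      rw [norm_one] at h7
      linarith
    have h6 : ‖y.1.1 z‖ * ‖1 - conj a * x.1.1 z‖ = ‖x.1.1 z - a‖ := by
      rw [← norm_mul, h2]
    rw [← h6] at h4
    exact le_of_mul_le_mul_right (by linarith) h5
  · have h1 := congrArg (fun w : alg K A => w.1.2) hyu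
    simpa using h1

/-- evaluation at a point -/
noncomputable def ev1 (z : K) : alg K A →L[ℂ] ℂ where
  toFun x := x.1.1 z
  map_add' x y := by simp
  map_smul' c x := by simp
  cont := (continuous_eval_const z).comp
    (continuous_fst.comp continuous_subtype_val)

/-- the operator component -/
noncomputable def ev2 : alg K A →L[ℂ] (E →L[ℂ] E) where
  toFun x := x.1.2
  map_add' x y := by simp
  map_smul' c x := by simp
  cont := continuous_snd.comp continuous_subtype_val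

end Pool.Agent.K1H30.QN
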