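import Pool.Agent.K1H30.QN.Basic

set_option autoImplicit false

/-!
# The scaled `q`-numerical range is convex and compact
-/

namespace Pool.Agent.K1H30.QN

open scoped InnerProductSpace

open Complex ComplexConjugate Set

variable {E : Type*} [NormedAddCommGroup E] [InnerProductSpace ℂ E]


/-- the scaled `q`-numerical range -/
def Om (q : ℂ) (A : E →L[ℂ] E) : Set ℂ :=
  {z | ∃ x y : E, ‖x‖ = 1 ∧ ‖y‖ = 1 ∧ ⟪y, x⟫_ℂ = q ∧ z = ⟪y, A x⟫_ℂ / q}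

/-- one half of the Toeplitz-Hausdorff theorem with an inequality for a third form -/
lemma exists_mean (A : E →L[ℂ] E) {x₁ x₂ : E} (h1 : ‖x₁‖ = 1) (h2 : ‖x₂‖ = 1) {t : ℝ}
    (ht0 : 0 ≤ t) (ht1 : t ≤ 1) :
    ∃ x : E, ‖x‖ = 1 ∧ ⟪x, A x⟫_ℂ = (t : ℂ) * ⟪x₁, A x₁⟫_ℂ + ((1 - t : ℝ) : ℂ) * ⟪x₂, A x₂⟫_ℂ ∧
      t * ‖A x₁‖ ^ 2 + (1 - t) * ‖A x₂‖ ^ 2 ≤ ‖A x‖ ^ 2 := by
  rcases ht0.eq_or_lt with h0 | h0
  · subst h0
    exact ⟨x₂, h2, by simp, by simp⟩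
  rcases ht1.eq_or_lt with h0' | h0'
  · subst h0'
    exact ⟨x₁, h1, by simp, by simp⟩
  set m₁ := ⟪x₁, A x₁⟫_ℂ with hm₁
  set m₂ := ⟪x₂, A x₂⟫_ℂ with hm₂
  by_cases hm : m₁ = m₂
  · rcases le_total (‖A x₁‖ ^ 2) (‖A x₂‖ ^ 2) with hr | hr
    · refine ⟨x₂, h2, ?_, by nlinarith⟩
      rw [hm, ← hm₂]; push_cast; ring
    · refine ⟨x₁, h1, ?_, by nlinarith⟩
      rw [← hm, ← hm₁]; push_cast; ring
  have hm' : m₁ - m₂ ≠ 0 := sub_ne_zero.2 hm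
  set m : ℂ := (t : ℂ) * m₁ + ((1 - t : ℝ) : ℂ) * m₂ with hmdef
  set s := ⟪x₁, x₂⟫_ℂ with hs
  have hs' : ⟪x₂, x₁⟫_ℂ = conj s := by rw [hs, inner_conj_symm]
  set p₁ : ℂ := (⟪x₁, A x₂⟫_ℂ - m * s) / (m₁ - m₂) with hp₁
  set p₂ : ℂ := (⟪x₂, A x₁⟫_ℂ - m * conj s) / (m₁ - m₂) with hp₂
  obtain ⟨b, hb, hbr⟩ : ∃ b : ℂ, ‖b‖ = 1 ∧ (b * (p₁ - conj p₂)).im = 0 := by
    by_cases h0 : p₁ - conj p₂ = 0
    · exact ⟨1, by simp, by simp [h0]⟩
    · have hz : ‖p₁ - conj p₂‖ ≠ 0 := by simpa using h0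
      refine ⟨conj (p₁ - conj p₂) / ‖p₁ - conj p₂‖, ?_, ?_⟩
      · rw [norm_div, Complex.norm_conj]; simp [h0]
      · rw [div_mul_eq_mul_div, mul_comm, Complex.mul_conj, ← Complex.ofReal_div,
          Complex.ofReal_im]
  have hbb : conj b * b = 1 := by
    rw [mul_comm, Complex.mul_conj, Complex.normSq_eq_norm_sq, hb]; simp
  set Q : ℂ := b * p₁ + conj b * p₂ with hQ
  have hQr : Q = ((Q.re : ℝ) : ℂ) := by
    apply Complex.ext
    · simp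
    · rw [Complex.ofReal_im]
      have h3 : Q = b * (p₁ - conj p₂) + ((2 * (b * conj p₂).re : ℝ) : ℂ) := by
        have h4 : ((2 * (b * conj p₂).re : ℝ) : ℂ) = b * conj p₂ + conj (b * conj p₂) := by
          rw [Complex.add_conj]
        rw [h4, hQ, map_mul, Complex.conj_conj]
        ring
      rw [h3, Complex.add_im, hbr, Complex.ofReal_im, add_zero]
  set ω : ℝ := Q.re with hω
  set y₂ : E := b • x₂ with hy₂
  -- the value of the form on a line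
  have val : ∀ c : ℝ, ⟪(c : ℂ) • x₁ + y₂, A ((c : ℂ) • x₁ + y₂)⟫_ℂ -
      m * ⟪(c : ℂ) • x₁ + y₂, (c : ℂ) • x₁ + y₂⟫_ℂ =
      (m₁ - m₂) * (((1 - t) * c ^ 2 + ω * c - t : ℝ) : ℂ) := by
    intro c
    have e1 : ⟪x₁, A x₂⟫_ℂ = (m₁ - m₂) * p₁ + m * s := by rw [hp₁]; field_simp; ring
    have e2 : ⟪x₂, A x₁⟫_ℂ = (m₁ - m₂) * p₂ + m * conj s := by rw [hp₂]; field_simp; ring
    have e3 : ⟪x₁, x₁⟫_ℂ = (1 : ℂ) := by rw [inner_self_eq_norm_sq_to_K, h1]; simp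
    have e4 : ⟪x₂, x₂⟫_ℂ = (1 : ℂ) := by rw [inner_self_eq_norm_sq_to_K, h2]; simp
    simp only [hy₂, map_add, map_smul, inner_add_left, inner_add_right, inner_smul_left,
      inner_smul_right, Complex.conj_ofReal, e1, e2, e3, e4, hs', ← hs, ← hm₁, ← hm₂]
    have e5 : (ω : ℂ) = b * p₁ + conj b * p₂ := by rw [hω, ← hQr]
    push_cast
    rw [e5, hmdef]
    push_cast
    linear_combination ((m₂ - (t * m₁ + (1 - t) * m₂)) : ℂ) * hbb
  -- the norm inequality on a line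
  set r : ℝ := t * ‖A x₁‖ ^ 2 + (1 - t) * ‖A x₂‖ ^ 2 with hr
  obtain ⟨d, hd⟩ : ∃ d : ℝ, ∀ c : ℝ, ‖A ((c : ℂ) • x₁ + y₂)‖ ^ 2 - r * ‖(c : ℂ) • x₁ + y₂‖ ^ 2 =
      c ^ 2 * (‖A x₁‖ ^ 2 - r) + (‖A x₂‖ ^ 2 - r) + c * d := by
    refine ⟨2 * (⟪A x₁, A y₂⟫_ℂ).re - r * (2 * (⟪x₁, y₂⟫_ℂ).re), fun c => ?_⟩
    have n1 : ‖A ((c : ℂ) • x₁ + y₂)‖ ^ 2 = c ^ 2 * ‖A x₁‖ ^ 2 + 2 * (c * (⟪A x₁, A y₂⟫_ℂ).re) +
        ‖A x₂‖ ^ 2 := by
      rw [map_add, map_smul, @norm_add_sq ℂ, norm_smul, inner_smul_left, Complex.conj_ofReal,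
        hy₂, map_smul, norm_smul b, hb, one_mul, Complex.norm_real, mul_pow, Real.norm_eq_abs,
        sq_abs]
      congr 1
      congr 1
      congr 1
      exact Complex.re_ofReal_mul _ _
    have n2 : ‖(c : ℂ) • x₁ + y₂‖ ^ 2 = c ^ 2 + 2 * (c * (⟪x₁, y₂⟫_ℂ).re) + 1 := by
      rw [@norm_add_sq ℂ, norm_smul, inner_smul_left, Complex.conj_ofReal,
        hy₂, norm_smul b, hb, one_mul, Complex.norm_real, mul_pow, Real.norm_eq_abs,
        sq_abs, h1, h2]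
      congr 1
      · congr 1
        · ring
        · congr 1
          exact Complex.re_ofReal_mul _ _
      · norm_num
    rw [n1, n2]; ring
  -- the two roots
  have hD : 0 ≤ ω ^ 2 + 4 * t * (1 - t) := by
    have : 0 ≤ t * (1 - t) := mul_nonneg h0.le (by linarith)
    positivity
  set S : ℝ := Real.sqrt (ω ^ 2 + 4 * t * (1 - t)) with hS
  have hS2 : S ^ 2 = ω ^ 2 + 4 * t * (1 - t) := Real.sq_sqrt hD
  have hSω : |ω| < S := by
    rw [hS]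
    apply Real.lt_sqrt_of_sq_lt
    rw [sq_abs]
    nlinarith [mul_pos h0 (by linarith : 0 < 1 - t)]
  have ht' : 0 < 1 - t := by linarith
  have hSa := abs_lt.1 hSω
  obtain ⟨cp, hcp⟩ : ∃ cp : ℝ, cp = (-ω + S) / (2 * (1 - t)) := ⟨_, rfl⟩
  obtain ⟨cm, hcm⟩ : ∃ cm : ℝ, cm = (-ω - S) / (2 * (1 - t)) := ⟨_, rfl⟩
  have hcp0 : 0 < cp := by rw [hcp]; exact div_pos (by linarith) (by linarith)
  have hcm0 : cm < 0 := by rw [hcm]; exact div_neg_of_neg_of_pos (by linarith) (by linarith)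
  have hrp : (1 - t) * cp ^ 2 + ω * cp - t = 0 := by
    rw [hcp]; field_simp; nlinarith [hS2]
  have hrm : (1 - t) * cm ^ 2 + ω * cm - t = 0 := by
    rw [hcm]; field_simp; nlinarith [hS2]
  have hprod : (1 - t) * (cp * cm) = -t := by
    rw [hcp, hcm]; field_simp; nlinarith [hS2]
  -- one of the two values is nonnegative
  obtain ⟨c, hc, hcr⟩ : ∃ c : ℝ, (1 - t) * c ^ 2 + ω * c - t = 0 ∧
      0 ≤ c ^ 2 * (‖A x₁‖ ^ 2 - r) + (‖A x₂‖ ^ 2 - r) + c * d := by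
    by_contra hcon
    push Not at hcon
    have k1 := hcon cp hrp
    have k2 := hcon cm hrm
    have k3 : (-cm) * (cp ^ 2 * (‖A x₁‖ ^ 2 - r) + (‖A x₂‖ ^ 2 - r) + cp * d) +
        cp * (cm ^ 2 * (‖A x₁‖ ^ 2 - r) + (‖A x₂‖ ^ 2 - r) + cm * d) = 0 := by
      have k4 : (-cm) * (cp ^ 2 * (‖A x₁‖ ^ 2 - r) + (‖A x₂‖ ^ 2 - r) + cp * d) +
        cp * (cm ^ 2 * (‖A x₁‖ ^ 2 - r) + (‖A x₂‖ ^ 2 - r) + cm * d) =
        (cp - cm) * (-((cp * cm) * (‖A x₁‖ ^ 2 - r)) + (‖A x₂‖ ^ 2 - r)) := by ring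
      have k5 : (cp * cm) * (‖A x₁‖ ^ 2 - r) = -t * (‖A x₁‖ ^ 2 - ‖A x₂‖ ^ 2) := by
        have : ‖A x₁‖ ^ 2 - r = (1 - t) * (‖A x₁‖ ^ 2 - ‖A x₂‖ ^ 2) := by rw [hr]; ring
        rw [this, ← hprod]; ring
      rw [k4, k5, hr]; ring
    have k6 := mul_neg_of_pos_of_neg (neg_pos.2 hcm0) k1
    have k7 := mul_neg_of_pos_of_neg hcp0 k2
    linarith
  set y : E := (c : ℂ) • x₁ + y₂ with hy
  have hval := val c
  rw [hc] at hval
  simp only [Complex.ofReal_zero, mul_zero, ← hy] at hval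
  have hy0 : y ≠ 0 := by
    intro h0
    have e1 : y₂ = -((c : ℂ) • x₁) := by
      rw [eq_neg_iff_add_eq_zero, add_comm]; exact h0
    have e2 : ⟪y₂, A y₂⟫_ℂ = m₂ := by
      rw [hy₂, map_smul, inner_smul_left, inner_smul_right, ← hm₂, ← mul_assoc, hbb, one_mul]
    have e3 : ‖y₂‖ = 1 := by rw [hy₂, norm_smul, hb, h2, one_mul]
    rw [e1, map_neg, inner_neg_neg, map_smul, inner_smul_left, inner_smul_right,
      Complex.conj_ofReal, ← hm₁, ← mul_assoc] at e2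
    rw [e1, norm_neg, norm_smul, h1, mul_one, Complex.norm_real] at e3
    have e4 : (c : ℂ) * c = 1 := by
      rw [← Complex.ofReal_mul, ← abs_mul_abs_self c, ← Real.norm_eq_abs, e3]; simp
    rw [e4, one_mul] at e2
    exact hm e2
  have hyn : 0 < ‖y‖ := norm_pos_iff.2 hy0
  have hyc : ((‖y‖ : ℝ) : ℂ) ≠ 0 := by exact_mod_cast hyn.ne'
  refine ⟨((‖y‖⁻¹ : ℝ) : ℂ) • y, ?_, ?_, ?_⟩
  · rw [norm_smul, Complex.norm_real, Real.norm_of_nonneg (inv_nonneg.2 hyn.le)]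
    field_simp
  · rw [map_smul, inner_smul_left, inner_smul_right, Complex.conj_ofReal]
    have e1 : ⟪y, A y⟫_ℂ = m * ⟪y, y⟫_ℂ := sub_eq_zero.1 hval
    rw [e1, inner_self_eq_norm_sq_to_K]
    push_cast
    field_simp
    exact mul_comm _ _
  · rw [map_smul, norm_smul, Complex.norm_real, Real.norm_of_nonneg (inv_nonneg.2 hyn.le), mul_pow,
      inv_pow]
    have e1 := hd c
    rw [← hy] at e1
    have e2 : r * ‖y‖ ^ 2 ≤ ‖A y‖ ^ 2 := by linarith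
    rw [inv_mul_eq_div, le_div_iff₀ (by positivity)]
    exact e2

/-- description of the scaled `q`-numerical range -/
def Om' (q κ : ℝ) (A : E →L[ℂ] E) : Set ℂ :=
  {z | ∃ x : E, ‖x‖ = 1 ∧ q * ‖z - ⟪x, A x⟫_ℂ‖ ≤ κ * ‖A x - ⟪x, A x⟫_ℂ • x‖}

lemma om_subset {q κ : ℝ} (hq : 0 < q) (hκ : 0 ≤ κ) (hqκ : q ^ 2 + κ ^ 2 = 1)
    (A : E →L[ℂ] E) : Om (q : ℂ) A ⊆ Om' q κ A := by
  rintro z ⟨x, y, hx, hy, hxy, rfl⟩
  refine ⟨x, hx, ?_⟩
  set c := ⟪x, A x⟫_ℂ with hc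
  have hyx : ⟪x, y⟫_ℂ = (q : ℂ) := by rw [← inner_conj_symm, hxy]; simp
  set v := y - (q : ℂ) • x with hv
  have hv2 : ‖v‖ ^ 2 = κ ^ 2 := by
    have h := norm_sub_sq (w := y) hx
    rw [hyx, ← hv, hy, Complex.norm_real, Real.norm_of_nonneg hq.le] at h
    rw [h]
    linarith
  have hvn : ‖v‖ = κ := (pow_left_inj₀ (norm_nonneg v) hκ two_ne_zero).1 hv2
  have hvx : ⟪v, x⟫_ℂ = 0 := by
    rw [hv, inner_sub_left, inner_smul_left, inner_self_eq_norm_sq_to_K, hx, hxy]; simp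
  have h1 : ⟪y, A x⟫_ℂ = (q : ℂ) * c + ⟪v, A x - c • x⟫_ℂ := by
    rw [inner_sub_right, inner_smul_right, hvx, hv, inner_sub_left, inner_smul_left, ← hc]
    simp
  have hq' : (q : ℂ) ≠ 0 := by exact_mod_cast hq.ne'
  have h2 : ⟪y, A x⟫_ℂ / (q : ℂ) - c = ⟪v, A x - c • x⟫_ℂ / q := by
    rw [h1]; field_simp; ring
  rw [h2, norm_div, Complex.norm_real, Real.norm_of_nonneg hq.le, mul_div_cancel₀ _ hq.ne']
  refine (norm_inner_le_norm _ _).trans ?_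
  rw [hvn]

lemma subset_om [FiniteDimensional ℂ E] (hE : Dim2 E) {q κ : ℝ} (hq : 0 < q) (hκ : 0 ≤ κ)
    (hqκ : q ^ 2 + κ ^ 2 = 1) (A : E →L[ℂ] E) : Om' q κ A ⊆ Om (q : ℂ) A := by
  rintro z ⟨x, hx, hz⟩
  have hq' : (q : ℂ) ≠ 0 := by exact_mod_cast hq.ne'
  have hnt : Nontrivial E := ⟨x, 0, by
    intro h; rw [h, norm_zero] at hx; exact zero_ne_one hx⟩
  -- an eigenvector
  obtain ⟨lam, hlam⟩ := Module.End.exists_eigenvalue (A : E →ₗ[ℂ] E)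
  obtain ⟨v₀, hv₀⟩ := hlam.exists_hasEigenvector
  have hv₀' : A v₀ = lam • v₀ := hv₀.apply_eq_smul
  have hv₀n : 0 < ‖v₀‖ := norm_pos_iff.2 hv₀.2
  set v : E := ((‖v₀‖⁻¹ : ℝ) : ℂ) • v₀ with hv
  have hvn : ‖v‖ = 1 := by
    rw [hv, norm_smul, Complex.norm_real, Real.norm_of_nonneg (inv_nonneg.2 hv₀n.le)]
    field_simp
  have hAv : A v = lam • v := by rw [hv, map_smul, hv₀', smul_comm]
  -- the intermediate value theorem on the sphere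
  set F : E → ℝ := fun x => q * ‖z - ⟪x, A x⟫_ℂ‖ - κ * ‖A x - ⟪x, A x⟫_ℂ • x‖ with hF
  have hFc : Continuous F := by
    have h1 : Continuous fun x : E => ⟪x, A x⟫_ℂ := continuous_id.inner (𝕜 := ℂ) A.continuous
    exact (continuous_const.mul (continuous_const.sub h1).norm).sub
      (continuous_const.mul (A.continuous.sub (h1.smul continuous_id)).norm)
  have hsph : IsPreconnected (Metric.sphere (0 : E) 1) := by
    apply (isConnected_sphere _ 0 zero_le_one).isPreconnected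
    have h1 : (1 : Cardinal) ≤ Module.rank ℂ E := by
      rw [Cardinal.one_le_iff_pos]
      exact rank_pos
    rw [rank_real_of_complex]
    calc (1 : Cardinal) < 2 := by norm_num
      _ = 2 * 1 := by norm_num
      _ ≤ 2 * Module.rank ℂ E := by gcongr
  have hFx : F x ≤ 0 := by simp only [hF]; linarith
  have hFv : 0 ≤ F v := by
    have h1 : ⟪v, A v⟫_ℂ = lam := by
      rw [hAv, inner_smul_right, inner_self_eq_norm_sq_to_K, hvn]; simp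
    simp only [hF]
    rw [h1, hAv, sub_self, norm_zero, mul_zero, sub_zero]
    positivity
  obtain ⟨x', hx', hFx'⟩ := hsph.intermediate_value (a := x) (b := v) (by simpa using hx)
    (by simpa using hvn) hFc.continuousOn ⟨hFx, hFv⟩
  have hx'n : ‖x'‖ = 1 := by simpa using hx'
  simp only [hF] at hFx'
  set c := ⟪x', A x'⟫_ℂ with hc
  set w := A x' - c • x' with hw
  have hxw : ⟪x', w⟫_ℂ = 0 := by
    rw [hw, inner_sub_right, inner_smul_right, inner_self_eq_norm_sq_to_K, hx'n, ← hc]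
    simp
  have hAx' : A x' = c • x' + w := by rw [hw]; abel
  -- the second vector
  obtain ⟨u, hu, hxu, huw⟩ : ∃ u : E, ‖u‖ = 1 ∧ ⟪x', u⟫_ℂ = 0 ∧
      (κ : ℂ) * ⟪u, w⟫_ℂ = (q : ℂ) * (z - c) := by
    rcases eq_or_ne w 0 with h0 | h0
    · obtain ⟨u, hu, hxu⟩ := hE x'
      refine ⟨u, hu, hxu, ?_⟩
      rw [h0, norm_zero, mul_zero, sub_zero] at hFx'
      have h1 : ‖z - c‖ = 0 := by
        rcases mul_eq_zero.1 hFx' with h | h
        · exact absurd h hq.ne'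
        · exact h
      rw [norm_eq_zero] at h1
      rw [h0, h1, inner_zero_right]; simp
    · have hw0 : 0 < ‖w‖ := norm_pos_iff.2 h0
      have hwc : ((‖w‖ : ℝ) : ℂ) ≠ 0 := by exact_mod_cast hw0.ne'
      obtain ⟨β, hβ, hβ'⟩ : ∃ β : ℂ, ‖β‖ = 1 ∧ ((κ * ‖w‖ : ℝ) : ℂ) * β = (q : ℂ) * (z - c) := by
        have h1 : κ * ‖w‖ = ‖(q : ℂ) * (z - c)‖ := by
          rw [norm_mul, Complex.norm_real, Real.norm_of_nonneg hq.le]; linarith
        rw [h1]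
        by_cases h2 : (q : ℂ) * (z - c) = 0
        · exact ⟨1, by simp, by rw [h2]; simp⟩
        · have h3 : ‖(q : ℂ) * (z - c)‖ ≠ 0 := by simpa using h2
          refine ⟨(q : ℂ) * (z - c) / ‖(q : ℂ) * (z - c)‖, ?_, ?_⟩
          · rw [norm_div, Complex.norm_real, norm_norm, div_self h3]
          · have h4 : ((‖(q : ℂ) * (z - c)‖ : ℝ) : ℂ) ≠ 0 := by exact_mod_cast h3
            field_simp
      refine ⟨(conj β * ((‖w‖⁻¹ : ℝ) : ℂ)) • w, ?_, ?_, ?_⟩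
      · rw [norm_smul, norm_mul, Complex.norm_conj, hβ, Complex.norm_real,
          Real.norm_of_nonneg (inv_nonneg.2 hw0.le)]
        field_simp
      · rw [inner_smul_right, hxw, mul_zero]
      · rw [inner_smul_left, inner_self_eq_norm_sq_to_K, ← hβ']
        simp only [map_mul, Complex.conj_conj, Complex.conj_ofReal]
        push_cast
        field_simp
        rfl
  have hux : ⟪u, x'⟫_ℂ = 0 := inner_eq_zero_symm.1 hxu
  refine ⟨x', (q : ℂ) • x' + (κ : ℂ) • u, hx'n, ?_, ?_, ?_⟩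
  · have h0 : ⟪(q : ℂ) • x', (κ : ℂ) • u⟫_ℂ = 0 := by
      rw [inner_smul_left, inner_smul_right, hxu]; simp
    have h2 := norm_add_sq_eq_norm_sq_add_norm_sq_of_inner_eq_zero _ _ h0
    rw [norm_smul, norm_smul, hx'n, hu, Complex.norm_real, Complex.norm_real,
      Real.norm_of_nonneg hq.le, Real.norm_of_nonneg hκ] at h2
    refine (pow_left_inj₀ (norm_nonneg _) zero_le_one two_ne_zero).1 ?_
    nlinarith
  · rw [inner_add_left, inner_smul_left, inner_smul_left, hux, inner_self_eq_norm_sq_to_K, hx'n]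
    simp
  · have h4 : ⟪(q : ℂ) • x' + (κ : ℂ) • u, A x'⟫_ℂ = (q : ℂ) * c + (κ : ℂ) * ⟪u, w⟫_ℂ := by
      rw [inner_add_left, inner_smul_left, inner_smul_left, ← hc]
      congr 1
      · simp
      · rw [hAx', inner_add_right, inner_smul_right, hux]
        simp
    rw [h4, huw]
    field_simp
    ring

lemma om_eq [FiniteDimensional ℂ E] (hE : Dim2 E) {q κ : ℝ} (hq : 0 < q) (hκ : 0 ≤ κ)
    (hqκ : q ^ 2 + κ ^ 2 = 1) (A : E →L[ℂ] E) : Om (q : ℂ) A = Om' q κ A :=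
  Set.Subset.antisymm (om_subset hq hκ hqκ A) (subset_om hE hq hκ hqκ A)

lemma om'_convex {q κ : ℝ} (hq : 0 < q) (hκ : 0 ≤ κ) (A : E →L[ℂ] E) :
    Convex ℝ (Om' q κ A) := by
  rintro z₁ ⟨x₁, hx₁, h₁⟩ z₂ ⟨x₂, hx₂, h₂⟩ a b ha hb hab
  have hb' : b = 1 - a := by linarith
  subst hb'
  obtain ⟨x, hx, hm, hr⟩ := exists_mean A hx₁ hx₂ ha (by linarith)
  refine ⟨x, hx, ?_⟩
  set m₁ := ⟪x₁, A x₁⟫_ℂ with hm₁
  set m₂ := ⟪x₂, A x₂⟫_ℂ with hm₂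
  have s₁ := norm_sub_sq (w := A x₁) hx₁
  have s₂ := norm_sub_sq (w := A x₂) hx₂
  have s := norm_sub_sq (w := A x) hx
  rw [← hm₁] at s₁
  rw [← hm₂] at s₂
  set σ₁ := ‖A x₁ - m₁ • x₁‖ with hσ₁
  set σ₂ := ‖A x₂ - m₂ • x₂‖ with hσ₂
  set σ := ‖A x - ⟪x, A x⟫_ℂ • x‖ with hσ
  have e1 : a • z₁ + (1 - a) • z₂ - ⟪x, A x⟫_ℂ = (a : ℂ) * (z₁ - m₁) + ((1 - a : ℝ) : ℂ) * (z₂ - m₂) := by
    rw [hm, Complex.real_smul, Complex.real_smul]; ring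
  have e2 : ‖a • z₁ + (1 - a) • z₂ - ⟪x, A x⟫_ℂ‖ ≤ a * ‖z₁ - m₁‖ + (1 - a) * ‖z₂ - m₂‖ := by
    rw [e1]
    refine (norm_add_le _ _).trans (le_of_eq ?_)
    rw [norm_mul, norm_mul, Complex.norm_real, Complex.norm_real, Real.norm_of_nonneg ha,
      Real.norm_of_nonneg hb]
  have e3 : ‖⟪x, A x⟫_ℂ‖ ^ 2 ≤ a * ‖m₁‖ ^ 2 + (1 - a) * ‖m₂‖ ^ 2 := by
    have h3 : ‖⟪x, A x⟫_ℂ‖ ≤ a * ‖m₁‖ + (1 - a) * ‖m₂‖ := by
      rw [hm]
      refine (norm_add_le _ _).trans (le_of_eq ?_)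
      rw [norm_mul, norm_mul, Complex.norm_real, Complex.norm_real, Real.norm_of_nonneg ha,
        Real.norm_of_nonneg hb]
    have h4 := pow_le_pow_left₀ (norm_nonneg _) h3 2
    nlinarith [mul_nonneg (mul_nonneg ha hb) (sq_nonneg (‖m₁‖ - ‖m₂‖))]
  have e4 : a * σ₁ + (1 - a) * σ₂ ≤ σ := by
    refine abs_le_of_sq_le_sq' ?_ (norm_nonneg _) |>.2
    nlinarith [mul_nonneg (mul_nonneg ha hb) (sq_nonneg (σ₁ - σ₂))]
  calc q * ‖a • z₁ + (1 - a) • z₂ - ⟪x, A x⟫_ℂ‖ ≤ q * (a * ‖z₁ - m₁‖ + (1 - a) * ‖z₂ - m₂‖) :=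
        mul_le_mul_of_nonneg_left e2 hq.le
    _ = a * (q * ‖z₁ - m₁‖) + (1 - a) * (q * ‖z₂ - m₂‖) := by ring
    _ ≤ a * (κ * σ₁) + (1 - a) * (κ * σ₂) := by gcongr
    _ = κ * (a * σ₁ + (1 - a) * σ₂) := by ring
    _ ≤ κ * σ := mul_le_mul_of_nonneg_left e4 hκ

theorem om_convex [FiniteDimensional ℂ E] (hE : Dim2 E) {q κ : ℝ} (hq : 0 < q) (hκ : 0 ≤ κ)
    (hqκ : q ^ 2 + κ ^ 2 = 1) (A : E →L[ℂ] E) : Convex ℝ (Om (q : ℂ) A) := by
  rw [om_eq hE hq hκ hqκ A]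
  exact om'_convex hq hκ A

theorem om_isCompact [FiniteDimensional ℂ E] (q : ℂ) (A : E →L[ℂ] E) :
    IsCompact (Om q A) := by
  have : ProperSpace E := FiniteDimensional.proper ℂ E
  set K : Set (E × E) := {p | ‖p.1‖ = 1 ∧ ‖p.2‖ = 1 ∧ ⟪p.2, p.1⟫_ℂ = q} with hK
  have hKc : IsCompact K := by
    apply Metric.isCompact_of_isClosed_isBounded
    · refine (isClosed_eq continuous_fst.norm continuous_const).inter
        ((isClosed_eq continuous_snd.norm continuous_const).inter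
          (isClosed_eq (continuous_snd.inner (𝕜 := ℂ) continuous_fst) continuous_const))
    · rw [isBounded_iff_forall_norm_le]
      exact ⟨1, fun p hp => by rw [Prod.norm_def]; exact max_le hp.1.le hp.2.1.le⟩
  have h1 : Om q A = (fun p : E × E => ⟪p.2, A p.1⟫_ℂ / q) '' K := by
    ext z
    constructor
    · rintro ⟨x, y, hx, hy, hxy, rfl⟩
      exact ⟨(x, y), ⟨hx, hy, hxy⟩, rfl⟩
    · rintro ⟨⟨x, y⟩, ⟨hx, hy, hxy⟩, rfl⟩
      exact ⟨x, y, hx, hy, hxy, rfl⟩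
  rw [h1]
  apply hKc.image
  exact (continuous_snd.inner (𝕜 := ℂ) (A.continuous.comp continuous_fst)).div_const q

theorem om_nonempty (hE : Dim2 E) {q κ : ℝ} (hq : 0 < q) (hκ : 0 ≤ κ)
    (hqκ : q ^ 2 + κ ^ 2 = 1) (A : E →L[ℂ] E) : (Om (q : ℂ) A).Nonempty := by
  obtain ⟨x, hx, -⟩ := hE 0
  obtain ⟨u, hu, hxu⟩ := hE x
  have hux : ⟪u, x⟫_ℂ = 0 := inner_eq_zero_symm.1 hxu
  refine ⟨_, x, (q : ℂ) • x + (κ : ℂ) • u, hx, ?_, ?_, rfl⟩
  · have h0 : ⟪(q : ℂ) • x, (κ : ℂ) • u⟫_ℂ = 0 := by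
      rw [inner_smul_left, inner_smul_right, hxu]; simp
    have h2 := norm_add_sq_eq_norm_sq_add_norm_sq_of_inner_eq_zero _ _ h0
    rw [norm_smul, norm_smul, hx, hu, Complex.norm_real, Complex.norm_real,
      Real.norm_of_nonneg hq.le, Real.norm_of_nonneg hκ] at h2
    refine (pow_left_inj₀ (norm_nonneg _) zero_le_one two_ne_zero).1 ?_
    nlinarith
  · rw [inner_add_left, inner_smul_left, inner_smul_left, hux, inner_self_eq_norm_sq_to_K, hx]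
    simp

/-- reduction to positive `q` -/
theorem om_norm {q : ℂ} (hq : q ≠ 0) (A : E →L[ℂ] E) : Om q A = Om ((‖q‖ : ℝ) : ℂ) A := by
  have hn : ((‖q‖ : ℝ) : ℂ) ≠ 0 := by simpa using hq
  set θ : ℂ := q / ((‖q‖ : ℝ) : ℂ) with hθ
  have hθn : ‖θ‖ = 1 := by rw [hθ, norm_div, Complex.norm_real, norm_norm]; simp [hq]
  have hθθ : conj θ * θ = 1 := by
    rw [mul_comm, Complex.mul_conj, Complex.normSq_eq_norm_sq, hθn]; simp
  have hθ0 : θ ≠ 0 := by intro h; rw [h, norm_zero] at hθn; exact zero_ne_one hθn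
  have hqθ : q = θ * ((‖q‖ : ℝ) : ℂ) := by rw [hθ]; field_simp
  ext z
  constructor
  · rintro ⟨x, y, hx, hy, hxy, rfl⟩
    refine ⟨x, θ • y, hx, by rw [norm_smul, hθn, hy, one_mul], ?_, ?_⟩
    · rw [inner_smul_left, hxy, hqθ, ← mul_assoc, hθθ, one_mul]
      rw [norm_mul, hθn, one_mul, Complex.norm_real, norm_norm]
    · rw [inner_smul_left]
      conv_lhs => rw [hqθ]
      have : conj θ = θ⁻¹ := by field_simp; linear_combination hθθ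
      rw [this]
      field_simp
  · rintro ⟨x, y, hx, hy, hxy, rfl⟩
    refine ⟨x, conj θ • y, hx, by rw [norm_smul, Complex.norm_conj, hθn, hy, one_mul], ?_, ?_⟩
    · rw [inner_smul_left, hxy, Complex.conj_conj, ← hqθ]
    · rw [inner_smul_left, Complex.conj_conj]
      conv_rhs => rw [hqθ]
      field_simp

end Pool.Agent.K1H30.QN
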