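import Mathlib

set_option autoImplicit false

/-!
# Smooth convex curves given by a support function and the Cauchy integral formula in Banach algebras
-/

namespace Pool.Agent.K1H30.QN

open Complex ComplexConjugate Set MeasureTheory intervalIntegral

/-- a `C²` support function with positive radius of curvature -/
structure SF where
  H : ℝ → ℝ
  H1 : ℝ → ℝ
  ρ : ℝ → ℝ
  hH : ∀ φ, HasDerivAt H (H1 φ) φ
  hH1 : ∀ φ, HasDerivAt H1 (ρ φ - H φ) φ
  hρc : Continuous ρ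
  hρ : ∀ φ, 0 < ρ φ
  per : ∀ φ, H (φ + 2 * Real.pi) = H φ
  per1 : ∀ φ, H1 (φ + 2 * Real.pi) = H1 φ
  pos : ∀ φ, 0 < H φ

namespace SF

variable (C : SF)

noncomputable def m (φ : ℝ) : ℂ := C.H φ + C.H1 φ * I

noncomputable def σ (φ : ℝ) : ℂ := exp (φ * I) * C.m φ

lemma m_re (φ : ℝ) : (C.m φ).re = C.H φ := by simp [m]

lemma m_ne (φ : ℝ) : C.m φ ≠ 0 := by
  intro h
  have := C.m_re φ
  rw [h] at this
  simp at this
  exact (C.pos φ).ne this

lemma hasDerivAt_m (φ : ℝ) : HasDerivAt C.m (C.H1 φ + (C.ρ φ - C.H φ) * I) φ := by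
  have h1 := (C.hH φ).ofReal_comp
  have h2 := (C.hH1 φ).ofReal_comp
  have h3 := h1.add (h2.mul_const I)
  refine h3.congr_deriv ?_
  push_cast
  rfl

lemma hasDerivAt_exp (φ : ℝ) : HasDerivAt (fun t : ℝ => exp (t * I)) (exp (φ * I) * I) φ := by
  have h1 : HasDerivAt (fun t : ℝ => (t : ℂ) * I) (1 * I) φ :=
    (hasDerivAt_id φ).ofReal_comp.mul_const I
  rw [one_mul] at h1
  exact h1.cexp

lemma hasDerivAt_σ (φ : ℝ) : HasDerivAt C.σ (I * exp (φ * I) * C.ρ φ) φ := by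
  have h := (hasDerivAt_exp φ).mul (C.hasDerivAt_m φ)
  refine h.congr_deriv ?_
  simp only [m]
  linear_combination (exp (φ * I) * (C.H1 φ : ℂ)) * I_sq

lemma continuous_m : Continuous C.m :=
  continuous_iff_continuousAt.2 fun φ => (C.hasDerivAt_m φ).continuousAt

lemma continuous_σ : Continuous C.σ :=
  continuous_iff_continuousAt.2 fun φ => (C.hasDerivAt_σ φ).continuousAt

lemma m_per (φ : ℝ) : C.m (φ + 2 * Real.pi) = C.m φ := by simp [m, C.per, C.per1]

lemma exp_per (φ : ℝ) : exp (((φ + 2 * Real.pi : ℝ) : ℂ) * I) = exp (φ * I) := by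
  push_cast
  rw [add_mul, Complex.exp_periodic]

lemma σ_per (φ : ℝ) : C.σ (φ + 2 * Real.pi) = C.σ φ := by
  rw [σ, σ, exp_per, m_per]

lemma exp_conj (φ : ℝ) : exp (-(φ * I)) * exp (φ * I) = 1 := by
  rw [← Complex.exp_add]; simp

lemma exp_σ (φ : ℝ) : exp (-(φ * I)) * C.σ φ = C.m φ := by
  rw [σ, ← mul_assoc, exp_conj, one_mul]

lemma norm_exp (φ : ℝ) : ‖exp (φ * I)‖ = 1 := Complex.norm_exp_ofReal_mul_I φ

lemma σ_ne (φ : ℝ) : C.σ φ ≠ 0 := mul_ne_zero (exp_ne_zero _) (C.m_ne φ)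

/-- mass one for the centre -/
lemma integral_base : ∫ φ in (0 : ℝ)..(2 * Real.pi), (C.ρ φ : ℂ) / C.m φ = 2 * Real.pi := by
  have hd : ∀ φ ∈ uIcc (0 : ℝ) (2 * Real.pi),
      HasDerivAt (fun t : ℝ => (t : ℂ) - I * log (C.m t)) ((C.ρ φ : ℂ) / C.m φ) φ := by
    intro φ _
    have h1 : C.m φ ∈ slitPlane := Or.inl (by rw [m_re]; exact C.pos φ)
    have h2 := (C.hasDerivAt_m φ).clog_real h1
    have h3 : HasDerivAt (fun t : ℝ => (t : ℂ)) 1 φ := (hasDerivAt_id φ).ofReal_comp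
    have h4 := h3.sub (h2.const_mul I)
    refine h4.congr_deriv ?_
    have := C.m_ne φ
    field_simp
    simp only [m]
    linear_combination (-(C.ρ φ - C.H φ : ℂ)) * I_sq
  have hc : Continuous fun φ : ℝ => (C.ρ φ : ℂ) / C.m φ :=
    (continuous_ofReal.comp C.hρc).div C.continuous_m C.m_ne
  rw [integral_eq_sub_of_hasDerivAt hd (hc.intervalIntegrable _ _)]
  have := C.m_per 0
  rw [zero_add] at this
  rw [this]
  push_cast
  ring

end SF

section Banach

variable {𝒜 : Type*} [NormedRing 𝒜] [NormedAlgebra ℂ 𝒜] [CompleteSpace 𝒜]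

lemma hasDerivAt_inverse {f : ℝ → 𝒜} {f' : 𝒜} {t : ℝ} (hf : HasDerivAt f f' t)
    (hu : IsUnit (f t)) :
    HasDerivAt (fun t => Ring.inverse (f t))
      (-(Ring.inverse (f t) * f' * Ring.inverse (f t))) t := by
  obtain ⟨u, hu⟩ := hu
  have h1 : HasFDerivAt Ring.inverse (-ContinuousLinearMap.mulLeftRight ℝ 𝒜 ↑u⁻¹ ↑u⁻¹) (f t) := by
    rw [← hu]
    exact hasFDerivAt_ringInverse (𝕜 := ℝ) u
  have h2 := h1.comp_hasDerivAt t hf
  refine h2.congr_deriv ?_
  rw [← hu, Ring.inverse_unit]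
  simp

omit [NormedAlgebra ℂ 𝒜] [CompleteSpace 𝒜] in
lemma inverse_eq_of {x y : 𝒜} (h1 : x * y = 1) (h2 : y * x = 1) : Ring.inverse x = y := by
  have := Ring.inverse_unit (⟨x, y, h1, h2⟩ : 𝒜ˣ)
  exact this

omit [NormedAlgebra ℂ 𝒜] [CompleteSpace 𝒜] in
lemma inverse_comm {b a : 𝒜} (hab : Commute b a) : Commute (Ring.inverse b) a := by
  by_cases hb : IsUnit b
  · obtain ⟨u, rfl⟩ := hb
    rw [Ring.inverse_unit]
    exact hab.units_inv_left
  · rw [Ring.inverse_non_unit _ hb]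
    exact Commute.zero_left a

variable (C : SF) (a : 𝒜)

/-- the resolvent -/
noncomputable def V (s φ : ℝ) : 𝒜 := Ring.inverse (C.σ φ • (1 : 𝒜) - (s : ℂ) • a)

omit [CompleteSpace 𝒜] in
lemma V_commute (s φ : ℝ) : Commute (V C a s φ) a := by
  apply inverse_comm
  apply Commute.sub_left
  · exact (Commute.one_left a).smul_left _
  · exact (Commute.refl a).smul_left _

lemma hasDerivAt_V_s {s φ : ℝ} (hu : IsUnit (C.σ φ • (1 : 𝒜) - (s : ℂ) • a)) :
    HasDerivAt (fun s => V C a s φ) (V C a s φ * a * V C a s φ) s := by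
  have h1 : HasDerivAt (fun s : ℝ => C.σ φ • (1 : 𝒜) - (s : ℂ) • a) (-a) s := by
    have h2 : HasDerivAt (fun s : ℝ => (s : ℂ)) 1 s := (hasDerivAt_id s).ofReal_comp
    have h3 := (h2.smul_const a).const_sub (C.σ φ • (1 : 𝒜))
    simpa using h3
  have h4 := hasDerivAt_inverse h1 hu
  refine h4.congr_deriv ?_
  simp [V]

lemma hasDerivAt_V_φ {s φ : ℝ} (hu : IsUnit (C.σ φ • (1 : 𝒜) - (s : ℂ) • a)) :
    HasDerivAt (fun φ => V C a s φ)
      (-((I * exp (φ * I) * C.ρ φ) • (V C a s φ * V C a s φ))) φ := by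
  have h1 : HasDerivAt (fun φ : ℝ => C.σ φ • (1 : 𝒜) - (s : ℂ) • a)
      ((I * exp (φ * I) * C.ρ φ) • (1 : 𝒜)) φ :=
    ((C.hasDerivAt_σ φ).smul_const (1 : 𝒜)).sub_const _
  have h4 := hasDerivAt_inverse h1 hu
  refine h4.congr_deriv ?_
  simp [V]

lemma continuousAt_V {s φ : ℝ} (hu : IsUnit (C.σ φ • (1 : 𝒜) - (s : ℂ) • a)) :
    ContinuousAt (fun p : ℝ × ℝ => V C a p.1 p.2) (s, φ) := by
  obtain ⟨u, hu⟩ := hu
  have h1 : ContinuousAt (fun p : ℝ × ℝ => C.σ p.2 • (1 : 𝒜) - (p.1 : ℂ) • a) (s, φ) := by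
    apply Continuous.continuousAt
    exact ((C.continuous_σ.comp continuous_snd).smul continuous_const).sub
      ((continuous_ofReal.comp continuous_fst).smul continuous_const)
  have h2 : ContinuousAt Ring.inverse (C.σ φ • (1 : 𝒜) - (s : ℂ) • a) := by
    rw [← hu]
    exact NormedRing.inverse_continuousAt u
  exact ContinuousAt.comp (f := fun p : ℝ × ℝ => C.σ p.2 • (1 : 𝒜) - (p.1 : ℂ) • a)
    (x := (s, φ)) h2 h1

/-- the derivative in `s` -/
noncomputable def W (s φ : ℝ) : 𝒜 :=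
  (I * exp (φ * I) * C.ρ φ) • (V C a s φ * a * V C a s φ)

lemma continuous_ρe : Continuous fun φ : ℝ => (I * exp (φ * I) * C.ρ φ : ℂ) := by
  have := C.hρc
  fun_prop

lemma continuousAt_W {s φ : ℝ} (hu : IsUnit (C.σ φ • (1 : 𝒜) - (s : ℂ) • a)) :
    ContinuousAt (fun p : ℝ × ℝ => W C a p.1 p.2) (s, φ) := by
  have h1 := continuousAt_V C a hu
  have h2 : ContinuousAt (fun p : ℝ × ℝ => (I * exp (p.2 * I) * C.ρ p.2 : ℂ)) (s, φ) :=
    ((continuous_ρe C).comp continuous_snd).continuousAt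
  exact h2.smul ((h1.mul continuousAt_const).mul h1)

lemma continuousAt_V_φ {s φ : ℝ} (hu : IsUnit (C.σ φ • (1 : 𝒜) - (s : ℂ) • a)) :
    ContinuousAt (fun φ => V C a s φ) φ :=
  (hasDerivAt_V_φ C a hu).continuousAt

lemma continuousAt_V_s {s φ : ℝ} (hu : IsUnit (C.σ φ • (1 : 𝒜) - (s : ℂ) • a)) :
    ContinuousAt (fun s => V C a s φ) s :=
  (hasDerivAt_V_s C a hu).continuousAt

lemma continuousAt_W_φ {s φ : ℝ} (hu : IsUnit (C.σ φ • (1 : 𝒜) - (s : ℂ) • a)) :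
    ContinuousAt (fun φ => W C a s φ) φ := by
  have h1 := continuousAt_V_φ C a hu
  exact (continuous_ρe C).continuousAt.smul ((h1.mul continuousAt_const).mul h1)

lemma continuousAt_W_s {s φ : ℝ} (hu : IsUnit (C.σ φ • (1 : 𝒜) - (s : ℂ) • a)) :
    ContinuousAt (fun s => W C a s φ) s := by
  have h1 := continuousAt_V_s C a hu
  exact continuousAt_const.smul ((h1.mul continuousAt_const).mul h1)

theorem cauchy_one (hU : ∀ s ∈ Icc (0 : ℝ) 1, ∀ φ, IsUnit (C.σ φ • (1 : 𝒜) - (s : ℂ) • a)) :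
    ∫ φ in (0 : ℝ)..(2 * Real.pi), (C.ρ φ * exp (φ * I) : ℂ) • V C a 1 φ =
      (2 * Real.pi : ℂ) • (1 : 𝒜) := by
  have hpi : (0 : ℝ) ≤ 2 * Real.pi := by positivity
  -- continuity
  have hcW : ContinuousOn (fun p : ℝ × ℝ => W C a p.1 p.2)
      (Icc (0 : ℝ) 1 ×ˢ Icc 0 (2 * Real.pi)) :=
    fun p hp => (continuousAt_W C a (hU p.1 hp.1 p.2)).continuousWithinAt
  have hint : IntegrableOn (Function.uncurry (W C a)) (uIoc (0 : ℝ) 1 ×ˢ uIoc 0 (2 * Real.pi)) := by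
    have h1 : IntegrableOn (fun p : ℝ × ℝ => W C a p.1 p.2)
        (Icc (0 : ℝ) 1 ×ˢ Icc 0 (2 * Real.pi)) :=
      hcW.integrableOn_compact (isCompact_Icc.prod isCompact_Icc)
    refine h1.mono_set (prod_mono ?_ ?_)
    · rw [uIoc_of_le zero_le_one]; exact Ioc_subset_Icc_self
    · rw [uIoc_of_le hpi]; exact Ioc_subset_Icc_self
  have swap := intervalIntegral_intervalIntegral_swap hint
  -- inner integral over the curve vanishes
  have hin : ∀ s ∈ Icc (0 : ℝ) 1, ∫ φ in (0 : ℝ)..(2 * Real.pi), W C a s φ = 0 := by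
    intro s hs
    have hd : ∀ φ ∈ uIcc (0 : ℝ) (2 * Real.pi),
        HasDerivAt (fun φ => -(a * V C a s φ)) (W C a s φ) φ := by
      intro φ _
      have h1 := ((hasDerivAt_V_φ C a (hU s hs φ)).const_mul a).neg
      refine h1.congr_deriv ?_
      rw [W, (V_commute C a s φ).eq]
      simp [mul_assoc]
    have hc : ContinuousOn (fun φ => W C a s φ) (uIcc 0 (2 * Real.pi)) :=
      fun φ _ => (continuousAt_W_φ C a (hU s hs φ)).continuousWithinAt
    rw [integral_eq_sub_of_hasDerivAt hd hc.intervalIntegrable]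
    have h2 := C.σ_per 0
    rw [zero_add] at h2
    simp [V, h2]
  have h0 : ∫ s in (0 : ℝ)..1, ∫ φ in (0 : ℝ)..(2 * Real.pi), W C a s φ = 0 := by
    rw [integral_congr (g := fun _ => (0 : 𝒜)) (fun s hs => hin s (by
      rwa [uIcc_of_le zero_le_one] at hs))]
    simp
  rw [h0] at swap
  -- the integral over s
  have hout : ∀ φ : ℝ, ∫ s in (0 : ℝ)..1, W C a s φ =
      (I * exp (φ * I) * C.ρ φ) • V C a 1 φ - (I * exp (φ * I) * C.ρ φ) • V C a 0 φ := by
    intro φ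
    have hd : ∀ s ∈ uIcc (0 : ℝ) 1,
        HasDerivAt (fun s => (I * exp (φ * I) * C.ρ φ) • V C a s φ) (W C a s φ) s := by
      intro s hs
      rw [uIcc_of_le zero_le_one] at hs
      exact (hasDerivAt_V_s C a (hU s hs φ)).const_smul (I * exp (φ * I) * C.ρ φ : ℂ)
    have hc : ContinuousOn (fun s => W C a s φ) (uIcc (0 : ℝ) 1) := by
      rw [uIcc_of_le zero_le_one]
      intro s hs
      exact (continuousAt_W_s C a (hU s hs φ)).continuousWithinAt
    rw [integral_eq_sub_of_hasDerivAt hd hc.intervalIntegrable]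
  have hV0 : ∀ φ, V C a 0 φ = (C.σ φ)⁻¹ • (1 : 𝒜) := by
    intro φ
    have h1 : C.σ φ • (1 : 𝒜) - ((0 : ℝ) : ℂ) • a = C.σ φ • (1 : 𝒜) := by simp
    rw [V, h1]
    exact inverse_eq_of (by
      rw [smul_mul_smul_comm, mul_one, mul_inv_cancel₀ (C.σ_ne φ), one_smul]) (by
      rw [smul_mul_smul_comm, mul_one, inv_mul_cancel₀ (C.σ_ne φ), one_smul])
  have hcV1 : Continuous (fun φ => V C a 1 φ) := by
    rw [continuous_iff_continuousAt]
    intro φ
    exact continuousAt_V_φ C a (hU 1 ⟨zero_le_one, le_rfl⟩ φ)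
  have hcρ' := continuous_ρe C
  have e1 : ∫ φ in (0 : ℝ)..(2 * Real.pi), (I * exp (φ * I) * C.ρ φ : ℂ) • V C a 1 φ =
      ∫ φ in (0 : ℝ)..(2 * Real.pi), (I * exp (φ * I) * C.ρ φ : ℂ) • V C a 0 φ := by
    have h3 : ∫ φ in (0 : ℝ)..(2 * Real.pi), ((I * exp (φ * I) * C.ρ φ : ℂ) • V C a 1 φ -
        (I * exp (φ * I) * C.ρ φ : ℂ) • V C a 0 φ) = 0 := by
      rw [swap]
      exact integral_congr fun φ _ => (hout φ).symm
    rw [intervalIntegral.integral_sub, sub_eq_zero] at h3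
    · exact h3
    · exact (hcρ'.smul hcV1).intervalIntegrable _ _
    · simp only [hV0]
      have h4 : Continuous fun φ : ℝ => (C.σ φ)⁻¹ := C.continuous_σ.inv₀ C.σ_ne
      exact (hcρ'.smul (h4.smul continuous_const)).intervalIntegrable _ _
  have e2 : ∫ φ in (0 : ℝ)..(2 * Real.pi), (I * exp (φ * I) * C.ρ φ : ℂ) • V C a 0 φ =
      (I * (2 * Real.pi) : ℂ) • (1 : 𝒜) := by
    have h5 : ∀ φ : ℝ, (I * exp (φ * I) * C.ρ φ : ℂ) • V C a 0 φ =
        (I * ((C.ρ φ : ℂ) / C.m φ)) • (1 : 𝒜) := by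
      intro φ
      rw [hV0, smul_smul]
      congr 1
      rw [SF.σ]
      have := C.m_ne φ
      have := exp_ne_zero (φ * I : ℂ)
      field_simp
    simp only [h5]
    rw [intervalIntegral.integral_smul_const, intervalIntegral.integral_const_mul,
      C.integral_base]
  have e3 : ∫ φ in (0 : ℝ)..(2 * Real.pi), (I * exp (φ * I) * C.ρ φ : ℂ) • V C a 1 φ =
      I • ∫ φ in (0 : ℝ)..(2 * Real.pi), (C.ρ φ * exp (φ * I) : ℂ) • V C a 1 φ := by
    rw [← intervalIntegral.integral_smul]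
    refine integral_congr fun φ _ => ?_
    simp only [smul_smul]
    congr 1
    ring
  have e4 : I • ∫ φ in (0 : ℝ)..(2 * Real.pi), (C.ρ φ * exp (φ * I) : ℂ) • V C a 1 φ =
      I • ((2 * Real.pi : ℂ) • (1 : 𝒜)) := by
    rw [← e3, e1, e2, smul_smul]
  have h6 := congrArg (fun v : 𝒜 => (-I) • v) e4
  simp only [smul_smul] at h6
  have h7 : -I * I = 1 := by rw [neg_mul, I_mul_I, neg_neg]
  rwa [← mul_assoc, h7, one_smul, one_mul] at h6

lemma continuous_V1 (hU : ∀ φ, IsUnit (C.σ φ • (1 : 𝒜) - a)) :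
    Continuous (fun φ => V C a 1 φ) := by
  rw [continuous_iff_continuousAt]
  intro φ
  exact continuousAt_V_φ C a (by simpa using hU φ)

lemma integral_pow_zero (n : ℕ) :
    ∫ φ in (0 : ℝ)..(2 * Real.pi), (C.σ φ ^ n * (C.ρ φ * exp (φ * I)) : ℂ) = 0 := by
  have hn : ((n : ℂ) + 1) ≠ 0 := by exact_mod_cast Nat.succ_ne_zero n
  have hd : ∀ φ ∈ uIcc (0 : ℝ) (2 * Real.pi),
      HasDerivAt (fun φ => -I * (C.σ φ ^ (n + 1) / (n + 1)))
        (C.σ φ ^ n * (C.ρ φ * exp (φ * I)) : ℂ) φ := by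
    intro φ _
    have h1 := (((C.hasDerivAt_σ φ).fun_pow (n + 1)).div_const ((n : ℂ) + 1)).const_mul (-I)
    refine h1.congr_deriv ?_
    simp only [Nat.add_sub_cancel, Nat.cast_add, Nat.cast_one]
    field_simp
    linear_combination (-(C.σ φ ^ n * C.ρ φ) : ℂ) * I_sq
  have hc : Continuous fun φ : ℝ => (C.σ φ ^ n * (C.ρ φ * exp (φ * I)) : ℂ) := by
    have := C.hρc
    have := C.continuous_σ
    fun_prop
  rw [integral_eq_sub_of_hasDerivAt hd (hc.intervalIntegrable _ _)]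
  have h2 := C.σ_per 0
  rw [zero_add] at h2
  rw [h2, sub_self]

theorem cauchy_pow (hU : ∀ s ∈ Icc (0 : ℝ) 1, ∀ φ, IsUnit (C.σ φ • (1 : 𝒜) - (s : ℂ) • a))
    (n : ℕ) :
    ∫ φ in (0 : ℝ)..(2 * Real.pi), (C.σ φ ^ n * (C.ρ φ * exp (φ * I)) : ℂ) • V C a 1 φ =
      (2 * Real.pi : ℂ) • a ^ n := by
  have hU1 : ∀ φ, IsUnit (C.σ φ • (1 : 𝒜) - a) := fun φ => by
    simpa using hU 1 ⟨zero_le_one, le_rfl⟩ φ
  have hV := continuous_V1 C a hU1
  have hρ := C.hρc
  have hσ := C.continuous_σ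
  induction n with
  | zero => simpa using cauchy_one C a hU
  | succ n ih =>
    have h1 : ∀ φ, C.σ φ • V C a 1 φ = 1 + a * V C a 1 φ := by
      intro φ
      have h2 := Ring.mul_inverse_cancel _ (hU1 φ)
      have h3 : V C a 1 φ = Ring.inverse (C.σ φ • (1 : 𝒜) - a) := by simp [V]
      rw [← h3, sub_mul, smul_mul_assoc, one_mul, sub_eq_iff_eq_add] at h2
      exact h2
    have h2 : ∀ φ : ℝ, (C.σ φ ^ (n + 1) * (C.ρ φ * exp (φ * I)) : ℂ) • V C a 1 φ =
        (C.σ φ ^ n * (C.ρ φ * exp (φ * I)) : ℂ) • (1 : 𝒜) +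
          a * ((C.σ φ ^ n * (C.ρ φ * exp (φ * I)) : ℂ) • V C a 1 φ) := by
      intro φ
      have h4 : (C.σ φ ^ (n + 1) * (C.ρ φ * exp (φ * I)) : ℂ) =
        (C.σ φ ^ n * (C.ρ φ * exp (φ * I)) : ℂ) * C.σ φ := by ring
      rw [h4, mul_smul, h1, smul_add, mul_smul_comm]
    simp only [h2]
    have c1 : Continuous fun φ : ℝ => (C.σ φ ^ n * (C.ρ φ * exp (φ * I)) : ℂ) := by fun_prop
    rw [intervalIntegral.integral_add, intervalIntegral.integral_smul_const,
      integral_pow_zero, zero_smul, zero_add]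
    · have h5 := ((ContinuousLinearMap.mul ℝ 𝒜 a).intervalIntegral_comp_comm
        ((c1.smul hV).intervalIntegrable (μ := volume) 0 (2 * Real.pi)))
      simp only [ContinuousLinearMap.mul_apply', Pi.smul_apply'] at h5
      rw [h5, ih, mul_smul_comm, pow_succ']
    · exact (c1.smul continuous_const).intervalIntegrable _ _
    · exact (continuous_const.mul (c1.smul hV)).intervalIntegrable _ _

theorem cauchy_poly (hU : ∀ s ∈ Icc (0 : ℝ) 1, ∀ φ, IsUnit (C.σ φ • (1 : 𝒜) - (s : ℂ) • a))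
    (p : Polynomial ℂ) :
    ∫ φ in (0 : ℝ)..(2 * Real.pi), (p.eval (C.σ φ) * (C.ρ φ * exp (φ * I)) : ℂ) • V C a 1 φ =
      (2 * Real.pi : ℂ) • Polynomial.aeval a p := by
  have hU1 : ∀ φ, IsUnit (C.σ φ • (1 : 𝒜) - a) := fun φ => by
    simpa using hU 1 ⟨zero_le_one, le_rfl⟩ φ
  have hV := continuous_V1 C a hU1
  have hρ := C.hρc
  have hσ := C.continuous_σ
  have hp : ∀ p : Polynomial ℂ, Continuous fun φ : ℝ =>
      ((p.eval (C.σ φ) * (C.ρ φ * exp (φ * I)) : ℂ) • V C a 1 φ) := by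
    intro p
    have := (Polynomial.continuous (p := p)).comp hσ
    exact (this.mul (by fun_prop)).smul hV
  induction p using Polynomial.induction_on' with
  | add p r hp1 hr1 =>
    simp only [Polynomial.eval_add, add_mul, add_smul, map_add, smul_add]
    rw [intervalIntegral.integral_add ((hp p).intervalIntegrable _ _)
      ((hp r).intervalIntegrable _ _), hp1, hr1]
  | monomial n c =>
    have h1 : ∀ φ : ℝ, ((Polynomial.monomial n c).eval (C.σ φ) * (C.ρ φ * exp (φ * I)) : ℂ) •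
        V C a 1 φ = c • ((C.σ φ ^ n * (C.ρ φ * exp (φ * I)) : ℂ) • V C a 1 φ) := by
      intro φ
      rw [Polynomial.eval_monomial, smul_smul]
      congr 1
      ring
    simp only [h1]
    rw [intervalIntegral.integral_smul, cauchy_pow C a hU, Polynomial.aeval_monomial,
      smul_comm, Algebra.smul_def c]

end Banach

end Pool.Agent.K1H30.QN
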