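import Pool.Agent.K1H30.QN.Alg
import Pool.Agent.K1H30.QN.Conv
import Pool.Agent.K1H30.QN.Curve

set_option autoImplicit false

/-!
# Positivity along the curve
-/

namespace Pool.Agent.K1H30.QN

open scoped InnerProductSpace

open Complex ComplexConjugate Set Polynomial MeasureTheory intervalIntegral

/-- the curve is `ε`-outside of `K` -/
def Outer (C : SF) (K : Set ℂ) (ε : ℝ) : Prop :=
  ∀ φ : ℝ, ∀ w ∈ K, (exp (-(φ * I)) * w).re + ε ≤ C.H φ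

variable {E : Type*} [NormedAddCommGroup E] [InnerProductSpace ℂ E]


variable {K : Set ℂ} {A : E →L[ℂ] E} [CompactSpace K]

variable (K A) in
/-- the generator as an element of the closed algebra -/
noncomputable def gn : alg K A := ⟨gen K A, gen_mem⟩

lemma exp_neg_norm (φ : ℝ) : ‖exp (-(φ * I))‖ = 1 := by
  rw [← neg_mul, ← Complex.ofReal_neg]; exact Complex.norm_exp_ofReal_mul_I _

omit [CompactSpace K] in
/-- numerical range in `K` -/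
lemma nr_mem [FiniteDimensional ℂ E] (hE : Dim2 E) {q κ : ℝ} (hq : 0 < q) (hκ : 0 ≤ κ)
    (hqκ : q ^ 2 + κ ^ 2 = 1) (hAK : Om (q : ℂ) A ⊆ K) {x : E} (hx : ‖x‖ = 1) : ⟪x, A x⟫_ℂ ∈ K := by
  apply hAK
  rw [om_eq hE hq hκ hqκ]
  refine ⟨x, hx, ?_⟩
  simp
  positivity

/-- a bound for the quadratic form -/
lemma quad_bound {ε h : ℝ} {u : ℂ} (hA : ∀ x : E, ‖x‖ = 1 → (u * ⟪x, A x⟫_ℂ).re + ε ≤ h) (x : E) :
    (u * ⟪x, A x⟫_ℂ).re + ε * ‖x‖ ^ 2 ≤ h * ‖x‖ ^ 2 := by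
  rcases eq_or_ne x 0 with rfl | hx
  · simp
  have hr : 0 < ‖x‖ := norm_pos_iff.2 hx
  have h1 := hA (((‖x‖⁻¹ : ℝ) : ℂ) • x) (by
    rw [norm_smul, Complex.norm_real, Real.norm_of_nonneg (inv_nonneg.2 hr.le)]
    field_simp)
  rw [map_smul, inner_smul_left, inner_smul_right, Complex.conj_ofReal] at h1
  have h2 : u * (((‖x‖⁻¹ : ℝ) : ℂ) * (((‖x‖⁻¹ : ℝ) : ℂ) * ⟪x, A x⟫_ℂ)) =
      ((‖x‖⁻¹ * ‖x‖⁻¹ : ℝ) : ℂ) * (u * ⟪x, A x⟫_ℂ) := by push_cast; ring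
  rw [h2, Complex.re_ofReal_mul] at h1
  have h3 : 0 < ‖x‖ ^ 2 := by positivity
  have h4 := mul_le_mul_of_nonneg_left h1 h3.le
  have h5 : ‖x‖ ^ 2 * (‖x‖⁻¹ * ‖x‖⁻¹ * (u * ⟪x, A x⟫_ℂ).re + ε) =
      (u * ⟪x, A x⟫_ℂ).re + ε * ‖x‖ ^ 2 := by
    field_simp
  linarith

lemma unit_path [CompleteSpace E] {C : SF} {ε : ℝ} (hε : 0 < ε) (hC : Outer C K ε)
    (h0 : (0 : ℂ) ∈ K) (hnr : ∀ x : E, ‖x‖ = 1 → ⟪x, A x⟫_ℂ ∈ K) :
    ∀ s ∈ Icc (0 : ℝ) 1, ∀ φ, IsUnit (C.σ φ • (1 : alg K A) - (s : ℂ) • gn K A) := by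
  intro s hs φ
  have hexp : exp (-(φ * I)) ≠ 0 := exp_ne_zero _
  have hH : ε ≤ C.H φ := by simpa using hC φ 0 h0
  have hu : IsUnit (exp (-(φ * I)) • (C.σ φ • (1 : alg K A) - (s : ℂ) • gn K A)) := by
    refine isUnit_of_accretive _ hε ?_ ?_
    · intro z
      have e1 : (exp (-(φ * I)) • (C.σ φ • (1 : alg K A) - (s : ℂ) • gn K A)).1.1 z =
          C.m φ - (s : ℂ) * (exp (-(φ * I)) * z) := by
        rw [← C.exp_σ]
        simp [gn, gen]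
        ring
      rw [e1, Complex.sub_re, C.m_re, Complex.re_ofReal_mul]
      have h1 := hC φ z z.2
      nlinarith [hs.1, hs.2]
    · intro x
      have e1 : (exp (-(φ * I)) • (C.σ φ • (1 : alg K A) - (s : ℂ) • gn K A)).1.2 x =
          C.m φ • x - (s : ℂ) • (exp (-(φ * I)) • A x) := by
        have e0 : (exp (-(φ * I)) • (C.σ φ • (1 : alg K A) - (s : ℂ) • gn K A)).1.2 x =
            exp (-(φ * I)) • (C.σ φ • x - (s : ℂ) • A x) := rfl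
        rw [e0, ← C.exp_σ, smul_sub, smul_smul, smul_comm (exp (-(φ * I))) (s : ℂ)]
      have h1 := quad_bound (A := A) (u := exp (-(φ * I))) (ε := ε) (h := C.H φ)
        (fun x hx => hC φ _ (hnr x hx)) x
      rw [e1, inner_sub_right, inner_smul_right, inner_smul_right, inner_smul_right,
        inner_self_eq_norm_sq_to_K, Complex.sub_re, Complex.re_ofReal_mul]
      have e2 : (C.m φ * (‖x‖ : ℂ) ^ 2).re = C.H φ * ‖x‖ ^ 2 := by
        rw [← Complex.ofReal_pow, Complex.re_mul_ofReal, C.m_re]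
      have e3 : (C.m φ * ((‖x‖ : ℝ) : ℂ) ^ 2).re = C.H φ * ‖x‖ ^ 2 := e2
      have e4 : (C.m φ * (RCLike.ofReal ‖x‖ : ℂ) ^ 2).re = C.H φ * ‖x‖ ^ 2 := e3
      rw [e4]
      have h2 : 0 ≤ ‖x‖ ^ 2 := by positivity
      nlinarith [hs.1, hs.2, mul_le_mul_of_nonneg_right hH h2]
  exact (isUnit_smul_iff (Units.mk0 _ hexp) _).1 hu

lemma unit_one [CompleteSpace E] {C : SF} {ε : ℝ} (hε : 0 < ε) (hC : Outer C K ε)
    (h0 : (0 : ℂ) ∈ K) (hnr : ∀ x : E, ‖x‖ = 1 → ⟪x, A x⟫_ℂ ∈ K) (φ : ℝ) :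
    IsUnit (C.σ φ • (1 : alg K A) - gn K A) := by
  simpa using unit_path hε hC h0 hnr 1 ⟨zero_le_one, le_rfl⟩ φ

variable (K A) in
/-- the normalised resolvent -/
noncomputable def D (C : SF) (φ : ℝ) : alg K A := exp (φ * I) • V C (gn K A) 1 φ

variable {C : SF} {ε : ℝ}

lemma D_mul [CompleteSpace E] (hε : 0 < ε) (hC : Outer C K ε)
    (h0 : (0 : ℂ) ∈ K) (hnr : ∀ x : E, ‖x‖ = 1 → ⟪x, A x⟫_ℂ ∈ K) (φ : ℝ) :
    (C.m φ • (1 : alg K A) - exp (-(φ * I)) • gn K A) * D K A C φ = 1 := by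
  have h1 := Ring.mul_inverse_cancel _ (unit_one hε hC h0 hnr φ)
  have h2 : C.m φ • (1 : alg K A) - exp (-(φ * I)) • gn K A =
      exp (-(φ * I)) • (C.σ φ • (1 : alg K A) - gn K A) := by
    rw [smul_sub, smul_smul, C.exp_σ]
  have h3 : V C (gn K A) 1 φ = Ring.inverse (C.σ φ • (1 : alg K A) - gn K A) := by simp [V]
  rw [h2, D, h3, smul_mul_smul_comm, h1, SF.exp_conj, one_smul]

lemma D_fst [CompleteSpace E] (hε : 0 < ε) (hC : Outer C K ε)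
    (h0 : (0 : ℂ) ∈ K) (hnr : ∀ x : E, ‖x‖ = 1 → ⟪x, A x⟫_ℂ ∈ K) (φ : ℝ) (z : K) :
    (C.m φ - exp (-(φ * I)) * z) * (D K A C φ).1.1 z = 1 := by
  have h1 := congrArg (fun w : alg K A => w.1.1 z) (D_mul hε hC h0 hnr φ)
  simpa [gn, gen] using h1

lemma D_snd [CompleteSpace E] (hε : 0 < ε) (hC : Outer C K ε)
    (h0 : (0 : ℂ) ∈ K) (hnr : ∀ x : E, ‖x‖ = 1 → ⟪x, A x⟫_ℂ ∈ K) (φ : ℝ) (x : E) :
    (C.m φ • (1 : E →L[ℂ] E) - exp (-(φ * I)) • A) ((D K A C φ).1.2 x) = x := by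
  have h1 := congrArg (fun w : alg K A => w.1.2 x) (D_mul hε hC h0 hnr φ)
  simpa [gn, gen] using h1

lemma D_cont [CompleteSpace E] (hε : 0 < ε) (hC : Outer C K ε)
    (h0 : (0 : ℂ) ∈ K) (hnr : ∀ x : E, ‖x‖ = 1 → ⟪x, A x⟫_ℂ ∈ K) :
    Continuous (D K A C) := by
  have h1 := continuous_V1 C (gn K A) (unit_one hε hC h0 hnr)
  exact (by fun_prop : Continuous fun φ : ℝ => exp (φ * I)).smul h1

lemma D_qa [FiniteDimensional ℂ E] (hE : Dim2 E) {q κ : ℝ} (hq : 0 < q) (hκ : 0 ≤ κ)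
    (hqκ : q ^ 2 + κ ^ 2 = 1) (hAK : Om (q : ℂ) A ⊆ K) (hε : 0 < ε) (hC : Outer C K ε)
    (h0 : (0 : ℂ) ∈ K) (φ : ℝ) : QA q κ (D K A C φ).1.2 := by
  have hcE : CompleteSpace E := FiniteDimensional.complete ℂ E
  have hnr : ∀ x : E, ‖x‖ = 1 → ⟪x, A x⟫_ℂ ∈ K := fun x hx => nr_mem hE hq hκ hqκ hAK hx
  refine qa_inv (B := C.m φ • (1 : E →L[ℂ] E) - exp (-(φ * I)) • A) ?_
    (D_snd hε hC h0 hnr φ)
  refine qa_of_pairs hE hq hκ hqκ fun x y hx hy hxy => ?_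
  have h1 : ⟪y, A x⟫_ℂ / (q : ℂ) ∈ K := hAK ⟨x, y, hx, hy, hxy, rfl⟩
  have h2 := hC φ _ h1
  have hq' : (q : ℂ) ≠ 0 := by exact_mod_cast hq.ne'
  have h3 : ⟪y, (C.m φ • (1 : E →L[ℂ] E) - exp (-(φ * I)) • A) x⟫_ℂ =
      (q : ℂ) * (C.m φ - exp (-(φ * I)) * (⟪y, A x⟫_ℂ / (q : ℂ))) := by
    have e0 : (C.m φ • (1 : E →L[ℂ] E) - exp (-(φ * I)) • A) x =
        C.m φ • x - exp (-(φ * I)) • A x := rfl
    rw [e0, inner_sub_right, inner_smul_right, inner_smul_right, hxy]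
    field_simp
  rw [h3, Complex.re_ofReal_mul, Complex.sub_re, C.m_re]
  exact mul_nonneg hq.le (by linarith)

/-- the Cauchy formula for `D` -/
lemma D_cauchy [CompleteSpace E] (hε : 0 < ε) (hC : Outer C K ε)
    (h0 : (0 : ℂ) ∈ K) (hnr : ∀ x : E, ‖x‖ = 1 → ⟪x, A x⟫_ℂ ∈ K) (p : ℂ[X]) :
    ∫ φ in (0 : ℝ)..(2 * Real.pi), (p.eval (C.σ φ) * C.ρ φ : ℂ) • D K A C φ =
      (2 * Real.pi : ℂ) • aeval (gn K A) p := by
  rw [← cauchy_poly C (gn K A) (unit_path hε hC h0 hnr) p]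
  refine integral_congr fun φ _ => ?_
  simp only [D, smul_smul]
  congr 1
  ring

omit [CompactSpace K] in
lemma aeval_gn [CompactSpace K] (p : ℂ[X]) : (aeval (gn K A) p).1 = aeval (gen K A) p := by
  have h := Polynomial.aeval_algHom_apply (alg K A).val (gn K A) p
  exact h.symm

/-- the functional `e ↦ ⟪y, e₂ x⟫_ℂ` -/
noncomputable def Lxy (x y : E) : alg K A →L[ℂ] ℂ :=
  (innerSL ℂ y).comp ((ContinuousLinearMap.apply ℂ E x).comp ev2)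

lemma Lxy_apply (x y : E) (e : alg K A) : Lxy x y e = ⟪y, e.1.2 x⟫_ℂ := rfl

variable (K A) in
/-- the transform of `conj p` -/
noncomputable def gp (C : SF) (p : ℂ[X]) : alg K A :=
  (2 * Real.pi : ℂ)⁻¹ • ∫ φ in (0 : ℝ)..(2 * Real.pi), (conj (p.eval (C.σ φ)) * C.ρ φ : ℂ) • D K A C φ

lemma integrand_cont [CompleteSpace E] (hε : 0 < ε) (hC : Outer C K ε)
    (h0 : (0 : ℂ) ∈ K) (hnr : ∀ x : E, ‖x‖ = 1 → ⟪x, A x⟫_ℂ ∈ K) {f : ℝ → ℂ} (hf : Continuous f) :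
    Continuous fun φ : ℝ => (f φ * C.ρ φ : ℂ) • D K A C φ :=
  (hf.mul (continuous_ofReal.comp C.hρc)).smul (D_cont hε hC h0 hnr)

lemma pσ_cont (C : SF) (p : ℂ[X]) : Continuous fun φ : ℝ => p.eval (C.σ φ) :=
  p.continuous.comp C.continuous_σ

lemma conj_pσ_cont (C : SF) (p : ℂ[X]) : Continuous fun φ : ℝ => conj (p.eval (C.σ φ)) :=
  Complex.continuous_conj.comp (pσ_cont C p)

/-- integral of a functional -/
lemma L_integral [CompleteSpace E] (hε : 0 < ε) (hC : Outer C K ε)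
    (h0 : (0 : ℂ) ∈ K) (hnr : ∀ x : E, ‖x‖ = 1 → ⟪x, A x⟫_ℂ ∈ K) {f : ℝ → ℂ} (hf : Continuous f)
    (L : alg K A →L[ℂ] ℂ) :
    L (∫ φ in (0 : ℝ)..(2 * Real.pi), (f φ * C.ρ φ : ℂ) • D K A C φ) =
      ∫ φ in (0 : ℝ)..(2 * Real.pi), (f φ * C.ρ φ : ℂ) * L (D K A C φ) := by
  have h1 := L.intervalIntegral_comp_comm
    ((integrand_cont hε hC h0 hnr hf).intervalIntegrable (μ := volume) 0 (2 * Real.pi))
  rw [← h1]
  refine integral_congr fun φ _ => ?_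
  simp

/-- the mass is one -/
lemma mass_one [CompleteSpace E] (hε : 0 < ε) (hC : Outer C K ε)
    (h0 : (0 : ℂ) ∈ K) (hnr : ∀ x : E, ‖x‖ = 1 → ⟪x, A x⟫_ℂ ∈ K) {x : E} (hx : ‖x‖ = 1) :
    ∫ φ in (0 : ℝ)..(2 * Real.pi), C.ρ φ * (⟪x, (D K A C φ).1.2 x⟫_ℂ).re = 2 * Real.pi := by
  have h1 := D_cauchy hε hC h0 hnr (1 : ℂ[X])
  simp only [eval_one, map_one] at h1
  have h2 := L_integral hε hC h0 hnr (continuous_const (y := (1 : ℂ))) (Lxy (K := K) (A := A) x x)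
  rw [h1, map_smul, Lxy_apply] at h2
  have h3 : ⟪x, ((1 : alg K A) : Big K E).2 x⟫_ℂ = 1 := by
    have : ((1 : alg K A) : Big K E).2 x = x := rfl
    rw [this, inner_self_eq_norm_sq_to_K, hx]; simp
  rw [h3] at h2
  have hc : Continuous fun φ : ℝ => ((1 : ℂ) * C.ρ φ : ℂ) * Lxy (K := K) (A := A) x x (D K A C φ) :=
    (continuous_const.mul (continuous_ofReal.comp C.hρc)).mul
      ((Lxy (K := K) (A := A) x x).continuous.comp (D_cont hε hC h0 hnr))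
  have h4 := Complex.reCLM.intervalIntegral_comp_comm
    (hc.intervalIntegrable (μ := volume) 0 (2 * Real.pi))
  rw [← h2] at h4
  simp only [Complex.reCLM_apply, Lxy_apply, one_mul, Complex.re_ofReal_mul] at h4
  rw [h4]
  simp

/-- off-diagonal bound -/
theorem off_bound [FiniteDimensional ℂ E] (hE : Dim2 E) {q κ : ℝ} (hq : 0 < q) (hκ : 0 ≤ κ)
    (hqκ : q ^ 2 + κ ^ 2 = 1) (hAK : Om (q : ℂ) A ⊆ K) (hε : 0 < ε) (hC : Outer C K ε)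
    (h0 : (0 : ℂ) ∈ K) {p : ℂ[X]} {S : ℝ} (hS : ∀ φ, ‖p.eval (C.σ φ)‖ ≤ S) {x y : E}
    (hx : ‖x‖ = 1) (hy : ‖y‖ = 1) (hxy : ⟪y, x⟫_ℂ = 0) : κ * ‖⟪y, aeval A p x⟫_ℂ‖ ≤ q * S := by
  have hcE : CompleteSpace E := FiniteDimensional.complete ℂ E
  have hnr : ∀ x : E, ‖x‖ = 1 → ⟪x, A x⟫_ℂ ∈ K := fun x hx => nr_mem hE hq hκ hqκ hAK hx
  have hS0 : 0 ≤ S := (norm_nonneg _).trans (hS 0)
  have hpi : (0 : ℝ) < 2 * Real.pi := by positivity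
  have h1 := D_cauchy hε hC h0 hnr p
  have h2 := L_integral hε hC h0 hnr (pσ_cont C p) (Lxy (K := K) (A := A) x y)
  rw [h1, map_smul, Lxy_apply, aeval_gn, aeval_snd] at h2
  have h3 : ‖(2 * Real.pi : ℂ) • ⟪y, aeval A p x⟫_ℂ‖ = 2 * Real.pi * ‖⟪y, aeval A p x⟫_ℂ‖ := by
    rw [norm_smul]
    congr 1
    rw [← Complex.ofReal_ofNat, ← Complex.ofReal_mul, Complex.norm_real,
      Real.norm_of_nonneg hpi.le]
  have hc : Continuous fun φ : ℝ => C.ρ φ * (⟪x, (D K A C φ).1.2 x⟫_ℂ).re :=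
    C.hρc.mul (Complex.continuous_re.comp
      ((Lxy (K := K) (A := A) x x).continuous.comp (D_cont hε hC h0 hnr)))
  have h4 : 2 * Real.pi * (κ * ‖⟪y, aeval A p x⟫_ℂ‖) ≤
      ∫ φ in (0 : ℝ)..(2 * Real.pi), q * S * (C.ρ φ * (⟪x, (D K A C φ).1.2 x⟫_ℂ).re) := by
    have h5 : κ * (2 * Real.pi * ‖⟪y, aeval A p x⟫_ℂ‖) = ‖(κ : ℂ) *
        ∫ φ in (0 : ℝ)..(2 * Real.pi), (p.eval (C.σ φ) * C.ρ φ : ℂ) *
          Lxy (K := K) (A := A) x y (D K A C φ)‖ := by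
      rw [← h2, norm_mul, h3, Complex.norm_real, Real.norm_of_nonneg hκ]
    have h6 : 2 * Real.pi * (κ * ‖⟪y, aeval A p x⟫_ℂ‖) = κ * (2 * Real.pi * ‖⟪y, aeval A p x⟫_ℂ‖) := by
      ring
    rw [h6, h5, ← intervalIntegral.integral_const_mul]
    refine intervalIntegral.norm_integral_le_of_norm_le hpi.le ?_
      ((continuous_const.mul hc).intervalIntegrable _ _)
    refine Filter.Eventually.of_forall fun φ _ => ?_
    have h7 := qa_off hq hκ (D_qa hE hq hκ hqκ hAK hε hC h0 φ) hx hy hxy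
    rw [norm_mul, norm_mul, norm_mul, Complex.norm_real, Complex.norm_real,
      Real.norm_of_nonneg hκ, Real.norm_of_nonneg (C.hρ φ).le, Lxy_apply]
    have h8 := hS φ
    have h9 := (C.hρ φ).le
    calc κ * (‖p.eval (C.σ φ)‖ * C.ρ φ * ‖⟪y, (D K A C φ).1.2 x⟫_ℂ‖) =
          ‖p.eval (C.σ φ)‖ * C.ρ φ * (κ * ‖⟪y, (D K A C φ).1.2 x⟫_ℂ‖) := by ring
      _ ≤ S * C.ρ φ * (q * (⟪x, (D K A C φ).1.2 x⟫_ℂ).re) := by
          refine mul_le_mul (mul_le_mul_of_nonneg_right h8 h9) h7 (by positivity) (by positivity)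
      _ = q * S * (C.ρ φ * (⟪x, (D K A C φ).1.2 x⟫_ℂ).re) := by ring
  rw [intervalIntegral.integral_const_mul, mass_one hε hC h0 hnr hx] at h4
  have h5 : 2 * Real.pi * (κ * ‖⟪y, aeval A p x⟫_ℂ‖) ≤ 2 * Real.pi * (q * S) := by linarith
  exact le_of_mul_le_mul_left h5 hpi

/-- the key inequality for `p(A)` and the transform of `conj p` -/
theorem star_bound [FiniteDimensional ℂ E] (hE : Dim2 E) {q κ : ℝ} (hq : 0 < q) (hκ : 0 ≤ κ)
    (hqκ : q ^ 2 + κ ^ 2 = 1) (hAK : Om (q : ℂ) A ⊆ K) (hε : 0 < ε) (hC : Outer C K ε)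
    (h0 : (0 : ℂ) ∈ K) {p : ℂ[X]} {S : ℝ} (hS : ∀ φ, ‖p.eval (C.σ φ)‖ ≤ S) {x y : E}
    (hx : ‖x‖ = 1) (hy : ‖y‖ = 1) (hxy : ⟪y, x⟫_ℂ = 0) :
    ‖((1 + κ : ℝ) : ℂ) * ⟪y, aeval A p x⟫_ℂ + ((1 - κ : ℝ) : ℂ) * conj ⟪x, (gp K A C p).1.2 y⟫_ℂ‖ ≤
      2 * q * S := by
  have hcE : CompleteSpace E := FiniteDimensional.complete ℂ E
  have hnr : ∀ x : E, ‖x‖ = 1 → ⟪x, A x⟫_ℂ ∈ K := fun x hx => nr_mem hE hq hκ hqκ hAK hx
  have hS0 : 0 ≤ S := (norm_nonneg _).trans (hS 0)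
  have hpi : (0 : ℝ) < 2 * Real.pi := by positivity
  have hpic : (2 * Real.pi : ℂ) ≠ 0 := by
    exact_mod_cast hpi.ne'
  have h1 := D_cauchy hε hC h0 hnr p
  have h2 := L_integral hε hC h0 hnr (pσ_cont C p) (Lxy (K := K) (A := A) x y)
  rw [h1, map_smul, Lxy_apply, aeval_gn, aeval_snd] at h2
  have h2' := L_integral hε hC h0 hnr (conj_pσ_cont C p) (Lxy (K := K) (A := A) y x)
  have h3 : (2 * Real.pi : ℂ) * ⟪x, (gp K A C p).1.2 y⟫_ℂ =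
      ∫ φ in (0 : ℝ)..(2 * Real.pi), (conj (p.eval (C.σ φ)) * C.ρ φ : ℂ) *
        Lxy (K := K) (A := A) y x (D K A C φ) := by
    rw [← h2', ← Lxy_apply, gp, map_smul, smul_eq_mul, ← mul_assoc, mul_inv_cancel₀ hpic, one_mul]
  have hcL : ∀ x y : E, Continuous fun φ : ℝ => Lxy (K := K) (A := A) x y (D K A C φ) :=
    fun x y => (Lxy (K := K) (A := A) x y).continuous.comp (D_cont hε hC h0 hnr)
  have hcρ : Continuous fun φ : ℝ => (C.ρ φ : ℂ) := continuous_ofReal.comp C.hρc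
  have h4 : (2 * Real.pi : ℂ) * conj ⟪x, (gp K A C p).1.2 y⟫_ℂ =
      ∫ φ in (0 : ℝ)..(2 * Real.pi), (p.eval (C.σ φ) * C.ρ φ : ℂ) *
        conj (Lxy (K := K) (A := A) y x (D K A C φ)) := by
    have h5 := congrArg conj h3
    rw [map_mul] at h5
    have h6 : conj (2 * Real.pi : ℂ) = 2 * Real.pi := by
      rw [map_mul, Complex.conj_ofReal, map_ofNat]
    rw [h6] at h5
    rw [h5]
    have h7 := Complex.conjCLE.toContinuousLinearMap.intervalIntegral_comp_comm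
      ((((conj_pσ_cont C p).mul hcρ).mul (hcL y x)).intervalIntegrable (μ := volume)
        0 (2 * Real.pi))
    have h8 : conj (∫ φ in (0 : ℝ)..(2 * Real.pi), (conj (p.eval (C.σ φ)) * C.ρ φ : ℂ) *
        Lxy (K := K) (A := A) y x (D K A C φ)) = ∫ φ in (0 : ℝ)..(2 * Real.pi),
          conj ((conj (p.eval (C.σ φ)) * C.ρ φ : ℂ) * Lxy (K := K) (A := A) y x (D K A C φ)) :=
      h7.symm
    rw [h8]
    refine integral_congr fun φ _ => ?_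
    simp only [map_mul, Complex.conj_conj, Complex.conj_ofReal]
  have h5 : (2 * Real.pi : ℂ) * (((1 + κ : ℝ) : ℂ) * ⟪y, aeval A p x⟫_ℂ +
      ((1 - κ : ℝ) : ℂ) * conj ⟪x, (gp K A C p).1.2 y⟫_ℂ) =
      ∫ φ in (0 : ℝ)..(2 * Real.pi), (p.eval (C.σ φ) * C.ρ φ : ℂ) *
        (((1 + κ : ℝ) : ℂ) * Lxy (K := K) (A := A) x y (D K A C φ) +
          ((1 - κ : ℝ) : ℂ) * conj (Lxy (K := K) (A := A) y x (D K A C φ))) := by
    rw [smul_eq_mul] at h2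
    have h6 : (2 * Real.pi : ℂ) * (((1 + κ : ℝ) : ℂ) * ⟪y, aeval A p x⟫_ℂ +
      ((1 - κ : ℝ) : ℂ) * conj ⟪x, (gp K A C p).1.2 y⟫_ℂ) =
      ((1 + κ : ℝ) : ℂ) * ((2 * Real.pi : ℂ) * ⟪y, aeval A p x⟫_ℂ) +
      ((1 - κ : ℝ) : ℂ) * ((2 * Real.pi : ℂ) * conj ⟪x, (gp K A C p).1.2 y⟫_ℂ) := by ring
    rw [h6, h2, h4, ← intervalIntegral.integral_const_mul, ← intervalIntegral.integral_const_mul,
      ← intervalIntegral.integral_add]
    · refine integral_congr fun φ _ => ?_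
      ring
    · exact (continuous_const.mul (((pσ_cont C p).mul hcρ).mul (hcL x y))).intervalIntegrable _ _
    · exact (continuous_const.mul (((pσ_cont C p).mul hcρ).mul
        (Complex.continuous_conj.comp (hcL y x)))).intervalIntegrable _ _
  have h3 : ‖(2 * Real.pi : ℂ)‖ = 2 * Real.pi := by
    rw [← Complex.ofReal_ofNat, ← Complex.ofReal_mul, Complex.norm_real,
      Real.norm_of_nonneg hpi.le]
  have hc : ∀ x : E, Continuous fun φ : ℝ => C.ρ φ * (⟪x, (D K A C φ).1.2 x⟫_ℂ).re :=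
    fun x => C.hρc.mul (Complex.continuous_re.comp
      ((Lxy (K := K) (A := A) x x).continuous.comp (D_cont hε hC h0 hnr)))
  have h6 : 2 * Real.pi * ‖((1 + κ : ℝ) : ℂ) * ⟪y, aeval A p x⟫_ℂ +
      ((1 - κ : ℝ) : ℂ) * conj ⟪x, (gp K A C p).1.2 y⟫_ℂ‖ ≤
      ∫ φ in (0 : ℝ)..(2 * Real.pi), (q * S * (C.ρ φ * (⟪x, (D K A C φ).1.2 x⟫_ℂ).re) +
        q * S * (C.ρ φ * (⟪y, (D K A C φ).1.2 y⟫_ℂ).re)) := by
    have h7 := congrArg norm h5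
    rw [norm_mul, h3] at h7
    rw [h7]
    refine intervalIntegral.norm_integral_le_of_norm_le hpi.le ?_
      (((continuous_const.mul (hc x)).add (continuous_const.mul (hc y))).intervalIntegrable _ _)
    refine Filter.Eventually.of_forall fun φ _ => ?_
    have h8 := qa_star hq hκ hqκ (D_qa hE hq hκ hqκ hAK hε hC h0 φ) hx hy hxy
    rw [norm_mul, norm_mul, Complex.norm_real, Real.norm_of_nonneg (C.hρ φ).le, Lxy_apply,
      Lxy_apply]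
    push_cast
    have h9 := (C.hρ φ).le
    calc ‖p.eval (C.σ φ)‖ * C.ρ φ * ‖(1 + κ : ℂ) * ⟪y, (D K A C φ).1.2 x⟫_ℂ +
          (1 - κ : ℂ) * conj ⟪x, (D K A C φ).1.2 y⟫_ℂ‖ ≤
        S * C.ρ φ * (q * ((⟪x, (D K A C φ).1.2 x⟫_ℂ).re + (⟪y, (D K A C φ).1.2 y⟫_ℂ).re)) := by
          refine mul_le_mul (mul_le_mul_of_nonneg_right (hS φ) h9) h8 (by positivity)
            (by positivity)
      _ = _ := by ring
  rw [intervalIntegral.integral_add, intervalIntegral.integral_const_mul,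
    intervalIntegral.integral_const_mul, mass_one hε hC h0 hnr hx, mass_one hε hC h0 hnr hy] at h6
  · refine le_of_mul_le_mul_left ?_ hpi
    linarith
  · exact (continuous_const.mul (hc x)).intervalIntegrable _ _
  · exact (continuous_const.mul (hc y)).intervalIntegrable _ _

end Pool.Agent.K1H30.QN
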