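import Pool.Agent.K1H30.QN.Support
import Pool.Agent.K1H30.QN.Pos

set_option autoImplicit false

/-!
# Smooth convex curves close to a given convex compact set
-/

namespace Pool.Agent.K1H30.QN

open Complex ComplexConjugate Set MeasureTheory

/-- average -/
noncomputable def av (δ : ℝ) (f : ℝ → ℝ) (x : ℝ) : ℝ := (2 * δ)⁻¹ * ∫ t in (x - δ)..(x + δ), f t

/-- difference quotient -/
noncomputable def dv (δ : ℝ) (f : ℝ → ℝ) (x : ℝ) : ℝ := (2 * δ)⁻¹ * (f (x + δ) - f (x - δ))

lemma hasDerivAt_av {δ : ℝ} {f : ℝ → ℝ} (hf : Continuous f) (x : ℝ) :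
    HasDerivAt (av δ f) (dv δ f x) x := by
  have hP : ∀ y, HasDerivAt (fun y => ∫ t in (0 : ℝ)..y, f t) (f y) y := fun y =>
    (hf.integral_hasStrictDerivAt 0 y).hasDerivAt
  have h1 : HasDerivAt (fun x => ∫ t in (0 : ℝ)..(x + δ), f t) (f (x + δ)) x := by
    have := (hP (x + δ)).comp x ((hasDerivAt_id x).add_const δ)
    rw [mul_one] at this
    exact this
  have h2 : HasDerivAt (fun x => ∫ t in (0 : ℝ)..(x - δ), f t) (f (x - δ)) x := by
    have := (hP (x - δ)).comp x ((hasDerivAt_id x).sub_const δ)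
    rw [mul_one] at this
    exact this
  have h3 : av δ f = fun x => (2 * δ)⁻¹ * ((∫ t in (0 : ℝ)..(x + δ), f t) -
      ∫ t in (0 : ℝ)..(x - δ), f t) := by
    funext x
    rw [av, intervalIntegral.integral_interval_sub_left (hf.intervalIntegrable _ _)
      (hf.intervalIntegrable _ _)]
  rw [h3]
  exact (h1.sub h2).const_mul _

lemma av_continuous {δ : ℝ} {f : ℝ → ℝ} (hf : Continuous f) : Continuous (av δ f) :=
  continuous_iff_continuousAt.2 fun x => (hasDerivAt_av hf x).continuousAt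

lemma av_close {δ : ℝ} (hδ : 0 < δ) {f : ℝ → ℝ} (hf : Continuous f) {x c B : ℝ}
    (h : ∀ t ∈ Icc (x - δ) (x + δ), |f t - c| ≤ B) : |av δ f x - c| ≤ B := by
  have h1 : av δ f x - c = (2 * δ)⁻¹ * ∫ t in (x - δ)..(x + δ), (f t - c) := by
    rw [intervalIntegral.integral_sub (hf.intervalIntegrable _ _)
      (continuous_const.intervalIntegrable _ _), intervalIntegral.integral_const, av, smul_eq_mul]
    field_simp
    ring
  rw [h1, abs_mul, abs_of_pos (by positivity)]
  have h2 : |∫ t in (x - δ)..(x + δ), (f t - c)| ≤ B * |x + δ - (x - δ)| := by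
    refine intervalIntegral.norm_integral_le_of_norm_le_const (E := ℝ) (f := fun t => f t - c)
      (C := B) fun t ht => ?_
    rw [uIoc_of_le (by linarith)] at ht
    exact h t ⟨ht.1.le, ht.2⟩
  have h3 : |x + δ - (x - δ)| = 2 * δ := by
    rw [show x + δ - (x - δ) = 2 * δ by ring, abs_of_pos (by positivity)]
  rw [h3] at h2
  calc (2 * δ)⁻¹ * |∫ t in (x - δ)..(x + δ), (f t - c)| ≤ (2 * δ)⁻¹ * (B * (2 * δ)) :=
        mul_le_mul_of_nonneg_left h2 (by positivity)
    _ = B := by field_simp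

lemma av_per {δ : ℝ} {f : ℝ → ℝ} (hper : ∀ x, f (x + 2 * Real.pi) = f x) (x : ℝ) :
    av δ f (x + 2 * Real.pi) = av δ f x := by
  rw [av, av]
  congr 1
  have h1 := intervalIntegral.integral_comp_add_right (a := x - δ) (b := x + δ) f (2 * Real.pi)
  simp only [hper] at h1
  rw [h1]
  congr 1 <;> ring

lemma dv_per {δ : ℝ} {f : ℝ → ℝ} (hper : ∀ x, f (x + 2 * Real.pi) = f x) (x : ℝ) :
    dv δ f (x + 2 * Real.pi) = dv δ f x := by
  rw [dv, dv, show x + 2 * Real.pi + δ = x + δ + 2 * Real.pi by ring,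
    show x + 2 * Real.pi - δ = x - δ + 2 * Real.pi by ring, hper, hper]

/-- support function -/
noncomputable def supp (K : Set ℂ) (φ : ℝ) : ℝ :=
  sSup ((fun w : ℂ => (exp (-(φ * I)) * w).re) '' K)

section supp

variable {K : Set ℂ} (hK : IsCompact K) (hne : K.Nonempty)

lemma cont_re (φ : ℝ) : Continuous fun w : ℂ => (exp (-(φ * I)) * w).re :=
  Complex.continuous_re.comp (continuous_const.mul continuous_id)

include hK in
lemma le_supp (φ : ℝ) {w : ℂ} (hw : w ∈ K) : (exp (-(φ * I)) * w).re ≤ supp K φ :=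
  le_csSup (hK.image (cont_re φ)).bddAbove (mem_image_of_mem _ hw)

include hK hne in
lemma supp_attained (φ : ℝ) : ∃ w ∈ K, (exp (-(φ * I)) * w).re = supp K φ := by
  have := (hK.image (cont_re φ)).sSup_mem (hne.image _)
  obtain ⟨w, hw, h⟩ := this
  exact ⟨w, hw, h⟩

include hK hne in
lemma supp_lip {R : ℝ} (hR : ∀ w ∈ K, ‖w‖ ≤ R) (φ ψ : ℝ) : supp K φ - supp K ψ ≤ R * |φ - ψ| := by
  obtain ⟨w, hw, h⟩ := supp_attained hK hne φ
  have h1 := le_supp hK ψ hw
  have h2 : (exp (-(φ * I)) * w).re - (exp (-(ψ * I)) * w).re ≤ R * |φ - ψ| := by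
    have e1 : (exp (-(φ * I)) * w).re - (exp (-(ψ * I)) * w).re =
        ((exp (-(φ * I)) - exp (-(ψ * I))) * w).re := by rw [sub_mul, Complex.sub_re]
    rw [e1]
    refine (Complex.re_le_norm _).trans ?_
    rw [norm_mul, mul_comm]
    have e2 : ‖exp (-(φ * I)) - exp (-(ψ * I))‖ ≤ |φ - ψ| := by
      have e3 : exp (-(φ * I)) - exp (-(ψ * I)) =
          exp (-(ψ * I)) * (exp (I * ((ψ - φ : ℝ) : ℂ)) - 1) := by
        rw [mul_sub, ← Complex.exp_add, mul_one]
        congr 2
        push_cast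
        ring
      rw [e3, norm_mul, exp_neg_norm, one_mul]
      refine (Real.norm_exp_I_mul_ofReal_sub_one_le).trans ?_
      rw [Real.norm_eq_abs, abs_sub_comm]
    exact mul_le_mul (hR w hw) e2 (norm_nonneg _) ((norm_nonneg _).trans (hR w hw))
  linarith

include hK hne in
lemma supp_lip_abs {R : ℝ} (hR : ∀ w ∈ K, ‖w‖ ≤ R) (φ ψ : ℝ) :
    |supp K φ - supp K ψ| ≤ R * |φ - ψ| := by
  rw [abs_sub_le_iff]
  exact ⟨supp_lip hK hne hR φ ψ, by rw [abs_sub_comm]; exact supp_lip hK hne hR ψ φ⟩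

include hK hne in
lemma supp_continuous : Continuous (supp K) := by
  obtain ⟨R, hR⟩ := hK.isBounded.exists_norm_le
  have hR0 : 0 ≤ R := (norm_nonneg _).trans (hR _ hne.some_mem)
  refine LipschitzWith.continuous (K := ⟨R, hR0⟩) (LipschitzWith.of_dist_le_mul fun x y => ?_)
  rw [Real.dist_eq, Real.dist_eq]
  exact supp_lip_abs hK hne hR x y

lemma supp_per (φ : ℝ) : supp K (φ + 2 * Real.pi) = supp K φ := by
  rw [supp, supp, SF.exp_neg_per]

include hK hne in
lemma supp_cos (φ t : ℝ) : 2 * Real.cos t * supp K φ ≤ supp K (φ + t) + supp K (φ - t) := by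
  obtain ⟨w, hw, h⟩ := supp_attained hK hne φ
  have h1 := le_supp hK (φ + t) hw
  have h2 := le_supp hK (φ - t) hw
  have h3 : (exp (-(((φ + t : ℝ) : ℂ) * I)) * w).re + (exp (-(((φ - t : ℝ) : ℂ) * I)) * w).re =
      2 * Real.cos t * (exp (-(φ * I)) * w).re := by
    rw [← Complex.add_re, ← Complex.re_ofReal_mul]
    congr 1
    push_cast
    rw [Complex.cos, add_mul, sub_mul, neg_add, neg_sub, Complex.exp_add]
    rw [show (t : ℂ) * I - φ * I = -(φ * I) + t * I by ring, Complex.exp_add]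
    rw [show -(t : ℂ) * I = -(t * I) by ring]
    ring
  rw [← h]
  linarith

end supp

/-- the approximating curve -/
theorem exists_curve {K : Set ℂ} (hK : IsCompact K) (h0 : (0 : ℂ) ∈ K) {r : ℝ} (hr : 0 < r) :
    ∃ C : SF, (∃ ε : ℝ, 0 < ε ∧ Outer C K ε) ∧ ∀ φ, C.H φ ≤ supp K φ + r := by
  have hne : K.Nonempty := ⟨0, h0⟩
  obtain ⟨R0, hR0⟩ := hK.isBounded.exists_norm_le
  set R : ℝ := R0 + 1 with hRdef
  have hR : ∀ w ∈ K, ‖w‖ ≤ R := fun w hw => (hR0 w hw).trans (by linarith)
  have hRpos : 0 < R := by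
    have := (norm_nonneg _).trans (hR0 0 h0)
    linarith
  set δ : ℝ := r / (5 * R) with hδ
  have hδ0 : 0 < δ := by positivity
  have hRδ : 5 * (R * δ) = r := by rw [hδ]; field_simp
  set h : ℝ → ℝ := supp K with hh
  have hhc : Continuous h := supp_continuous hK hne
  have hhn : ∀ x, 0 ≤ h x := fun x => by simpa using le_supp hK x h0
  have hlip := supp_lip_abs hK hne hR
  set h1 : ℝ → ℝ := av δ h with hh1
  have h1c : Continuous h1 := av_continuous hhc
  set h2 : ℝ → ℝ := av δ h1 with hh2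
  have h1close : ∀ x, |h1 x - h x| ≤ R * δ := fun x => by
    refine av_close hδ0 hhc fun t ht => (hlip t x).trans ?_
    refine mul_le_mul_of_nonneg_left ?_ hRpos.le
    rw [abs_le]; constructor <;> linarith [ht.1, ht.2]
  have h2close : ∀ x, |h2 x - h x| ≤ 2 * (R * δ) := fun x => by
    refine av_close hδ0 h1c fun t ht => ?_
    have e1 := h1close t
    have e2 := hlip t x
    have e3 : R * |t - x| ≤ R * δ := by
      refine mul_le_mul_of_nonneg_left ?_ hRpos.le
      rw [abs_le]; constructor <;> linarith [ht.1, ht.2]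
    have e4 := abs_sub_le (h1 t) (h t) (h x)
    linarith
  have hper : ∀ x, h (x + 2 * Real.pi) = h x := supp_per
  have hper1 : ∀ x, h1 (x + 2 * Real.pi) = h1 x := av_per hper
  have hper2 : ∀ x, h2 (x + 2 * Real.pi) = h2 x := av_per hper1
  have hdd : ∀ x, -h x ≤ dv δ (dv δ h) x := by
    intro x
    have e1 := supp_cos hK hne x (2 * δ)
    have e2 : dv δ (dv δ h) x = (2 * δ)⁻¹ ^ 2 * (h (x + 2 * δ) + h (x - 2 * δ) - 2 * h x) := by
      simp only [dv]
      rw [show x + δ + δ = x + 2 * δ by ring, show x - δ - δ = x - 2 * δ by ring,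
        show x + δ - δ = x by ring, show x - δ + δ = x by ring]
      ring
    have e3 : 1 - (2 * δ) ^ 2 / 2 ≤ Real.cos (2 * δ) := Real.one_sub_sq_div_two_le_cos
    have e4 : -((2 * δ) ^ 2 * h x) ≤ h (x + 2 * δ) + h (x - 2 * δ) - 2 * h x := by
      have := mul_le_mul_of_nonneg_right e3 (hhn x)
      nlinarith
    rw [e2]
    calc -h x = (2 * δ)⁻¹ ^ 2 * (-((2 * δ) ^ 2 * h x)) := by field_simp
      _ ≤ _ := mul_le_mul_of_nonneg_left e4 (by positivity)
  refine ⟨{ H := fun x => h2 x + 3 * (R * δ)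
            H1 := dv δ h1
            ρ := fun x => (h2 x + 3 * (R * δ)) + dv δ (dv δ h) x
            hH := fun x => (hasDerivAt_av h1c x).add_const _
            hH1 := ?_
            hρc := ?_
            hρ := ?_
            per := fun x => by simp only [hper2]
            per1 := fun x => dv_per hper1 x
            pos := ?_ }, ⟨R * δ, by positivity, ?_⟩, ?_⟩
  · intro x
    have e1 : HasDerivAt (fun x => h1 (x + δ)) (dv δ h (x + δ)) x := by
      have := (hasDerivAt_av hhc (δ := δ) (x + δ)).comp x ((hasDerivAt_id x).add_const δ)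
      rw [mul_one] at this
      exact this
    have e2 : HasDerivAt (fun x => h1 (x - δ)) (dv δ h (x - δ)) x := by
      have := (hasDerivAt_av hhc (δ := δ) (x - δ)).comp x ((hasDerivAt_id x).sub_const δ)
      rw [mul_one] at this
      exact this
    refine ((e1.sub e2).const_mul (2 * δ)⁻¹).congr_deriv ?_
    simp only [dv]
    ring
  · have : Continuous (dv δ (dv δ h)) := by
      unfold dv
      fun_prop
    exact ((av_continuous h1c).add continuous_const).add this
  · intro x
    have e1 := abs_le.1 (h2close x)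
    have e2 := hdd x
    have : 0 < R * δ := by positivity
    show 0 < (h2 x + 3 * (R * δ)) + dv δ (dv δ h) x
    linarith [e1.1]
  · intro x
    have e1 := abs_le.1 (h2close x)
    have : 0 < R * δ := by positivity
    show 0 < h2 x + 3 * (R * δ)
    linarith [e1.1, hhn x]
  · intro x w hw
    have e1 := abs_le.1 (h2close x)
    have e2 := le_supp hK x hw
    show (exp (-(x * I)) * w).re + R * δ ≤ h2 x + 3 * (R * δ)
    linarith [e1.1]
  · intro x
    have e1 := abs_le.1 (h2close x)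
    show h2 x + 3 * (R * δ) ≤ supp K x + r
    linarith [e1.2]

/-- points satisfying the support inequalities are close to `K` -/
theorem near_of_support {K : Set ℂ} (hK : IsCompact K) (hne : K.Nonempty) (hconv : Convex ℝ K)
    {r : ℝ} (hr : 0 ≤ r) {z : ℂ} (hz : ∀ φ : ℝ, (exp (-(φ * I)) * z).re ≤ supp K φ + r) :
    ∃ w ∈ K, dist z w ≤ r := by
  obtain ⟨w, hw, hmin⟩ := exists_norm_eq_iInf_of_complete_convex hne hK.isComplete hconv z
  rw [norm_eq_iInf_iff_real_inner_le_zero hconv hw] at hmin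
  refine ⟨w, hw, ?_⟩
  rcases eq_or_ne (z - w) 0 with h5 | h5
  · rw [dist_eq_norm, h5, norm_zero]; exact hr
  set φ : ℝ := (z - w).arg with hφ
  have h1 : (‖z - w‖ : ℂ) * exp (φ * I) = z - w := Complex.norm_mul_exp_arg_mul_I _
  have h2 : exp (-(φ * I)) * (z - w) = ‖z - w‖ := by
    rw [← h1]
    have := SF.exp_conj φ
    simp only [norm_mul, Complex.norm_real, norm_norm, Complex.norm_exp_ofReal_mul_I, mul_one]
    linear_combination (‖z - w‖ : ℂ) * this
  have h3 : supp K φ ≤ (exp (-(φ * I)) * w).re := by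
    obtain ⟨v, hv, hv'⟩ := supp_attained hK hne φ
    rw [← hv']
    have h4 := hmin v hv
    have h6 : 0 < ‖z - w‖ := norm_pos_iff.2 h5
    have h7 : ((starRingEnd ℂ) (z - w) * (v - w)).re ≤ 0 := by
      have h8 := h4
      rw [Complex.inner, mul_comm] at h8
      exact h8
    have h9 : conj (z - w) = (‖z - w‖ : ℂ) * exp (-(φ * I)) := by
      conv_lhs => rw [← h1]
      rw [map_mul, Complex.conj_ofReal, ← Complex.exp_conj]
      congr 2
      simp
    rw [h9, mul_assoc, Complex.re_ofReal_mul] at h7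
    have h10 : (exp (-(φ * I)) * (v - w)).re ≤ 0 := by
      by_contra hcon
      push Not at hcon
      nlinarith [mul_pos h6 hcon]
    rw [mul_sub, Complex.sub_re] at h10
    linarith
  have h4 := hz φ
  have h5 : (exp (-(φ * I)) * z).re = (exp (-(φ * I)) * w).re + ‖z - w‖ := by
    have h6 := congrArg Complex.re h2
    rw [mul_sub, Complex.sub_re, Complex.ofReal_re] at h6
    linarith
  rw [dist_eq_norm]
  linarith

end Pool.Agent.K1H30.QN
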