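import Mathlib

set_option autoImplicit false

/-!
# Operators whose scaled `q`-numerical range is in the right half plane

`QA q κ B`: for all `x` the real part of `⟪x, B x⟫_ℂ` is nonnegative and
`κ² (‖B x‖² ‖x‖² - |⟪x, B x⟫_ℂ|²) ≤ q² (Re ⟪x, B x⟫_ℂ)²`.
This is the condition `Re ⟪y, B x⟫_ℂ ≥ 0` for all unit vectors with `⟪y, x⟫_ℂ = q`, if `κ² = 1 - q²`, and
it is invariant under inversion.
-/

namespace Pool.Agent.K1H30.QN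

open scoped InnerProductSpace

open Complex ComplexConjugate

variable {E : Type*} [NormedAddCommGroup E] [InnerProductSpace ℂ E]


/-- the `q`-accretive operators -/
def QA (q κ : ℝ) (B : E →L[ℂ] E) : Prop :=
  ∀ x : E, 0 ≤ (⟪x, B x⟫_ℂ).re ∧
    κ ^ 2 * (‖B x‖ ^ 2 * ‖x‖ ^ 2 - ‖⟪x, B x⟫_ℂ‖ ^ 2) ≤ q ^ 2 * (⟪x, B x⟫_ℂ).re ^ 2

/-- the dimension is at least two -/
def Dim2 (E : Type*) [NormedAddCommGroup E] [InnerProductSpace ℂ E] : Prop :=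
  ∀ x : E, ∃ u : E, ‖u‖ = 1 ∧ ⟪x, u⟫_ℂ = 0

/-- component orthogonal to a unit vector -/
lemma norm_sub_sq {x w : E} (hx : ‖x‖ = 1) : ‖w - ⟪x, w⟫_ℂ • x‖ ^ 2 = ‖w‖ ^ 2 - ‖⟪x, w⟫_ℂ‖ ^ 2 := by
  have h1 : ⟪x, w - ⟪x, w⟫_ℂ • x⟫_ℂ = 0 := by
    rw [inner_sub_right, inner_smul_right, inner_self_eq_norm_sq_to_K, hx]
    simp
  have h2 : w = (w - ⟪x, w⟫_ℂ • x) + ⟪x, w⟫_ℂ • x := by abel
  have h1' : ⟪w - ⟪x, w⟫_ℂ • x, x⟫_ℂ = 0 := inner_eq_zero_symm.1 h1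
  have h3 : ⟪w - ⟪x, w⟫_ℂ • x, ⟪x, w⟫_ℂ • x⟫_ℂ = 0 := by
    rw [inner_smul_right, h1']
    simp
  have h4 := norm_add_sq_eq_norm_sq_add_norm_sq_of_inner_eq_zero
    (w - ⟪x, w⟫_ℂ • x) (⟪x, w⟫_ℂ • x) h3
  rw [← h2] at h4
  have h5 : ‖⟪x, w⟫_ℂ • x‖ = ‖⟪x, w⟫_ℂ‖ := by rw [norm_smul, hx, mul_one]
  rw [h5] at h4
  nlinarith [h4]

lemma qa_of_unit {q κ : ℝ} {B : E →L[ℂ] E}
    (h : ∀ x : E, ‖x‖ = 1 → 0 ≤ (⟪x, B x⟫_ℂ).re ∧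
      κ ^ 2 * (‖B x‖ ^ 2 - ‖⟪x, B x⟫_ℂ‖ ^ 2) ≤ q ^ 2 * (⟪x, B x⟫_ℂ).re ^ 2) : QA q κ B := by
  intro x
  rcases eq_or_ne x 0 with rfl | hx
  · simp
  have hr : 0 < ‖x‖ := norm_pos_iff.2 hx
  set r : ℝ := ‖x‖ with hrdef
  set e : E := ((r⁻¹ : ℝ) : ℂ) • x with he
  have he1 : ‖e‖ = 1 := by
    rw [he, norm_smul, Complex.norm_real, Real.norm_of_nonneg (inv_nonneg.2 hr.le), ← hrdef]
    field_simp
  have hx' : x = (r : ℂ) • e := by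
    rw [he, smul_smul, ← Complex.ofReal_mul, mul_inv_cancel₀ hr.ne']
    simp
  obtain ⟨h1, h2⟩ := h e he1
  have h3 : ⟪x, B x⟫_ℂ = ((r ^ 2 : ℝ) : ℂ) * ⟪e, B e⟫_ℂ := by
    rw [hx', map_smul, inner_smul_left, inner_smul_right]
    simp
    ring
  have h4 : ‖B x‖ = r * ‖B e‖ := by
    rw [hx', map_smul, norm_smul, Complex.norm_real, Real.norm_of_nonneg hr.le]
  have h5 : (⟪x, B x⟫_ℂ).re = r ^ 2 * (⟪e, B e⟫_ℂ).re := by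
    rw [h3, Complex.re_ofReal_mul]
  have h6 : ‖⟪x, B x⟫_ℂ‖ = r ^ 2 * ‖⟪e, B e⟫_ℂ‖ := by
    rw [h3, norm_mul, Complex.norm_real, Real.norm_of_nonneg (by positivity)]
  rw [h5, h6, h4]
  refine ⟨by positivity, ?_⟩
  have h7 : 0 ≤ r ^ 4 := by positivity
  nlinarith [mul_le_mul_of_nonneg_left h2 h7]

/-- from pairs of unit vectors to `QA` -/
lemma qa_of_pairs (hE : Dim2 E) {q κ : ℝ} (hq : 0 < q) (hκ : 0 ≤ κ) (hqκ : q ^ 2 + κ ^ 2 = 1)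
    {B : E →L[ℂ] E}
    (h : ∀ x y : E, ‖x‖ = 1 → ‖y‖ = 1 → ⟪y, x⟫_ℂ = (q : ℂ) → 0 ≤ (⟪y, B x⟫_ℂ).re) : QA q κ B := by
  apply qa_of_unit
  intro x hx
  set c := ⟪x, B x⟫_ℂ with hc
  set w := B x - c • x with hw
  have hw2 : ‖w‖ ^ 2 = ‖B x‖ ^ 2 - ‖c‖ ^ 2 := by rw [hw, hc]; exact norm_sub_sq hx
  have hxw : ⟪x, w⟫_ℂ = 0 := by
    rw [hw, inner_sub_right, inner_smul_right, inner_self_eq_norm_sq_to_K, hx, ← hc]
    simp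
  have hBx : B x = c • x + w := by rw [hw]; abel
  -- the test vector
  have test : ∀ u : E, ‖u‖ = 1 → ⟪x, u⟫_ℂ = 0 → 0 ≤ q * c.re + κ * (⟪u, w⟫_ℂ).re := by
    intro u hu hxu
    have hux : ⟪u, x⟫_ℂ = 0 := by rw [← inner_conj_symm, hxu]; simp
    have h1 : ‖(q : ℂ) • x + (κ : ℂ) • u‖ = 1 := by
      have h0 : ⟪(q : ℂ) • x, (κ : ℂ) • u⟫_ℂ = 0 := by
        rw [inner_smul_left, inner_smul_right, hxu]; simp
      have h2 := norm_add_sq_eq_norm_sq_add_norm_sq_of_inner_eq_zero _ _ h0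
      rw [norm_smul, norm_smul, hx, hu, Complex.norm_real, Complex.norm_real,
        Real.norm_of_nonneg hq.le, Real.norm_of_nonneg hκ] at h2
      have h3 : ‖(q : ℂ) • x + (κ : ℂ) • u‖ ^ 2 = 1 := by nlinarith
      exact (pow_left_inj₀ (norm_nonneg _) zero_le_one two_ne_zero).1 (by rw [h3]; norm_num)
    have h2 : ⟪(q : ℂ) • x + (κ : ℂ) • u, x⟫_ℂ = (q : ℂ) := by
      rw [inner_add_left, inner_smul_left, inner_smul_left, hux, inner_self_eq_norm_sq_to_K, hx]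
      simp
    have h3 := h x _ hx h1 h2
    have h4 : ⟪(q : ℂ) • x + (κ : ℂ) • u, B x⟫_ℂ = (q : ℂ) * c + (κ : ℂ) * ⟪u, w⟫_ℂ := by
      rw [inner_add_left, inner_smul_left, inner_smul_left, ← hc]
      congr 1
      · simp
      · rw [hBx, inner_add_right, inner_smul_right, hux]
        simp
    rw [h4] at h3
    simpa using h3
  rcases eq_or_ne w 0 with h0 | h0
  · obtain ⟨u, hu, hxu⟩ := hE x
    have h1 := test u hu hxu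
    rw [h0] at h1 hw2
    simp at h1
    refine ⟨by
      by_contra hcon
      push Not at hcon
      nlinarith [mul_neg_of_pos_of_neg hq hcon], ?_⟩
    have h2 : ‖B x‖ ^ 2 - ‖c‖ ^ 2 = 0 := by rw [← hw2]; simp
    rw [h2, mul_zero]
    positivity
  · have hw0 : 0 < ‖w‖ := norm_pos_iff.2 h0
    have h1 := test (-(((‖w‖⁻¹ : ℝ) : ℂ) • w)) (by
      rw [norm_neg, norm_smul, Complex.norm_real, Real.norm_of_nonneg (inv_nonneg.2 hw0.le)]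
      field_simp) (by rw [inner_neg_right, inner_smul_right, hxw]; simp)
    have h2 : ⟪-(((‖w‖⁻¹ : ℝ) : ℂ) • w), w⟫_ℂ = -(‖w‖ : ℂ) := by
      rw [inner_neg_left, inner_smul_left, inner_self_eq_norm_sq_to_K]
      simp only [Complex.conj_ofReal]
      push_cast
      have : (‖w‖ : ℂ) ≠ 0 := by exact_mod_cast hw0.ne'
      field_simp
      rfl
    rw [h2] at h1
    simp at h1
    have h3 : κ * ‖w‖ ≤ q * c.re := by linarith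
    have h4 : 0 ≤ c.re := by
      by_contra hcon
      push Not at hcon
      nlinarith [mul_neg_of_pos_of_neg hq hcon, mul_nonneg hκ hw0.le]
    refine ⟨h4, ?_⟩
    rw [← hw2]
    have h5 : 0 ≤ κ * ‖w‖ := by positivity
    calc κ ^ 2 * ‖w‖ ^ 2 = (κ * ‖w‖) ^ 2 := by ring
      _ ≤ (q * c.re) ^ 2 := pow_le_pow_left₀ h5 h3 2
      _ = q ^ 2 * c.re ^ 2 := by ring

/-- invariance under inversion -/
lemma qa_inv {q κ : ℝ} {B D : E →L[ℂ] E} (hB : QA q κ B) (hBD : ∀ x, B (D x) = x) : QA q κ D := by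
  intro x
  obtain ⟨h1, h2⟩ := hB (D x)
  have h3 : ⟪D x, B (D x)⟫_ℂ = conj ⟪x, D x⟫_ℂ := by rw [hBD, inner_conj_symm]
  rw [h3] at h1 h2
  rw [hBD] at h2
  simp only [Complex.conj_re, Complex.norm_conj] at h1 h2
  refine ⟨h1, ?_⟩
  linarith [h2, mul_comm (‖x‖ ^ 2) (‖D x‖ ^ 2)]

/-- main consequence for a unit vector -/
lemma qa_unit {q κ : ℝ} (hq : 0 < q) {D : E →L[ℂ] E} (hD : QA q κ D) {x : E}
    (hx : ‖x‖ = 1) : κ * ‖D x - ⟪x, D x⟫_ℂ • x‖ ≤ q * (⟪x, D x⟫_ℂ).re := by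
  obtain ⟨h1, h2⟩ := hD x
  rw [hx, one_pow, mul_one, ← norm_sub_sq hx] at h2
  refine abs_le_of_sq_le_sq' ?_ (by positivity) |>.2
  nlinarith [h2]

lemma qa_off {q κ : ℝ} (hq : 0 < q) (hκ : 0 ≤ κ) {D : E →L[ℂ] E} (hD : QA q κ D) {x y : E}
    (hx : ‖x‖ = 1) (hy : ‖y‖ = 1) (hxy : ⟪y, x⟫_ℂ = 0) :
    κ * ‖⟪y, D x⟫_ℂ‖ ≤ q * (⟪x, D x⟫_ℂ).re := by
  refine le_trans ?_ (qa_unit hq hD hx)
  refine mul_le_mul_of_nonneg_left ?_ hκ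
  have h1 : ⟪y, D x⟫_ℂ = ⟪y, D x - ⟪x, D x⟫_ℂ • x⟫_ℂ := by
    rw [inner_sub_right, inner_smul_right, hxy]; simp
  rw [h1]
  refine (norm_inner_le_norm _ _).trans ?_
  rw [hy, one_mul]

lemma qa_pair {q κ : ℝ} (hq : 0 < q) (hκ : 0 ≤ κ) (hqκ : q ^ 2 + κ ^ 2 = 1)
    {D : E →L[ℂ] E} (hD : QA q κ D) {x y : E}
    (hx : ‖x‖ = 1) (hy : ‖y‖ = 1) (hxy : ⟪y, x⟫_ℂ = (q : ℂ)) : 0 ≤ (⟪y, D x⟫_ℂ).re := by
  set c := ⟪x, D x⟫_ℂ with hc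
  have hyx : ⟪x, y⟫_ℂ = (q : ℂ) := by rw [← inner_conj_symm, hxy]; simp
  set v := y - (q : ℂ) • x with hv
  have hv2 : ‖v‖ ^ 2 = κ ^ 2 := by
    have h := norm_sub_sq (w := y) hx
    rw [hyx, ← hv, hy, Complex.norm_real, Real.norm_of_nonneg hq.le] at h
    rw [h]
    linarith
  have hvn : ‖v‖ = κ :=
    (pow_left_inj₀ (norm_nonneg v) hκ two_ne_zero).1 hv2
  have hvx : ⟪v, x⟫_ℂ = 0 := by
    rw [hv, inner_sub_left, inner_smul_left, inner_self_eq_norm_sq_to_K, hx, hxy]; simp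
  have h1 : ⟪y, D x⟫_ℂ = (q : ℂ) * c + ⟪v, D x - c • x⟫_ℂ := by
    rw [inner_sub_right, inner_smul_right, hvx, hv, inner_sub_left, inner_smul_left, ← hc]
    simp
  have h2 := qa_unit hq hD hx
  have h3 : ‖⟪v, D x - c • x⟫_ℂ‖ ≤ κ * ‖D x - c • x‖ := by
    refine (norm_inner_le_norm _ _).trans ?_
    rw [hvn]
  have h4 : -(κ * ‖D x - c • x‖) ≤ (⟪v, D x - c • x⟫_ℂ).re := by
    have := Complex.abs_re_le_norm ⟪v, D x - c • x⟫_ℂ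
    have h5 := neg_abs_le (⟪v, D x - c • x⟫_ℂ).re
    linarith
  rw [h1]
  simp only [Complex.add_re, Complex.re_ofReal_mul]
  linarith

/-- the key inequality -/
lemma qa_star {q κ : ℝ} (hq : 0 < q) (hκ : 0 ≤ κ) (hqκ : q ^ 2 + κ ^ 2 = 1)
    {D : E →L[ℂ] E} (hD : QA q κ D) {x y : E}
    (hx : ‖x‖ = 1) (hy : ‖y‖ = 1) (hxy : ⟪y, x⟫_ℂ = 0) :
    ‖(1 + κ : ℂ) * ⟪y, D x⟫_ℂ + (1 - κ : ℂ) * conj ⟪x, D y⟫_ℂ‖ ≤
      q * ((⟪x, D x⟫_ℂ).re + (⟪y, D y⟫_ℂ).re) := by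
  have hκ1 : κ ≤ 1 := by nlinarith
  have hyx : ⟪x, y⟫_ℂ = 0 := by rw [← inner_conj_symm, hxy]; simp
  set z := (1 + κ : ℂ) * ⟪y, D x⟫_ℂ + (1 - κ : ℂ) * conj ⟪x, D y⟫_ℂ with hz
  -- a unimodular number
  obtain ⟨u, hu, huz⟩ : ∃ u : ℂ, ‖u‖ = 1 ∧ conj u * z = (‖z‖ : ℂ) := by
    rcases eq_or_ne z 0 with h0 | h0
    · exact ⟨1, by simp, by simp [h0]⟩
    · have hz0 : (‖z‖ : ℂ) ≠ 0 := by simpa using h0
      refine ⟨z / ‖z‖, by simp [h0], ?_⟩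
      rw [map_div₀, Complex.conj_ofReal, div_mul_eq_mul_div, mul_comm, Complex.mul_conj,
        Complex.normSq_eq_norm_sq]
      push_cast
      field_simp
  set c1 : ℝ := Real.sqrt ((1 + κ) / 2) with hc1
  set c2 : ℝ := Real.sqrt ((1 - κ) / 2) with hc2
  have h1 : c1 ^ 2 = (1 + κ) / 2 := Real.sq_sqrt (by linarith)
  have h2 : c2 ^ 2 = (1 - κ) / 2 := Real.sq_sqrt (by linarith)
  have h10 : 0 ≤ c1 := Real.sqrt_nonneg _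
  have h20 : 0 ≤ c2 := Real.sqrt_nonneg _
  have h12 : c1 * c2 = q / 2 := by
    refine (pow_left_inj₀ (by positivity) (by positivity) two_ne_zero).1 ?_
    rw [mul_pow, h1, h2]
    nlinarith
  have hcu : conj u * u = 1 := by
    rw [mul_comm, Complex.mul_conj, Complex.normSq_eq_norm_sq, hu]; simp
  set X : E := (c1 : ℂ) • x - (u * c2 : ℂ) • y with hX
  set Y : E := (c2 : ℂ) • x - (u * c1 : ℂ) • y with hY
  have inn : ∀ a b a' b' : ℝ, ⟪(a : ℂ) • x - (u * b : ℂ) • y, (a' : ℂ) • x - (u * b' : ℂ) • y⟫_ℂ =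
      ((a * a' + b * b' : ℝ) : ℂ) := by
    intro a b a' b'
    simp only [inner_sub_left, inner_sub_right, inner_smul_left, inner_smul_right, hxy, hyx,
      inner_self_eq_norm_sq_to_K, hx, hy, map_mul, Complex.conj_ofReal]
    push_cast
    linear_combination (b * b' : ℂ) * hcu
  have nrm : ∀ a b : ℝ, a ^ 2 + b ^ 2 = 1 → ‖(a : ℂ) • x - (u * b : ℂ) • y‖ = 1 := by
    intro a b hab
    have h3 := inn a b a b
    rw [inner_self_eq_norm_sq_to_K] at h3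
    have h4 : ‖(a : ℂ) • x - (u * b : ℂ) • y‖ ^ 2 = 1 := by
      have : (((‖(a : ℂ) • x - (u * b : ℂ) • y‖ ^ 2 : ℝ)) : ℂ) = ((a * a + b * b : ℝ) : ℂ) := by
        rw [← h3]; push_cast; rfl
      have h5 := Complex.ofReal_injective this
      rw [h5]; nlinarith
    exact (pow_left_inj₀ (norm_nonneg _) zero_le_one two_ne_zero).1 (by rw [h4]; norm_num)
  have hXY : ⟪Y, X⟫_ℂ = (q : ℂ) := by
    rw [hX, hY, inn c2 c1 c1 c2]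
    congr 1
    nlinarith [h12]
  have key := qa_pair hq hκ hqκ hD (nrm c1 c2 (by rw [h1, h2]; ring)) (nrm c2 c1 (by rw [h1, h2]; ring))
    hXY
  have e1 : ⟪Y, D X⟫_ℂ = (c1 * c2 : ℂ) * ⟪x, D x⟫_ℂ + (c1 * c2 : ℂ) * ⟪y, D y⟫_ℂ -
      (c1 ^ 2 : ℂ) * (conj u * ⟪y, D x⟫_ℂ) - (c2 ^ 2 : ℂ) * (u * ⟪x, D y⟫_ℂ) := by
    rw [hX, hY]
    simp only [map_sub, map_smul, inner_sub_left, inner_sub_right, inner_smul_left,
      inner_smul_right, map_mul, Complex.conj_ofReal]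
    linear_combination (c1 * c2 : ℂ) * ⟪y, D y⟫_ℂ * hcu
  have c1' : ((c1 : ℂ)) ^ 2 = ((1 + κ) / 2 : ℂ) := by
    rw [← Complex.ofReal_pow, h1]; push_cast; ring
  have c2' : ((c2 : ℂ)) ^ 2 = ((1 - κ) / 2 : ℂ) := by
    rw [← Complex.ofReal_pow, h2]; push_cast; ring
  have c12' : ((c1 : ℂ) * (c2 : ℂ)) = (q / 2 : ℂ) := by
    rw [← Complex.ofReal_mul, h12]; push_cast; ring
  rw [e1, c1', c2', c12'] at key
  -- real parts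
  have e2 : (‖z‖ : ℝ) = (1 + κ) * (conj u * ⟪y, D x⟫_ℂ).re + (1 - κ) * (u * ⟪x, D y⟫_ℂ).re := by
    have h3 : ((‖z‖ : ℝ) : ℂ) = ((1 + κ : ℝ) : ℂ) * (conj u * ⟪y, D x⟫_ℂ) +
        ((1 - κ : ℝ) : ℂ) * conj (u * ⟪x, D y⟫_ℂ) := by
      rw [← huz, hz, map_mul]; push_cast; ring
    have h4 := congrArg Complex.re h3
    rw [Complex.ofReal_re, Complex.add_re, Complex.re_ofReal_mul, Complex.re_ofReal_mul,
      Complex.conj_re] at h4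
    exact h4
  have e3 : ((q / 2 : ℂ) * ⟪x, D x⟫_ℂ + (q / 2 : ℂ) * ⟪y, D y⟫_ℂ -
      ((1 + κ) / 2 : ℂ) * (conj u * ⟪y, D x⟫_ℂ) - ((1 - κ) / 2 : ℂ) * (u * ⟪x, D y⟫_ℂ)).re =
      q / 2 * (⟪x, D x⟫_ℂ).re + q / 2 * (⟪y, D y⟫_ℂ).re - (1 + κ) / 2 * (conj u * ⟪y, D x⟫_ℂ).re -
        (1 - κ) / 2 * (u * ⟪x, D y⟫_ℂ).re := by
    have a1 : (q / 2 : ℂ) = ((q / 2 : ℝ) : ℂ) := by push_cast; rfl
    have a2 : ((1 + κ) / 2 : ℂ) = (((1 + κ) / 2 : ℝ) : ℂ) := by push_cast; rfl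
    have a3 : ((1 - κ) / 2 : ℂ) = (((1 - κ) / 2 : ℝ) : ℂ) := by push_cast; rfl
    rw [a1, a2, a3]
    simp only [Complex.add_re, Complex.sub_re, Complex.re_ofReal_mul]
  rw [e3] at key
  rw [e2]
  linarith

end Pool.Agent.K1H30.QN
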