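import Pool.Agent.K1H30.QN.Support
import Pool.Agent.K1H30.QN.Pos

set_option autoImplicit false

/-!
# The lemma of Crouzeix and Palencia for smooth convex domains
-/

namespace Pool.Agent.K1H30.QN

open Complex ComplexConjugate Set MeasureTheory Polynomial

/-- `z` is inside with gap `ε` -/
def Gap (C : SF) (z : ℂ) (ε : ℝ) : Prop := ∀ φ : ℝ, (exp (-(φ * I)) * z).re + ε ≤ C.H φ

/-- the kernel -/
noncomputable def dd (C : SF) (z : ℂ) (φ : ℝ) : ℂ := (C.m φ - exp (-(φ * I)) * z)⁻¹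

variable {C : SF} {z : ℂ} {ε : ℝ}

lemma H_bounds (C : SF) : ∃ a b : ℝ, 0 < a ∧ ∀ φ, a ≤ C.H φ ∧ C.H φ ≤ b := by
  have hc : Continuous C.H := continuous_iff_continuousAt.2 fun φ => (C.hH φ).continuousAt
  have hne : (Icc (0 : ℝ) (2 * Real.pi)).Nonempty := nonempty_Icc.2 (by positivity)
  obtain ⟨x, hx, hmin⟩ := isCompact_Icc.exists_isMinOn hne hc.continuousOn
  obtain ⟨y, hy, hmax⟩ := isCompact_Icc.exists_isMaxOn hne hc.continuousOn
  refine ⟨C.H x, C.H y, C.pos x, fun φ => ?_⟩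
  have hper : Function.Periodic C.H (2 * Real.pi) := C.per
  obtain ⟨t, ht, hφ⟩ := hper.exists_mem_Ico₀ (by positivity) φ
  rw [hφ]
  exact ⟨hmin (Ico_subset_Icc_self ht), hmax (Ico_subset_Icc_self ht)⟩

lemma gap_re (hz : Gap C z ε) (φ : ℝ) : ε ≤ (C.m φ - exp (-(φ * I)) * z).re := by
  rw [Complex.sub_re, C.m_re]
  linarith [hz φ]

lemma gap_ne (hε : 0 < ε) (hz : Gap C z ε) (φ : ℝ) : C.m φ - exp (-(φ * I)) * z ≠ 0 := by
  intro h
  have := gap_re hz φ
  rw [h, Complex.zero_re] at this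
  linarith

lemma exp_cont : Continuous fun φ : ℝ => exp (-(φ * I)) := by fun_prop

lemma dd_cont (hε : 0 < ε) (hz : Gap C z ε) : Continuous (dd C z) :=
  (C.continuous_m.sub (exp_cont.mul continuous_const)).inv₀ (gap_ne hε hz)

lemma dd_re (hε : 0 < ε) (hz : Gap C z ε) (φ : ℝ) : 0 ≤ (dd C z φ).re := by
  rw [dd, Complex.inv_re]
  exact div_nonneg (by linarith [gap_re hz φ]) (Complex.normSq_nonneg _)

lemma dd_per (φ : ℝ) : dd C z (φ + 2 * Real.pi) = dd C z φ := by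
  rw [dd, dd, C.m_per, SF.exp_neg_per]

lemma dd_eq (φ : ℝ) : dd C z φ = exp (φ * I) * (C.σ φ - z)⁻¹ := by
  have h1 : C.m φ - exp (-(φ * I)) * z = exp (-(φ * I)) * (C.σ φ - z) := by
    rw [mul_sub, C.exp_σ]
  rw [dd, h1, mul_inv, ← Complex.exp_neg, neg_neg]

lemma gap_unit (hε : 0 < ε) (hz : Gap C z ε) :
    ∀ s ∈ Icc (0 : ℝ) 1, ∀ φ, IsUnit (C.σ φ • (1 : ℂ) - (s : ℂ) • z) := by
  intro s hs φ
  rw [isUnit_iff_ne_zero]
  intro h
  have h1 : exp (-(φ * I)) * (C.σ φ • (1 : ℂ) - (s : ℂ) • z) =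
      C.m φ - s * (exp (-(φ * I)) * z) := by
    rw [← C.exp_σ, smul_eq_mul, smul_eq_mul]; ring
  rw [h, mul_zero] at h1
  have h2 := congrArg Complex.re h1
  rw [Complex.sub_re, C.m_re, Complex.re_ofReal_mul, Complex.zero_re] at h2
  have h3 := hz φ
  have h4 := C.pos φ
  have h5 := mul_nonneg (sub_nonneg.2 hs.2) h4.le
  have h6 := mul_le_mul_of_nonneg_left h3 hs.1
  rcases hs.1.eq_or_lt with h7 | h7
  · rw [← h7] at h2; linarith
  · have h8 := mul_pos h7 hε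
    nlinarith

lemma cauchy_dd (hε : 0 < ε) (hz : Gap C z ε) (p : ℂ[X]) :
    ∫ φ in (0 : ℝ)..(2 * Real.pi), (p.eval (C.σ φ) * C.ρ φ * dd C z φ : ℂ) =
      2 * Real.pi * p.eval z := by
  have h := cauchy_poly C z (gap_unit hε hz) p
  rw [smul_eq_mul, Polynomial.coe_aeval_eq_eval] at h
  rw [← h]
  refine intervalIntegral.integral_congr fun φ _ => ?_
  simp only [dd_eq, V, smul_eq_mul, mul_one, Complex.ofReal_one, one_mul, Ring.inverse_eq_inv']
  ring

lemma ρ_contC (C : SF) : Continuous fun φ : ℝ => (C.ρ φ : ℂ) := continuous_ofReal.comp C.hρc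

/-- the real kernel -/
noncomputable def kk (C : SF) (z : ℂ) (φ : ℝ) : ℝ := C.ρ φ * (dd C z φ).re

lemma kk_cont (hε : 0 < ε) (hz : Gap C z ε) : Continuous (kk C z) :=
  C.hρc.mul (Complex.continuous_re.comp (dd_cont hε hz))

lemma kk_nonneg (hε : 0 < ε) (hz : Gap C z ε) (φ : ℝ) : 0 ≤ kk C z φ :=
  mul_nonneg (C.hρ φ).le (dd_re hε hz φ)

lemma ρ_per (C : SF) (φ : ℝ) : C.ρ (φ + 2 * Real.pi) = C.ρ φ := by
  have h1 := C.hH1 (φ + 2 * Real.pi)
  have h2 : HasDerivAt (fun x => C.H1 (x + 2 * Real.pi)) (C.ρ (φ + 2 * Real.pi) -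
      C.H (φ + 2 * Real.pi)) φ := by
    have := h1.comp φ ((hasDerivAt_id φ).add_const (2 * Real.pi))
    rw [mul_one] at this
    exact this
  have h3 : (fun x => C.H1 (x + 2 * Real.pi)) = C.H1 := funext C.per1
  rw [h3] at h2
  have h4 := h2.unique (C.hH1 φ)
  rw [C.per] at h4
  linarith

lemma kk_per (φ : ℝ) : kk C z (φ + 2 * Real.pi) = kk C z φ := by
  rw [kk, kk, ρ_per, dd_per]

lemma kk_mass (hε : 0 < ε) (hz : Gap C z ε) :
    ∫ φ in (0 : ℝ)..(2 * Real.pi), kk C z φ = 2 * Real.pi := by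
  have h := cauchy_dd hε hz (1 : ℂ[X])
  simp only [eval_one, one_mul, mul_one] at h
  have hc : Continuous fun φ : ℝ => (C.ρ φ * dd C z φ : ℂ) := (ρ_contC C).mul (dd_cont hε hz)
  have h4 := Complex.reCLM.intervalIntegral_comp_comm
    (hc.intervalIntegrable (μ := volume) 0 (2 * Real.pi))
  rw [h] at h4
  simp only [Complex.reCLM_apply, Complex.re_ofReal_mul] at h4
  have h5 : ((2 : ℂ) * Real.pi).re = 2 * Real.pi := by simp
  rw [h5] at h4
  exact h4

/-- the mass of the far arc is at most `π` -/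
lemma far_mass (hε : 0 < ε) (hz : Gap C z ε) {φ₀ s t : ℝ} (hst : s ≤ t)
    (hfar : ∀ φ ∈ Icc s t, (exp (-(φ₀ * I)) * C.σ φ).re < (exp (-(φ₀ * I)) * z).re) :
    ∫ φ in s..t, kk C z φ ≤ Real.pi := by
  set F : ℝ → ℂ := fun φ => log (exp (-(φ₀ * I)) * (z - C.σ φ)) with hF
  have hre : ∀ φ ∈ Icc s t, 0 < (exp (-(φ₀ * I)) * (z - C.σ φ)).re := by
    intro φ hφ
    rw [mul_sub, Complex.sub_re]
    linarith [hfar φ hφ]
  have hd : ∀ φ ∈ uIcc s t, HasDerivAt (fun φ => (F φ).im) (kk C z φ) φ := by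
    intro φ hφ
    rw [uIcc_of_le hst] at hφ
    have h1 : HasDerivAt (fun φ => exp (-(φ₀ * I)) * (z - C.σ φ))
        (exp (-(φ₀ * I)) * (-(I * exp (φ * I) * C.ρ φ))) φ :=
      ((C.hasDerivAt_σ φ).const_sub z).const_mul _
    have h2 := h1.clog_real (Or.inl (hre φ hφ))
    have h3 := Complex.imCLM.hasFDerivAt.comp_hasDerivAt φ h2
    refine h3.congr_deriv ?_
    rw [Complex.imCLM_apply, kk, dd_eq]
    have h4 := gap_ne hε hz φ
    have h5 : C.σ φ - z ≠ 0 := by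
      intro h
      apply h4
      have : C.m φ - exp (-(φ * I)) * z = exp (-(φ * I)) * (C.σ φ - z) := by
        rw [mul_sub, C.exp_σ]
      rw [this, h, mul_zero]
    have h6 : exp (-(φ₀ * I)) ≠ 0 := exp_ne_zero _
    have h7 : z - C.σ φ ≠ 0 := by rw [← neg_sub]; exact neg_ne_zero.2 h5
    have h8 : exp (-(φ₀ * I)) * (-(I * exp (φ * I) * C.ρ φ)) / (exp (-(φ₀ * I)) * (z - C.σ φ)) =
        I * (C.ρ φ * (exp (φ * I) * (C.σ φ - z)⁻¹)) := by
      have : z - C.σ φ = -(C.σ φ - z) := by ring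
      rw [this]
      field_simp
    rw [h8, Complex.I_mul_im, Complex.re_ofReal_mul]
  rw [intervalIntegral.integral_eq_sub_of_hasDerivAt hd
    ((kk_cont hε hz).intervalIntegrable _ _)]
  have h9 : ∀ φ ∈ Icc s t, |(F φ).im| < Real.pi / 2 := by
    intro φ hφ
    rw [hF]
    simp only
    rw [Complex.log_im]
    exact Complex.abs_arg_lt_pi_div_two_iff.2 (Or.inl (hre φ hφ))
  have h10 := abs_lt.1 (h9 t (right_mem_Icc.2 hst))
  have h11 := abs_lt.1 (h9 s (left_mem_Icc.2 hst))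
  linarith [h10.1, h10.2, h11.1, h11.2]

/-- the transform of `conj p` -/
noncomputable def gg (C : SF) (p : ℂ[X]) (z : ℂ) : ℂ :=
  (2 * Real.pi : ℂ)⁻¹ * ∫ φ in (0 : ℝ)..(2 * Real.pi), (conj (p.eval (C.σ φ)) * C.ρ φ * dd C z φ : ℂ)

lemma two_pi_ne : (2 * Real.pi : ℂ) ≠ 0 := by
  have : (2 * Real.pi : ℝ) ≠ 0 := by positivity
  exact_mod_cast this

/-- representation by the double layer potential -/
lemma gg_eq (hε : 0 < ε) (hz : Gap C z ε) (p : ℂ[X]) :
    (Real.pi : ℂ) * (gg C p z + conj (p.eval z)) =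
      ∫ φ in (0 : ℝ)..(2 * Real.pi), (conj (p.eval (C.σ φ)) * kk C z φ : ℂ) := by
  have h1 := congrArg conj (cauchy_dd hε hz p)
  have hcd := dd_cont hε hz
  have hi : ∀ f : ℝ → ℂ, Continuous f → conj (∫ φ in (0 : ℝ)..(2 * Real.pi), f φ) =
      ∫ φ in (0 : ℝ)..(2 * Real.pi), conj (f φ) := by
    intro f hf
    exact (Complex.conjCLE.toContinuousLinearMap.intervalIntegral_comp_comm
      (hf.intervalIntegrable (μ := volume) 0 (2 * Real.pi))).symm
  have hcc : Continuous fun φ : ℝ => (p.eval (C.σ φ) * C.ρ φ * dd C z φ : ℂ) :=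
    ((pσ_cont C p).mul (ρ_contC C)).mul hcd
  rw [hi _ hcc] at h1
  have h2 : (2 * Real.pi : ℂ) * gg C p z = ∫ φ in (0 : ℝ)..(2 * Real.pi),
      (conj (p.eval (C.σ φ)) * C.ρ φ * dd C z φ : ℂ) := by
    rw [gg, ← mul_assoc, mul_inv_cancel₀ two_pi_ne, one_mul]
  have h3 : conj (2 * Real.pi * p.eval z) = (2 * Real.pi : ℂ) * conj (p.eval z) := by
    rw [map_mul, map_mul, Complex.conj_ofReal, map_ofNat]
  rw [h3] at h1
  have h4 : (2 : ℂ) * ((Real.pi : ℂ) * (gg C p z + conj (p.eval z))) =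
      2 * ∫ φ in (0 : ℝ)..(2 * Real.pi), (conj (p.eval (C.σ φ)) * kk C z φ : ℂ) := by
    rw [show (2 : ℂ) * ((Real.pi : ℂ) * (gg C p z + conj (p.eval z))) =
      (2 * Real.pi : ℂ) * gg C p z + (2 * Real.pi : ℂ) * conj (p.eval z) by ring, h2, ← h1,
      ← intervalIntegral.integral_const_mul, ← intervalIntegral.integral_add]
    · refine intervalIntegral.integral_congr fun φ _ => ?_
      simp only [kk, map_mul, Complex.conj_ofReal]
      have h5 : ((2 * (dd C z φ).re : ℝ) : ℂ) = dd C z φ + conj (dd C z φ) :=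
        (Complex.add_conj _).symm
      push_cast at h5 ⊢
      linear_combination (-(conj (p.eval (C.σ φ)) * C.ρ φ) : ℂ) * h5
    · exact (((conj_pσ_cont C p).mul (ρ_contC C)).mul hcd).intervalIntegrable _ _
    · exact (Complex.continuous_conj.comp
        (((pσ_cont C p).mul (ρ_contC C)).mul hcd)).intervalIntegrable _ _
  exact mul_left_cancel₀ two_ne_zero h4

/-- estimate close to the boundary -/
lemma gg_near (hε : 0 < ε) (hz : Gap C z ε) {p : ℂ[X]} {S : ℝ}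
    (hS : ∀ φ, ‖p.eval (C.σ φ)‖ ≤ S) {φ₀ a η : ℝ} (ha : 0 < a) (haπ : a ≤ Real.pi)
    (hnear : ∀ φ ∈ Icc (φ₀ - a) (φ₀ + a), ‖p.eval (C.σ φ) - p.eval (C.σ φ₀)‖ ≤ η)
    (hfar : ∀ φ ∈ Icc (φ₀ + a) (φ₀ + 2 * Real.pi - a),
      (exp (-(φ₀ * I)) * C.σ φ).re < (exp (-(φ₀ * I)) * z).re)
    (hzη : ‖p.eval (C.σ φ₀) - p.eval z‖ ≤ η) : ‖gg C p z‖ ≤ S + 3 * η := by
  have hpi := Real.pi_pos
  set c := p.eval (C.σ φ₀) with hc
  have hη : 0 ≤ η := (norm_nonneg _).trans hzη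
  have hS0 : 0 ≤ S := (norm_nonneg _).trans (hS 0)
  have hk := kk_cont hε hz
  have hkC : Continuous fun φ : ℝ => (kk C z φ : ℂ) := continuous_ofReal.comp hk
  have hp := conj_pσ_cont C p
  -- shift
  have hsh : ∀ {G : Type} [NormedAddCommGroup G] [NormedSpace ℝ G] (f : ℝ → G),
      (∀ φ, f (φ + 2 * Real.pi) = f φ) →
      ∫ φ in (0 : ℝ)..(2 * Real.pi), f φ = ∫ φ in (φ₀ - a)..(φ₀ + 2 * Real.pi - a), f φ := by
    intro G _ _ f hf
    have h1 := Function.Periodic.intervalIntegral_add_eq (f := f) hf 0 (φ₀ - a)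
    rw [zero_add] at h1
    rw [h1]
    congr 1
    ring
  have h1 : φ₀ - a ≤ φ₀ + a := by linarith
  have h2 : φ₀ + a ≤ φ₀ + 2 * Real.pi - a := by linarith
  set J : ℝ := ∫ φ in (φ₀ + a)..(φ₀ + 2 * Real.pi - a), kk C z φ with hJ
  have hJ1 : J ≤ Real.pi := far_mass hε hz h2 hfar
  have hJ0 : 0 ≤ J := intervalIntegral.integral_nonneg h2 fun φ _ => kk_nonneg hε hz φ
  have hNJ : ∫ φ in (φ₀ - a)..(φ₀ + a), kk C z φ = 2 * Real.pi - J := by
    have h3 := kk_mass hε hz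
    rw [hsh _ kk_per, ← intervalIntegral.integral_add_adjacent_intervals
      (hk.intervalIntegrable _ _) (hk.intervalIntegrable (φ₀ + a) _)] at h3
    linarith
  have hmain := gg_eq hε hz p
  have hperC : ∀ φ : ℝ, (conj (p.eval (C.σ (φ + 2 * Real.pi))) * kk C z (φ + 2 * Real.pi) : ℂ) =
      conj (p.eval (C.σ φ)) * kk C z φ := fun φ => by rw [C.σ_per, kk_per]
  have hpk : Continuous fun φ : ℝ => (conj (p.eval (C.σ φ)) * kk C z φ : ℂ) := hp.mul hkC
  rw [hsh _ hperC, ← intervalIntegral.integral_add_adjacent_intervals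
    (hpk.intervalIntegrable _ _) (hpk.intervalIntegrable (φ₀ + a) _)] at hmain
  -- the near part
  have hN : ∫ φ in (φ₀ - a)..(φ₀ + a), (conj (p.eval (C.σ φ)) * kk C z φ : ℂ) =
      conj c * ((2 * Real.pi - J : ℝ) : ℂ) +
        ∫ φ in (φ₀ - a)..(φ₀ + a), (conj (p.eval (C.σ φ) - c) * kk C z φ : ℂ) := by
    rw [← hNJ, ← intervalIntegral.integral_ofReal, ← intervalIntegral.integral_const_mul,
      ← intervalIntegral.integral_add]
    · refine intervalIntegral.integral_congr fun φ _ => ?_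
      simp only [map_sub]
      ring
    · exact (continuous_const.mul hkC).intervalIntegrable _ _
    · exact ((Complex.continuous_conj.comp ((pσ_cont C p).sub continuous_const)).mul
        hkC).intervalIntegrable _ _
  have hN2 : ‖∫ φ in (φ₀ - a)..(φ₀ + a), (conj (p.eval (C.σ φ) - c) * kk C z φ : ℂ)‖ ≤
      η * (2 * Real.pi - J) := by
    rw [← hNJ, ← intervalIntegral.integral_const_mul]
    refine intervalIntegral.norm_integral_le_of_norm_le h1 ?_
      ((continuous_const.mul hk).intervalIntegrable _ _)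
    refine Filter.Eventually.of_forall fun φ hφ => ?_
    rw [norm_mul, Complex.norm_conj, Complex.norm_real, Real.norm_of_nonneg (kk_nonneg hε hz φ)]
    exact mul_le_mul_of_nonneg_right (hnear φ ⟨hφ.1.le, hφ.2⟩) (kk_nonneg hε hz φ)
  have hF2 : ‖∫ φ in (φ₀ + a)..(φ₀ + 2 * Real.pi - a), (conj (p.eval (C.σ φ)) * kk C z φ : ℂ)‖ ≤
      S * J := by
    rw [hJ, ← intervalIntegral.integral_const_mul]
    refine intervalIntegral.norm_integral_le_of_norm_le h2 ?_
      ((continuous_const.mul hk).intervalIntegrable _ _)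
    refine Filter.Eventually.of_forall fun φ hφ => ?_
    rw [norm_mul, Complex.norm_conj, Complex.norm_real, Real.norm_of_nonneg (kk_nonneg hε hz φ)]
    exact mul_le_mul_of_nonneg_right (hS φ) (kk_nonneg hε hz φ)
  rw [hN] at hmain
  set N := ∫ φ in (φ₀ - a)..(φ₀ + a), (conj (p.eval (C.σ φ) - c) * kk C z φ : ℂ) with hNdef
  set F := ∫ φ in (φ₀ + a)..(φ₀ + 2 * Real.pi - a), (conj (p.eval (C.σ φ)) * kk C z φ : ℂ)
    with hFdef
  have h3 : (Real.pi : ℂ) * gg C p z = conj c * ((Real.pi - J : ℝ) : ℂ) +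
      Real.pi * conj (c - p.eval z) + N + F := by
    push_cast at hmain ⊢
    rw [map_sub]
    linear_combination hmain
  have h4 : Real.pi * ‖gg C p z‖ ≤ S * (Real.pi - J) + Real.pi * η + η * (2 * Real.pi - J) +
      S * J := by
    have h5 : Real.pi * ‖gg C p z‖ = ‖(Real.pi : ℂ) * gg C p z‖ := by
      rw [norm_mul, Complex.norm_real, Real.norm_of_nonneg hpi.le]
    rw [h5, h3]
    refine (norm_add_le _ _).trans (add_le_add ?_ hF2)
    refine (norm_add_le _ _).trans (add_le_add ?_ hN2)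
    refine (norm_add_le _ _).trans (add_le_add ?_ ?_)
    · rw [norm_mul, Complex.norm_conj, Complex.norm_real, Real.norm_of_nonneg (by linarith)]
      exact mul_le_mul_of_nonneg_right (hS φ₀) (by linarith)
    · rw [norm_mul, Complex.norm_conj, Complex.norm_real, Real.norm_of_nonneg hpi.le]
      exact mul_le_mul_of_nonneg_left hzη hpi.le
  have h5 : Real.pi * ‖gg C p z‖ ≤ Real.pi * (S + 3 * η) := by
    nlinarith [mul_nonneg hη hJ0]
  exact le_of_mul_le_mul_left h5 hpi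

end Pool.Agent.K1H30.QN
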