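import Pool.Agent.K1H30.QN.CP

set_option autoImplicit false

/-!
# The maximum principle part of the lemma of Crouzeix and Palencia
-/

namespace Pool.Agent.K1H30.QN

open Complex ComplexConjugate Set MeasureTheory Polynomial Topology

variable {C : SF} {z : ℂ} {ε : ℝ}

lemma re_exp_mul_le (φ : ℝ) (w : ℂ) : (exp (-(φ * I)) * w).re ≤ ‖w‖ := by
  refine (Complex.re_le_norm _).trans ?_
  rw [norm_mul, exp_neg_norm, one_mul]

lemma gap_ball {w : ℂ} (hz : Gap C z ε) (hw : ‖w - z‖ ≤ ε / 2) : Gap C w (ε / 2) := by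
  intro φ
  have h1 : (exp (-(φ * I)) * w).re = (exp (-(φ * I)) * z).re + (exp (-(φ * I)) * (w - z)).re := by
    rw [← Complex.add_re]; congr 1; ring
  have h2 := re_exp_mul_le φ (w - z)
  linarith [hz φ]

lemma dd_norm (hε : 0 < ε) (hz : Gap C z ε) (φ : ℝ) : ‖dd C z φ‖ ≤ ε⁻¹ := by
  rw [dd, norm_inv]
  exact inv_anti₀ hε ((gap_re hz φ).trans (Complex.re_le_norm _))

lemma gg_diff (hε : 0 < ε) (hz : Gap C z ε) (p : ℂ[X]) : DifferentiableAt ℂ (gg C p) z := by
  have hcp : Continuous fun φ : ℝ => (conj (p.eval (C.σ φ)) * C.ρ φ : ℂ) :=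
    (conj_pσ_cont C p).mul (ρ_contC C)
  have hs : Metric.ball z (ε / 2) ∈ 𝓝 z := Metric.ball_mem_nhds z (by positivity)
  have hgap : ∀ w ∈ Metric.ball z (ε / 2), Gap C w (ε / 2) := fun w hw => by
    rw [Metric.mem_ball, dist_eq_norm] at hw
    exact gap_ball hz hw.le
  have hε2 : 0 < ε / 2 := by positivity
  have hcF : ∀ w ∈ Metric.ball z (ε / 2), Continuous fun φ : ℝ =>
      (conj (p.eval (C.σ φ)) * C.ρ φ * dd C w φ : ℂ) := fun w hw =>
    hcp.mul (dd_cont hε2 (hgap w hw))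
  have hcF' : Continuous fun φ : ℝ =>
      (conj (p.eval (C.σ φ)) * C.ρ φ * (exp (-(φ * I)) * dd C z φ ^ 2) : ℂ) :=
    hcp.mul (exp_cont.mul ((dd_cont hε hz).pow 2))
  have h := intervalIntegral.hasDerivAt_integral_of_dominated_loc_of_deriv_le
    (μ := volume) (a := 0) (b := 2 * Real.pi)
    (F := fun w φ => (conj (p.eval (C.σ φ)) * C.ρ φ * dd C w φ : ℂ))
    (F' := fun w φ => (conj (p.eval (C.σ φ)) * C.ρ φ * (exp (-(φ * I)) * dd C w φ ^ 2) : ℂ))
    (bound := fun φ => ‖(conj (p.eval (C.σ φ)) * C.ρ φ : ℂ)‖ * (ε / 2)⁻¹ ^ 2)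
    hs (Filter.eventually_of_mem hs fun w hw => (hcF w hw).aestronglyMeasurable)
    ((hcF z (Metric.mem_ball_self hε2)).intervalIntegrable _ _)
    hcF'.aestronglyMeasurable
    (Filter.Eventually.of_forall fun φ _ w hw => by
      rw [norm_mul]
      refine mul_le_mul_of_nonneg_left ?_ (norm_nonneg _)
      rw [norm_mul, exp_neg_norm, one_mul, norm_pow]
      exact pow_le_pow_left₀ (norm_nonneg _) (dd_norm hε2 (hgap w hw) φ) 2)
    ((hcp.norm.mul continuous_const).intervalIntegrable _ _)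
    (Filter.Eventually.of_forall fun φ _ w hw => by
      have h1 : HasDerivAt (fun w : ℂ => C.m φ - exp (-(φ * I)) * w) (-(exp (-(φ * I)))) w := by
        have := ((hasDerivAt_id w).const_mul (exp (-(φ * I)))).const_sub (C.m φ)
        rw [mul_one] at this
        exact this
      have h2 := (h1.inv (gap_ne hε2 (hgap w hw) φ)).const_mul
        (conj (p.eval (C.σ φ)) * C.ρ φ : ℂ)
      refine h2.congr_deriv ?_
      rw [dd, neg_neg, inv_pow, div_eq_mul_inv])
  exact (h.2.differentiableAt.const_mul _)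

/-- the shrunk domain -/
def Ur (C : SF) (r : ℝ) : Set ℂ := {z | ∀ φ : ℝ, (exp (-(φ * I)) * z).re < r * C.H φ}

lemma H_cont (C : SF) : Continuous C.H :=
  continuous_iff_continuousAt.2 fun φ => (C.hH φ).continuousAt

lemma Ur_isOpen (C : SF) (r : ℝ) : IsOpen (Ur C r) := by
  rw [Metric.isOpen_iff]
  intro z hz
  have hc : Continuous fun φ : ℝ => r * C.H φ - (exp (-(φ * I)) * z).re :=
    (continuous_const.mul (H_cont C)).sub
      (Complex.continuous_re.comp (exp_cont.mul continuous_const))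
  have hne : (Icc (0 : ℝ) (2 * Real.pi)).Nonempty := nonempty_Icc.2 (by positivity)
  obtain ⟨x, hx, hmin⟩ := isCompact_Icc.exists_isMinOn hne hc.continuousOn
  have hper : Function.Periodic (fun φ : ℝ => r * C.H φ - (exp (-(φ * I)) * z).re)
      (2 * Real.pi) := by
    intro t
    simp only
    rw [SF.exp_neg_per, C.per]
  refine ⟨r * C.H x - (exp (-(x * I)) * z).re, by linarith [hz x], fun w hw φ => ?_⟩
  rw [Metric.mem_ball, dist_eq_norm] at hw
  obtain ⟨t, ht, hφ⟩ := hper.exists_mem_Ico₀ (by positivity) φ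
  have h1 := hmin (Ico_subset_Icc_self ht)
  simp only [mem_ofPred_eq] at h1
  have h2 : (exp (-(φ * I)) * w).re = (exp (-(φ * I)) * z).re + (exp (-(φ * I)) * (w - z)).re := by
    rw [← Complex.add_re]; congr 1; ring
  have h3 := re_exp_mul_le φ (w - z)
  linarith

lemma Ur_bounded (C : SF) {r : ℝ} (hr : 0 ≤ r) : Bornology.IsBounded (Ur C r) := by
  obtain ⟨a, b, ha, hab⟩ := H_bounds C
  rw [isBounded_iff_forall_norm_le]
  refine ⟨r * b, fun z hz => ?_⟩
  have h1 := hz z.arg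
  have h2 : exp (-(z.arg * I)) * z = ‖z‖ := by
    have h0 := Complex.norm_mul_exp_arg_mul_I z
    calc exp (-(z.arg * I)) * z = exp (-(z.arg * I)) * (‖z‖ * exp (z.arg * I)) := by rw [h0]
      _ = ‖z‖ := by linear_combination (‖z‖ : ℂ) * SF.exp_conj z.arg
  rw [h2, Complex.ofReal_re] at h1
  exact h1.le.trans (mul_le_mul_of_nonneg_left (hab _).2 hr)

lemma cont_re' (φ : ℝ) : Continuous fun w : ℂ => (exp (-(φ * I)) * w).re :=
  Complex.continuous_re.comp (continuous_const.mul continuous_id)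

lemma closure_Ur (C : SF) (r : ℝ) : closure (Ur C r) ⊆
    {z | ∀ φ : ℝ, (exp (-(φ * I)) * z).re ≤ r * C.H φ} := by
  have hcl : IsClosed {z : ℂ | ∀ φ : ℝ, (exp (-(φ * I)) * z).re ≤ r * C.H φ} := by
    have : {z : ℂ | ∀ φ : ℝ, (exp (-(φ * I)) * z).re ≤ r * C.H φ} =
        ⋂ φ : ℝ, {z : ℂ | (exp (-(φ * I)) * z).re ≤ r * C.H φ} := by
      ext z; simp
    rw [this]
    exact isClosed_iInter fun φ => isClosed_le (cont_re' φ) continuous_const
  exact closure_minimal (fun z hz φ => (hz φ).le) hcl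

lemma frontier_Ur (C : SF) (r : ℝ) {z : ℂ} (hz : z ∈ frontier (Ur C r)) :
    ∃ φ ∈ Icc (0 : ℝ) (2 * Real.pi), z = r * C.σ φ := by
  have hle := closure_Ur C r (frontier_subset_closure hz)
  have hnot : z ∉ Ur C r := by
    intro h
    have := (Ur_isOpen C r).interior_eq
    rw [frontier, this] at hz
    exact hz.2 h
  have hex : ∃ φ : ℝ, r * C.H φ ≤ (exp (-(φ * I)) * z).re := by
    by_contra hcon
    push Not at hcon
    exact hnot hcon
  obtain ⟨φ₁, hφ₁⟩ := hex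
  have hper : Function.Periodic (fun φ : ℝ => r * C.H φ - (exp (-(φ * I)) * z).re)
      (2 * Real.pi) := by
    intro t
    simp only
    rw [SF.exp_neg_per, C.per]
  obtain ⟨φ, hφ, hφφ⟩ := hper.exists_mem_Ico₀ (by positivity) φ₁
  refine ⟨φ, Ico_subset_Icc_self hφ, ?_⟩
  have h0 : r * C.H φ - (exp (-(φ * I)) * z).re = 0 := by
    have h1 := hle φ
    linarith
  have hmin : IsLocalMin (fun φ : ℝ => r * C.H φ - (exp (-(φ * I)) * z).re) φ := by
    refine Filter.Eventually.of_forall fun t => ?_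
    simp only
    rw [h0]
    linarith [hle t]
  have hd : HasDerivAt (fun φ : ℝ => r * C.H φ - (exp (-(φ * I)) * z).re)
      (r * C.H1 φ - (exp (-(φ * I)) * z).im) φ := by
    have h1 : HasDerivAt (fun φ : ℝ => exp (-(φ * I)) * z) (exp (-(φ * I)) * (-(1 * I)) * z) φ :=
      (((hasDerivAt_id φ).ofReal_comp.mul_const I).neg.cexp).mul_const z
    have h2 := Complex.reCLM.hasFDerivAt.comp_hasDerivAt φ h1
    have h3 := ((C.hH φ).const_mul r).sub h2
    refine h3.congr_deriv ?_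
    rw [Complex.reCLM_apply]
    have h4 : exp (-(φ * I)) * (-(1 * I)) * z = -(I * (exp (-(φ * I)) * z)) := by ring
    rw [h4, Complex.neg_re, Complex.I_mul_re]
    ring
  have h1 := hmin.hasDerivAt_eq_zero hd
  have h2 : exp (-(φ * I)) * z = r * C.m φ := by
    apply Complex.ext
    · rw [Complex.re_ofReal_mul, C.m_re]; linarith
    · rw [Complex.im_ofReal_mul]
      have : (C.m φ).im = C.H1 φ := by simp [SF.m]
      rw [this]; linarith
  have h3 := SF.exp_conj φ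
  calc z = (exp (-(φ * I)) * exp (φ * I)) * z := by rw [h3, one_mul]
    _ = exp (φ * I) * (exp (-(φ * I)) * z) := by ring
    _ = r * C.σ φ := by rw [h2, SF.σ]; ring

/-- uniform gap on the closure -/
lemma gap_closure (C : SF) {a r : ℝ} (ha : ∀ φ, a ≤ C.H φ) (hr : r ≤ 1) {z : ℂ}
    (hz : ∀ φ : ℝ, (exp (-(φ * I)) * z).re ≤ r * C.H φ) : Gap C z ((1 - r) * a) := by
  intro φ
  have h1 := hz φ
  have h2 := mul_le_mul_of_nonneg_left (ha φ) (sub_nonneg.2 hr)
  linarith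

lemma gap_rσ (C : SF) {r : ℝ} (hr0 : 0 ≤ r) (φ : ℝ) :
    ∀ t : ℝ, (exp (-(t * I)) * (r * C.σ φ)).re ≤ r * C.H t := by
  intro t
  have h1 : exp (-(t * I)) * (r * C.σ φ) = r * (exp (-(t * I)) * C.σ φ) := by ring
  rw [h1, Complex.re_ofReal_mul]
  exact mul_le_mul_of_nonneg_left (C.support_le φ t) hr0

/-- **Lemma of Crouzeix and Palencia** -/
theorem gg_bound (hε : 0 < ε) (hz : Gap C z ε) {p : ℂ[X]} {S : ℝ}
    (hS : ∀ φ, ‖p.eval (C.σ φ)‖ ≤ S) : ‖gg C p z‖ ≤ S := by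
  refine le_of_forall_pos_le_add fun η' hη' => ?_
  set η : ℝ := η' / 3 with hη
  have hη0 : 0 < η := by positivity
  have hηη : S + η' = S + 3 * η := by rw [hη]; ring
  rw [hηη]
  obtain ⟨α, β, hα, hαβ⟩ := H_bounds C
  have hpi := Real.pi_pos
  -- the near radius
  have hf : Continuous fun φ : ℝ => p.eval (C.σ φ) := pσ_cont C p
  have huc := (isCompact_Icc (a := (-1 : ℝ)) (b := 2 * Real.pi + 1)).uniformContinuousOn_of_continuous
    hf.continuousOn
  rw [Metric.uniformContinuousOn_iff] at huc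
  obtain ⟨δ₁, hδ₁, huc⟩ := huc η hη0
  set a : ℝ := min (δ₁ / 2) 1 with ha
  have ha0 : 0 < a := lt_min (by positivity) one_pos
  have ha1 : a ≤ 1 := min_le_right _ _
  have haπ : a ≤ Real.pi := ha1.trans (by linarith [Real.pi_gt_three])
  have haδ : a < δ₁ := lt_of_le_of_lt (min_le_left _ _) (by linarith)
  have hnear : ∀ φ₀ ∈ Icc (0 : ℝ) (2 * Real.pi), ∀ φ ∈ Icc (φ₀ - a) (φ₀ + a),
      ‖p.eval (C.σ φ) - p.eval (C.σ φ₀)‖ ≤ η := by
    intro φ₀ h₀ φ hφ
    have h1 := huc φ ⟨by linarith [h₀.1, hφ.1], by linarith [h₀.2, hφ.2]⟩ φ₀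
      ⟨by linarith [h₀.1], by linarith [h₀.2]⟩ (by
        rw [Real.dist_eq]
        refine lt_of_le_of_lt ?_ haδ
        rw [abs_le]; constructor <;> linarith [hφ.1, hφ.2])
    rw [dist_eq_norm] at h1
    exact h1.le
  -- the far gap
  obtain ⟨Δ, hΔ, hfar⟩ : ∃ Δ : ℝ, 0 < Δ ∧ ∀ φ₀ ∈ Icc (0 : ℝ) (2 * Real.pi),
      ∀ φ ∈ Icc (φ₀ + a) (φ₀ + 2 * Real.pi - a),
        (exp (-(φ₀ * I)) * C.σ φ).re + Δ ≤ C.H φ₀ := by
    have hc : Continuous fun x : ℝ × ℝ => C.H x.1 - (exp (-(x.1 * I)) * C.σ (x.1 + x.2)).re :=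
      ((H_cont C).comp continuous_fst).sub (Complex.continuous_re.comp
        ((exp_cont.comp continuous_fst).mul (C.continuous_σ.comp
          (continuous_fst.add continuous_snd))))
    have hcomp : IsCompact (Icc (0 : ℝ) (2 * Real.pi) ×ˢ Icc a (2 * Real.pi - a)) :=
      isCompact_Icc.prod isCompact_Icc
    have hne : (Icc (0 : ℝ) (2 * Real.pi) ×ˢ Icc a (2 * Real.pi - a)).Nonempty :=
      ⟨(0, a), ⟨le_rfl, by positivity⟩, ⟨le_rfl, by linarith⟩⟩
    obtain ⟨x, hx, hmin⟩ := hcomp.exists_isMinOn hne hc.continuousOn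
    refine ⟨C.H x.1 - (exp (-(x.1 * I)) * C.σ (x.1 + x.2)).re, ?_, ?_⟩
    · have := C.support_lt (φ := x.1 + x.2) (t := x.1) (by linarith [hx.2.1])
        (by linarith [hx.2.2])
      linarith
    · intro φ₀ h₀ φ hφ
      have h1 := hmin (show (φ₀, φ - φ₀) ∈ _ from ⟨h₀, ⟨by simp only; linarith [hφ.1],
        by simp only; linarith [hφ.2]⟩⟩)
      simp only [mem_ofPred_eq, add_sub_cancel] at h1
      linarith
  -- uniform continuity of `p`
  obtain ⟨B0, hB0⟩ : ∃ B0 : ℝ, ∀ φ ∈ Icc (0 : ℝ) (2 * Real.pi), ‖C.σ φ‖ ≤ B0 :=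
    isCompact_Icc.exists_bound_of_continuousOn C.continuous_σ.continuousOn
  have hB00 : 0 ≤ B0 := (norm_nonneg _).trans (hB0 0 ⟨le_rfl, by positivity⟩)
  have hup := (isCompact_closedBall (0 : ℂ) B0).uniformContinuousOn_of_continuous
    p.continuous.continuousOn
  rw [Metric.uniformContinuousOn_iff] at hup
  obtain ⟨δ₂, hδ₂, hup⟩ := hup η hη0
  -- the radius
  have hβ : 0 < β := lt_of_lt_of_le hα ((hαβ 0).1.trans (hαβ 0).2)
  set s : ℝ := min (min (Δ / (2 * β)) (ε / (2 * β))) (min (δ₂ / (2 * (B0 + 1))) (1 / 2)) with hs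
  have hs0 : 0 < s := by positivity
  have hsΔ : s * β < Δ := by
    have h1 : s ≤ Δ / (2 * β) := (min_le_left _ _).trans (min_le_left _ _)
    have h2 : s * β ≤ Δ / (2 * β) * β := mul_le_mul_of_nonneg_right h1 hβ.le
    have h3 : Δ / (2 * β) * β = Δ / 2 := by field_simp
    linarith
  have hsε : s * β < ε := by
    have h1 : s ≤ ε / (2 * β) := (min_le_left _ _).trans (min_le_right _ _)
    have h2 : s * β ≤ ε / (2 * β) * β := mul_le_mul_of_nonneg_right h1 hβ.le
    have h3 : ε / (2 * β) * β = ε / 2 := by field_simp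
    linarith
  have hsδ : s * B0 < δ₂ := by
    have h1 : s ≤ δ₂ / (2 * (B0 + 1)) := (min_le_right _ _).trans (min_le_left _ _)
    have h2 : s * (B0 + 1) ≤ δ₂ / (2 * (B0 + 1)) * (B0 + 1) :=
      mul_le_mul_of_nonneg_right h1 (by positivity)
    have h3 : δ₂ / (2 * (B0 + 1)) * (B0 + 1) = δ₂ / 2 := by field_simp
    nlinarith
  have hs1 : s ≤ 1 / 2 := (min_le_right _ _).trans (min_le_right _ _)
  set r : ℝ := 1 - s with hr
  have hr0 : 0 < r := by rw [hr]; linarith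
  have hr1 : r ≤ 1 := by rw [hr]; linarith
  have hsr : 1 - r = s := by rw [hr]; ring
  have hzU : z ∈ Ur C r := by
    intro φ
    have h1 := hz φ
    have h2 := hαβ φ
    have h3 : s * C.H φ ≤ s * β := mul_le_mul_of_nonneg_left h2.2 hs0.le
    rw [hr]
    linarith
  have hgapU : ∀ w ∈ closure (Ur C r), Gap C w ((1 - r) * α) := fun w hw =>
    gap_closure C (fun φ => (hαβ φ).1) hr1 (closure_Ur C r hw)
  have hε' : 0 < (1 - r) * α := by rw [hsr]; positivity
  have hdiff : DiffContOnCl ℂ (gg C p) (Ur C r) := by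
    refine DifferentiableOn.diffContOnCl fun w hw => ?_
    exact (gg_diff hε' (hgapU w hw) p).differentiableWithinAt
  refine Complex.norm_le_of_forall_mem_frontier_norm_le (Ur_bounded C hr0.le) hdiff ?_
    (subset_closure hzU)
  intro w hw
  obtain ⟨φ₀, h₀, rfl⟩ := frontier_Ur C r hw
  have hgw := hgapU _ (frontier_subset_closure hw)
  refine gg_near hε' hgw hS ha0 haπ (hnear φ₀ h₀) ?_ ?_
  · intro φ hφ
    have h1 := hfar φ₀ h₀ φ hφ
    have h2 : (exp (-(φ₀ * I)) * (r * C.σ φ₀)).re = r * C.H φ₀ := by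
      have h3 : exp (-(φ₀ * I)) * (r * C.σ φ₀) = r * (exp (-(φ₀ * I)) * C.σ φ₀) := by ring
      rw [h3, Complex.re_ofReal_mul, C.support_self]
    rw [h2, hr]
    have h3 : s * C.H φ₀ ≤ s * β := mul_le_mul_of_nonneg_left (hαβ φ₀).2 hs0.le
    linarith
  · have h1 := hup (C.σ φ₀) (by simpa using hB0 φ₀ h₀) (r * C.σ φ₀) (by
      rw [mem_closedBall_zero_iff, norm_mul, Complex.norm_real, Real.norm_of_nonneg hr0.le]
      have := hB0 φ₀ h₀
      nlinarith [norm_nonneg (C.σ φ₀)]) (by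
      rw [dist_eq_norm]
      have h2 : C.σ φ₀ - r * C.σ φ₀ = (s : ℂ) * C.σ φ₀ := by rw [hr]; push_cast; ring
      rw [h2, norm_mul, Complex.norm_real, Real.norm_of_nonneg hs0.le]
      refine lt_of_le_of_lt ?_ hsδ
      exact mul_le_mul_of_nonneg_left (hB0 φ₀ h₀) hs0.le)
    rw [dist_eq_norm] at h1
    exact h1.le

end Pool.Agent.K1H30.QN
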