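import Pool.Agent.K1H30.QN.Alg

set_option autoImplicit false

/-!
# The extremal argument
-/

namespace Pool.Agent.K1H30.QN

open scoped InnerProductSpace

open Complex ComplexConjugate Set Polynomial Filter Topology

variable {E : Type*} [NormedAddCommGroup E] [InnerProductSpace ℂ E]


/-- the extremal vector is orthogonal to its image -/
lemma ext_orth {M : ℝ} (hM : 1 < M) {T : E →L[ℂ] E} {x : E} (hx : ‖x‖ = 1) (hTx : ‖T x‖ = M)
    {δ : ℝ} (hδ : 0 < δ)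
    (hmob : ∀ a : ℂ, ‖a‖ ≤ δ → ‖T x - a • x‖ ≤ M * ‖x - conj a • T x‖) : ⟪x, T x⟫_ℂ = 0 := by
  by_contra hne
  set t := ⟪x, T x⟫_ℂ with ht
  have htn : 0 < ‖t‖ := norm_pos_iff.2 hne
  have key : ∀ s : ℝ, 0 < s → s * ‖t‖ ≤ δ → 2 * s * ‖t‖ ^ 2 ≤ s ^ 2 * ‖t‖ ^ 2 * (M ^ 2 + 1) := by
    intro s hs hsδ
    have h1 := hmob ((s : ℂ) * t) (by
      rw [norm_mul, Complex.norm_real, Real.norm_of_nonneg hs.le]; exact hsδ)
    have h2 := pow_le_pow_left₀ (norm_nonneg _) h1 2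
    have hre : ∀ z : ℂ, RCLike.re z = z.re := fun z => rfl
    have hmt : conj t * t = ((‖t‖ ^ 2 : ℝ) : ℂ) := by
      rw [mul_comm, Complex.mul_conj, Complex.normSq_eq_norm_sq]
    rw [mul_pow, @_root_.norm_sub_sq ℂ, @_root_.norm_sub_sq ℂ, inner_smul_right, inner_smul_right,
      norm_smul, norm_smul, hx, hTx, Complex.norm_conj, norm_mul, Complex.norm_real,
      Real.norm_of_nonneg hs.le, hre, hre] at h2
    have h3 : ((s : ℂ) * t * ⟪T x, x⟫_ℂ).re = s * ‖t‖ ^ 2 := by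
      have : ⟪T x, x⟫_ℂ = conj t := by rw [ht, inner_conj_symm]
      rw [this, mul_assoc, mul_comm t, hmt, Complex.re_ofReal_mul, Complex.ofReal_re]
    have h4 : (conj ((s : ℂ) * t) * ⟪x, T x⟫_ℂ).re = s * ‖t‖ ^ 2 := by
      rw [← ht, map_mul, Complex.conj_ofReal, mul_assoc, hmt, Complex.re_ofReal_mul,
        Complex.ofReal_re]
    rw [h3, h4] at h2
    have h5 : 0 < M ^ 2 - 1 := by nlinarith
    have h6 : (M ^ 2 - 1) * (2 * s * ‖t‖ ^ 2) ≤ (M ^ 2 - 1) * (s ^ 2 * ‖t‖ ^ 2 * (M ^ 2 + 1)) := by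
      nlinarith [h2]
    exact le_of_mul_le_mul_left h6 h5
  set s : ℝ := min (δ / ‖t‖) (1 / (M ^ 2 + 1)) with hs
  have hM2 : 0 < M ^ 2 + 1 := by positivity
  have hs0 : 0 < s := lt_min (by positivity) (by positivity)
  have h1 := key s hs0 (by
    have : s ≤ δ / ‖t‖ := min_le_left _ _
    calc s * ‖t‖ ≤ δ / ‖t‖ * ‖t‖ := mul_le_mul_of_nonneg_right this htn.le
      _ = δ := by field_simp)
  have h2 : s * (M ^ 2 + 1) ≤ 1 := by
    have : s ≤ 1 / (M ^ 2 + 1) := min_le_right _ _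
    calc s * (M ^ 2 + 1) ≤ 1 / (M ^ 2 + 1) * (M ^ 2 + 1) := mul_le_mul_of_nonneg_right this hM2.le
      _ = 1 := by field_simp
  have h3 : 0 < s * ‖t‖ ^ 2 := by positivity
  nlinarith [mul_le_mul_of_nonneg_left h2 h3.le]

/-- the adjoint of `T` maps `T x` to `M² x` -/
lemma ext_adj [CompleteSpace E] {M : ℝ} {T : E →L[ℂ] E} {x : E} (hx : ‖x‖ = 1)
    (hTx : ‖T x‖ = M) (hT : ‖T‖ ≤ M) (w : E) : ⟪T x, T w⟫_ℂ = (M ^ 2 : ℂ) * ⟪x, w⟫_ℂ := by
  set z := ContinuousLinearMap.adjoint T (T x) with hz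
  have hM : 0 ≤ M := hTx ▸ norm_nonneg _
  have h1 : ‖z‖ ≤ M ^ 2 := by
    calc ‖z‖ ≤ ‖ContinuousLinearMap.adjoint T‖ * ‖T x‖ := ContinuousLinearMap.le_opNorm _ _
      _ = ‖T‖ * M := by rw [LinearIsometryEquiv.norm_map, hTx]
      _ ≤ M * M := mul_le_mul_of_nonneg_right hT hM
      _ = M ^ 2 := by ring
  have h2 : ⟪z, x⟫_ℂ = ((M ^ 2 : ℝ) : ℂ) := by
    rw [hz, ContinuousLinearMap.adjoint_inner_left, inner_self_eq_norm_sq_to_K, hTx]
    push_cast
    rfl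
  have h3 : ‖z - ((M ^ 2 : ℝ) : ℂ) • x‖ ^ 2 ≤ 0 := by
    have hre : ∀ z : ℂ, RCLike.re z = z.re := fun z => rfl
    rw [@_root_.norm_sub_sq ℂ, inner_smul_right, h2, norm_smul, hx, hre, ← Complex.ofReal_mul,
      Complex.ofReal_re, Complex.norm_real, Real.norm_of_nonneg (by positivity)]
    nlinarith [norm_nonneg z]
  have h4 : z = ((M ^ 2 : ℝ) : ℂ) • x := by
    have : ‖z - ((M ^ 2 : ℝ) : ℂ) • x‖ = 0 := by nlinarith [norm_nonneg (z - ((M ^ 2 : ℝ) : ℂ) • x)]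
    exact sub_eq_zero.1 (norm_eq_zero.1 this)
  rw [← ContinuousLinearMap.adjoint_inner_left, ← hz, h4, inner_smul_left, Complex.conj_ofReal]
  push_cast
  rfl

/-- the inequality at an extremal operator -/
theorem ext_ineq [CompleteSpace E] {M : ℝ} (hM : 1 < M) {T G : E →L[ℂ] E} {x : E} (hx : ‖x‖ = 1)
    (hTx : ‖T x‖ = M) (hT : ‖T‖ ≤ M) {δ : ℝ} (hδ : 0 < δ)
    (hmob : ∀ a : ℂ, ‖a‖ ≤ δ → ‖T x - a • x‖ ≤ M * ‖x - conj a • T x‖)
    (hTGT : ‖T * G * T‖ ≤ M) {c1 c2 B : ℝ} (hc1 : 0 ≤ c1) (hc2 : 0 ≤ c2)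
    (hineq : ∀ x y : E, ‖x‖ = 1 → ‖y‖ = 1 → ⟪y, x⟫_ℂ = 0 →
      ‖(c1 : ℂ) * ⟪y, T x⟫_ℂ + (c2 : ℂ) * conj ⟪x, G y⟫_ℂ‖ ≤ B) :
    c1 * M ≤ B + c2 / M := by
  have h0 := ext_orth hM hx hTx hδ hmob
  have hadj := ext_adj hx hTx hT
  have hM0 : 0 < M := by linarith
  have hMc : (M : ℂ) ≠ 0 := by exact_mod_cast hM0.ne'
  set y : E := ((M⁻¹ : ℝ) : ℂ) • T x with hy
  have hyn : ‖y‖ = 1 := by
    rw [hy, norm_smul, hTx, Complex.norm_real, Real.norm_of_nonneg (by positivity)]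
    field_simp
  have hyx : ⟪y, x⟫_ℂ = 0 := by
    rw [hy, inner_smul_left, ← inner_conj_symm, h0]; simp
  have h1 := hineq x y hx hyn hyx
  have h2 : ⟪y, T x⟫_ℂ = (M : ℂ) := by
    rw [hy, inner_smul_left, inner_self_eq_norm_sq_to_K, hTx, Complex.conj_ofReal]
    push_cast
    have : ((M : ℂ))⁻¹ * (M : ℂ) ^ 2 = M := by field_simp
    exact this
  have h3 : ‖⟪x, G y⟫_ℂ‖ ≤ 1 / M := by
    have e1 : (M ^ 3 : ℂ) * ⟪x, G y⟫_ℂ = ⟪T x, (T * G * T) x⟫_ℂ := by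
      have e2 : (T * G * T) x = T (G (T x)) := rfl
      have e3 : (M : ℂ) • G y = G (T x) := by
        rw [hy, map_smul, smul_smul]
        push_cast
        rw [mul_inv_cancel₀ hMc, one_smul]
      rw [e2, hadj, ← e3, inner_smul_right]
      ring
    have e4 : ‖(M ^ 3 : ℂ) * ⟪x, G y⟫_ℂ‖ ≤ M * M := by
      rw [e1]
      refine (norm_inner_le_norm _ _).trans ?_
      rw [hTx]
      refine mul_le_mul_of_nonneg_left ?_ hM0.le
      refine ((T * G * T).le_opNorm x).trans ?_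
      rw [hx, mul_one]
      exact hTGT
    rw [norm_mul, norm_pow, Complex.norm_real, Real.norm_of_nonneg hM0.le] at e4
    rw [le_div_iff₀ hM0]
    have : 0 < M ^ 2 := by positivity
    nlinarith
  rw [h2] at h1
  have h4 : ‖(c1 : ℂ) * (M : ℂ)‖ = c1 * M := by
    rw [← Complex.ofReal_mul, Complex.norm_real, Real.norm_of_nonneg (by positivity)]
  have h5 : ‖(c2 : ℂ) * conj ⟪x, G y⟫_ℂ‖ ≤ c2 / M := by
    rw [norm_mul, Complex.norm_conj, Complex.norm_real, Real.norm_of_nonneg hc2, div_eq_mul_one_div]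
    exact mul_le_mul_of_nonneg_left h3 hc2
  have h6 := norm_sub_norm_le ((c1 : ℂ) * (M : ℂ)) (-((c2 : ℂ) * conj ⟪x, G y⟫_ℂ))
  rw [norm_neg, sub_neg_eq_add, h4] at h6
  linarith

variable {K : Set ℂ} {A : E →L[ℂ] E} [CompactSpace K]

/-- the extremal argument -/
theorem extremal [FiniteDimensional ℂ E] {M : ℝ} (hM : 1 < M)
    (hub : ∀ p : ℂ[X], ‖aeval A p‖ ≤ M * ‖(aeval (gen K A) p).1‖)
    (hopt : ∀ M' < M, ∃ p : ℂ[X], ‖(aeval (gen K A) p).1‖ ≤ 1 ∧ M' < ‖aeval A p‖)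
    {c1 c2 B : ℝ} (hc1 : 0 ≤ c1) (hc2 : 0 ≤ c2)
    (hpair : ∀ p : ℂ[X], ‖(aeval (gen K A) p).1‖ ≤ 1 → ∀ η : ℝ, 0 < η →
      ∃ g : alg K A, ‖g.1.1‖ ≤ 1 + η ∧ ∀ x y : E, ‖x‖ = 1 → ‖y‖ = 1 → ⟪y, x⟫_ℂ = 0 →
        ‖(c1 : ℂ) * ⟪y, aeval A p x⟫_ℂ + (c2 : ℂ) * conj ⟪x, g.1.2 y⟫_ℂ‖ ≤ B + η) :
    c1 * M ≤ B + c2 / M := by
  have hcE : CompleteSpace E := FiniteDimensional.complete ℂ E
  have hpE : ProperSpace E := FiniteDimensional.proper ℂ E
  have hpL : ProperSpace (E →L[ℂ] E) := FiniteDimensional.proper ℂ _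
  have hM0 : 0 < M := by linarith
  set η : ℕ → ℝ := fun k => 1 / ((k : ℝ) + 1) with hη
  have hη0 : ∀ k, 0 < η k := fun k => by simp only [hη]; positivity
  have hη1 : ∀ k, η k ≤ 1 := fun k => by
    simp only [hη]
    rw [div_le_one (by positivity)]
    linarith [(Nat.cast_nonneg k : (0 : ℝ) ≤ k)]
  have hηt : Tendsto η atTop (𝓝 0) := tendsto_one_div_add_atTop_nhds_zero_nat
  choose p hp1 hp2 using fun k => hopt (M - η k) (by linarith [hη0 k])
  choose g hg1 hg2 using fun k => hpair (p k) (hp1 k) (η k) (hη0 k)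
  set N : ℕ → (E →L[ℂ] E) := fun k => aeval A (p k) with hN
  set G : ℕ → (E →L[ℂ] E) := fun k => (g k).1.2 with hG
  have hNM : ∀ k, ‖N k‖ ≤ M := fun k => by
    refine (hub (p k)).trans ?_
    nlinarith [hp1 k]
  have halg := alg_le hub
  have hGM : ∀ k, ‖G k‖ ≤ 2 * M := fun k => by
    refine (halg (g k).1 (g k).2).trans ?_
    nlinarith [hg1 k, hη1 k]
  -- a convergent subsequence
  obtain ⟨⟨T, G0⟩, -, φ, hφ, hlim⟩ := ((isCompact_closedBall (0 : E →L[ℂ] E) M).prod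
    (isCompact_closedBall (0 : E →L[ℂ] E) (2 * M))).tendsto_subseq (x := fun k => (N k, G k))
    (fun k => ⟨by simpa using hNM k, by simpa using hGM k⟩)
  have hlN : Tendsto (fun k => N (φ k)) atTop (𝓝 T) := (continuous_fst.tendsto _).comp hlim
  have hlG : Tendsto (fun k => G (φ k)) atTop (𝓝 G0) := (continuous_snd.tendsto _).comp hlim
  have hlη : Tendsto (fun k => η (φ k)) atTop (𝓝 0) := hηt.comp hφ.tendsto_atTop
  have hTM : ‖T‖ = M := by
    refine le_antisymm (le_of_tendsto' hlN.norm fun k => hNM _) ?_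
    have h1 : Tendsto (fun k => M - η (φ k)) atTop (𝓝 (M - 0)) := tendsto_const_nhds.sub hlη
    rw [sub_zero] at h1
    exact le_of_tendsto_of_tendsto' h1 hlN.norm fun k => (hp2 _).le
  -- evaluation
  have hev : ∀ z, Tendsto (fun k => N (φ k) z) atTop (𝓝 (T z)) := fun z =>
    ((ContinuousLinearMap.apply ℂ E z).continuous.tendsto T).comp hlN
  have hevG : ∀ z, Tendsto (fun k => G (φ k) z) atTop (𝓝 (G0 z)) := fun z =>
    ((ContinuousLinearMap.apply ℂ E z).continuous.tendsto G0).comp hlG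
  -- an extremal vector
  obtain ⟨x, hx, hTx⟩ : ∃ x : E, ‖x‖ = 1 ∧ ‖T x‖ = M := by
    have hnt : Nontrivial E := by
      by_contra hcon
      rw [not_nontrivial_iff_subsingleton] at hcon
      have : T = 0 := ContinuousLinearMap.ext fun z => Subsingleton.elim _ _
      rw [this, norm_zero] at hTM
      linarith
    have hne : (Metric.sphere (0 : E) 1).Nonempty := by
      obtain ⟨v, hv⟩ := exists_norm_eq E zero_le_one
      exact ⟨v, by simpa using hv⟩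
    obtain ⟨x, hx, hmax⟩ := (isCompact_sphere (0 : E) 1).exists_isMaxOn hne
      (f := fun z => ‖T z‖) T.continuous.norm.continuousOn
    have hx1 : ‖x‖ = 1 := by simpa using hx
    refine ⟨x, hx1, le_antisymm ?_ ?_⟩
    · calc ‖T x‖ ≤ ‖T‖ * ‖x‖ := T.le_opNorm x
        _ = M := by rw [hx1, mul_one, hTM]
    · rw [← hTM]
      refine ContinuousLinearMap.opNorm_le_of_unit_norm (norm_nonneg _) fun z hz => ?_
      exact hmax (by simpa using hz)
  -- Moebius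
  have hδ : 0 < 1 / (2 * (M + 1)) := by positivity
  refine ext_ineq (G := G0) hM hx hTx hTM.le hδ ?_ ?_ hc1 hc2 ?_
  · intro a ha
    have h1 : ∀ k, ‖N (φ k) x - a • x‖ ≤ M * ‖x - conj a • N (φ k) x‖ := by
      intro k
      set e : alg K A := ⟨aeval (gen K A) (p (φ k)), aeval_mem _⟩ with he
      have he1 : ‖e.1.1‖ ≤ 1 := hp1 _
      have he2 : e.1.2 = N (φ k) := aeval_snd _
      have hen : ‖e‖ ≤ M := by
        have : ‖e‖ = ‖(e : Big K E)‖ := rfl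
        rw [this, Prod.norm_def, max_le_iff]
        exact ⟨he1.trans hM.le, by rw [he2]; exact hNM _⟩
      have ha1 : ‖a‖ < 1 := by
        refine lt_of_le_of_lt ha ?_
        rw [div_lt_one (by positivity)]
        linarith
      have ha2 : ‖a‖ * ‖e‖ < 1 := by
        have h3 : ‖a‖ * ‖e‖ ≤ 1 / (2 * (M + 1)) * M :=
          mul_le_mul ha hen (norm_nonneg _) hδ.le
        refine lt_of_le_of_lt h3 ?_
        rw [div_mul_eq_mul_div, div_lt_one (by positivity)]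
        linarith
      obtain ⟨y, hy1, hy2⟩ := mobius e he1 ha1 ha2
      rw [he2] at hy2
      have h4 := congrArg (fun L : E →L[ℂ] E => L x) hy2
      have h5 : y.1.2 (x - conj a • N (φ k) x) = N (φ k) x - a • x := by simpa using h4
      rw [← h5]
      refine (y.1.2.le_opNorm _).trans ?_
      refine mul_le_mul_of_nonneg_right ?_ (norm_nonneg _)
      refine (halg y.1 y.2).trans ?_
      nlinarith
    refine le_of_tendsto_of_tendsto' ((hev x).sub_const _).norm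
      (((tendsto_const_nhds.sub ((hev x).const_smul (conj a))).norm).const_mul M) h1
  · have h1 : ∀ k, ‖N (φ k) * G (φ k) * N (φ k)‖ ≤ M * (1 + η (φ k)) := by
      intro k
      set e : alg K A := ⟨aeval (gen K A) (p (φ k)), aeval_mem _⟩ with he
      have he1 : ‖e.1.1‖ ≤ 1 := hp1 _
      have he2 : e.1.2 = N (φ k) := aeval_snd _
      have h2 := halg (e * g (φ k) * e).1 (e * g (φ k) * e).2
      have h3 : (e * g (φ k) * e).1.2 = N (φ k) * G (φ k) * N (φ k) := by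
        rw [← he2]; rfl
      have h4 : ‖(e * g (φ k) * e).1.1‖ ≤ 1 + η (φ k) := by
        have h5 : (e * g (φ k) * e).1.1 = e.1.1 * (g (φ k)).1.1 * e.1.1 := rfl
        rw [h5]
        calc ‖e.1.1 * (g (φ k)).1.1 * e.1.1‖ ≤ ‖e.1.1‖ * ‖(g (φ k)).1.1‖ * ‖e.1.1‖ :=
              (norm_mul_le _ _).trans (mul_le_mul_of_nonneg_right (norm_mul_le _ _) (norm_nonneg _))
          _ ≤ 1 * (1 + η (φ k)) * 1 := by
              have := hg1 (φ k)
              have := (hη0 (φ k)).le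
              gcongr
          _ = 1 + η (φ k) := by ring
      rw [h3] at h2
      exact h2.trans (mul_le_mul_of_nonneg_left h4 hM0.le)
    have h2 : Tendsto (fun k => M * (1 + η (φ k))) atTop (𝓝 (M * (1 + 0))) :=
      (tendsto_const_nhds.add hlη).const_mul M
    rw [add_zero, mul_one] at h2
    exact le_of_tendsto_of_tendsto' ((hlN.mul hlG).mul hlN).norm h2 h1
  · intro x y hx hy hxy
    have h1 := fun k => hg2 (φ k) x y hx hy hxy
    have h2 : Tendsto (fun k => ‖(c1 : ℂ) * ⟪y, N (φ k) x⟫_ℂ + (c2 : ℂ) * conj ⟪x, G (φ k) y⟫_ℂ‖) atTop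
        (𝓝 ‖(c1 : ℂ) * ⟪y, T x⟫_ℂ + (c2 : ℂ) * conj ⟪x, G0 y⟫_ℂ‖) := by
      have h3 : Tendsto (fun k => ⟪y, N (φ k) x⟫_ℂ) atTop (𝓝 ⟪y, T x⟫_ℂ) :=
        tendsto_const_nhds.inner (hev x)
      have h4 : Tendsto (fun k => ⟪x, G (φ k) y⟫_ℂ) atTop (𝓝 ⟪x, G0 y⟫_ℂ) :=
        tendsto_const_nhds.inner (hevG y)
      exact ((h3.const_mul _).add (((Complex.continuous_conj.tendsto _).comp h4).const_mul _)).norm
    have h5 : Tendsto (fun k => B + η (φ k)) atTop (𝓝 (B + 0)) := tendsto_const_nhds.add hlη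
    rw [add_zero] at h5
    exact le_of_tendsto_of_tendsto' h2 h5 h1

end Pool.Agent.K1H30.QN
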