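import Pool.Agent.K1H30.QN.Main1

set_option autoImplicit false

/-!
# Reduction to the numerical range by a similarity
-/

namespace Pool.Agent.K1H30.QN

open scoped InnerProductSpace

open Complex ComplexConjugate Set Polynomial

variable {E : Type*} [NormedAddCommGroup E] [InnerProductSpace ℂ E]


/-- numerical range -/
def NR (B : E →L[ℂ] E) : Set ℂ := {w | ∃ x : E, ‖x‖ = 1 ∧ w = ⟪x, B x⟫_ℂ}

/-- values of the sesquilinear form at pairs with a small angle -/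
lemma om'_of_pair {q κ : ℝ} (hq : 0 < q) (hκ : 0 ≤ κ) (hqκ : q ^ 2 + κ ^ 2 = 1) (A : E →L[ℂ] E)
    {X Y : E} (hXY : ⟪Y, X⟫_ℂ = 1) (hn : q ^ 2 * (‖X‖ ^ 2 * ‖Y‖ ^ 2) ≤ 1) :
    ⟪Y, A X⟫_ℂ ∈ Om' q κ A := by
  have hX0 : X ≠ 0 := by
    intro h; rw [h, inner_zero_right] at hXY; exact zero_ne_one hXY
  have hX : 0 < ‖X‖ := norm_pos_iff.2 hX0
  set r : ℝ := ‖X‖ with hr
  have hrc : (r : ℂ) ≠ 0 := by exact_mod_cast hX.ne'
  set x : E := ((r⁻¹ : ℝ) : ℂ) • X with hx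
  have hxn : ‖x‖ = 1 := by
    rw [hx, norm_smul, Complex.norm_real, Real.norm_of_nonneg (inv_nonneg.2 hX.le), ← hr]
    field_simp
  have hXx : X = (r : ℂ) • x := by
    rw [hx, smul_smul, ← Complex.ofReal_mul, mul_inv_cancel₀ hX.ne']
    simp
  have hYx : ⟪Y, x⟫_ℂ = ((r⁻¹ : ℝ) : ℂ) := by rw [hx, inner_smul_right, hXY, mul_one]
  have hxY : ⟪x, Y⟫_ℂ = ((r⁻¹ : ℝ) : ℂ) := by
    rw [← inner_conj_symm, hYx, Complex.conj_ofReal]
  set c := ⟪x, A x⟫_ℂ with hc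
  set w := Y - ((r⁻¹ : ℝ) : ℂ) • x with hw
  have hw2 : ‖w‖ ^ 2 = ‖Y‖ ^ 2 - (r⁻¹) ^ 2 := by
    have h := norm_sub_sq (w := Y) hxn
    rw [hxY, ← hw, Complex.norm_real, Real.norm_of_nonneg (inv_nonneg.2 hX.le)] at h
    exact h
  have hwx : ⟪w, x⟫_ℂ = 0 := by
    rw [hw, inner_sub_left, inner_smul_left, inner_self_eq_norm_sq_to_K, hxn, hYx,
      Complex.conj_ofReal]
    simp
  have h1 : ⟪Y, A X⟫_ℂ - c = (r : ℂ) * ⟪w, A x - c • x⟫_ℂ := by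
    have e1 : ⟪Y, A X⟫_ℂ = (r : ℂ) * ⟪Y, A x⟫_ℂ := by
      conv_lhs => rw [hXx]
      rw [map_smul, inner_smul_right]
    have e2 : ⟪w, A x - c • x⟫_ℂ = ⟪Y, A x⟫_ℂ - ((r⁻¹ : ℝ) : ℂ) * c := by
      rw [inner_sub_right, inner_smul_right, hwx, mul_zero, sub_zero, hw, inner_sub_left,
        inner_smul_left, Complex.conj_ofReal, ← hc]
    rw [e1, e2, mul_sub, ← mul_assoc, ← Complex.ofReal_mul, mul_inv_cancel₀ hX.ne']
    simp
  refine ⟨x, hxn, ?_⟩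
  rw [← hc, h1, norm_mul, Complex.norm_real, Real.norm_of_nonneg hX.le]
  have h2 : ‖⟪w, A x - c • x⟫_ℂ‖ ≤ ‖w‖ * ‖A x - c • x‖ := norm_inner_le_norm _ _
  have h3 : q * (r * ‖w‖) ≤ κ := by
    refine abs_le_of_sq_le_sq' ?_ hκ |>.2
    have e1 : (q * (r * ‖w‖)) ^ 2 = q ^ 2 * (r ^ 2 * ‖w‖ ^ 2) := by ring
    rw [e1, hw2]
    have e2 : r ^ 2 * (‖Y‖ ^ 2 - (r⁻¹) ^ 2) = r ^ 2 * ‖Y‖ ^ 2 - 1 := by field_simp
    rw [e2]
    nlinarith
  calc q * (r * ‖⟪w, A x - c • x⟫_ℂ‖) ≤ q * (r * (‖w‖ * ‖A x - c • x‖)) := by gcongr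
    _ = q * (r * ‖w‖) * ‖A x - c • x‖ := by ring
    _ ≤ κ * ‖A x - c • x‖ := mul_le_mul_of_nonneg_right h3 (norm_nonneg _)

/-- the rank one perturbation of the identity -/
noncomputable def Sy (t : ℝ) (y : E) : E →L[ℂ] E :=
  1 + ((t - 1 : ℝ) : ℂ) • (innerSL ℂ y).smulRight y

lemma Sy_apply (t : ℝ) (y z : E) : Sy t y z = z + (((t - 1 : ℝ) : ℂ) * ⟪y, z⟫_ℂ) • y := by
  simp [Sy, smul_smul]

lemma Sy_inner_y {y : E} (hy : ‖y‖ = 1) (t : ℝ) (z : E) : ⟪y, Sy t y z⟫_ℂ = (t : ℂ) * ⟪y, z⟫_ℂ := by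
  rw [Sy_apply, inner_add_right, inner_smul_right, inner_self_eq_norm_sq_to_K, hy]
  push_cast
  simp
  ring

lemma Sy_mul {y : E} (hy : ‖y‖ = 1) {s : ℝ} (hs : s ≠ 0) (z : E) :
    Sy s y (Sy s⁻¹ y z) = z := by
  rw [Sy_apply, Sy_inner_y hy, Sy_apply, add_assoc, ← add_smul]
  have : (((s⁻¹ - 1 : ℝ) : ℂ) * ⟪y, z⟫_ℂ + ((s - 1 : ℝ) : ℂ) * (((s⁻¹ : ℝ) : ℂ) * ⟪y, z⟫_ℂ)) = 0 := by
    push_cast
    have : (s : ℂ) ≠ 0 := by exact_mod_cast hs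
    field_simp
    ring
  rw [this, zero_smul, add_zero]

lemma Sy_symm (t : ℝ) (y u v : E) : ⟪Sy t y u, v⟫_ℂ = ⟪u, Sy t y v⟫_ℂ := by
  rw [Sy_apply, Sy_apply, inner_add_left, inner_add_right, inner_smul_left, inner_smul_right,
    map_mul, Complex.conj_ofReal, inner_conj_symm]
  ring

lemma Sy_norm {y : E} (hy : ‖y‖ = 1) (t : ℝ) {z : E} (hz : ‖z‖ = 1) :
    ‖Sy t y z‖ ^ 2 = 1 + (t ^ 2 - 1) * ‖⟪y, z⟫_ℂ‖ ^ 2 := by
  have h1 : ⟪Sy t y z, Sy t y z⟫_ℂ = ((1 + (t ^ 2 - 1) * ‖⟪y, z⟫_ℂ‖ ^ 2 : ℝ) : ℂ) := by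
    have h2 : ⟪z, y⟫_ℂ * ⟪y, z⟫_ℂ = ((‖⟪y, z⟫_ℂ‖ ^ 2 : ℝ) : ℂ) := by
      rw [← inner_conj_symm z y, mul_comm, Complex.mul_conj, Complex.normSq_eq_norm_sq]
    rw [Sy_symm]
    have h3 : ⟪z, Sy t y (Sy t y z)⟫_ℂ = ⟪z, z⟫_ℂ + ((t ^ 2 - 1 : ℝ) : ℂ) * (⟪z, y⟫_ℂ * ⟪y, z⟫_ℂ) := by
      rw [Sy_apply, Sy_inner_y hy, Sy_apply, inner_add_right, inner_add_right, inner_smul_right,
        inner_smul_right]
      push_cast
      ring
    rw [h3, h2, inner_self_eq_norm_sq_to_K, hz]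
    push_cast
    simp
  rw [inner_self_eq_norm_sq_to_K] at h1
  have h4 : (((‖Sy t y z‖ ^ 2 : ℝ)) : ℂ) = ((1 + (t ^ 2 - 1) * ‖⟪y, z⟫_ℂ‖ ^ 2 : ℝ) : ℂ) := by
    rw [← h1]; push_cast; rfl
  exact Complex.ofReal_injective h4

/-- the numerical range of the similar operator -/
theorem nr_similar {q κ : ℝ} (hq : 0 < q) (hκ : 0 ≤ κ) (hqκ : q ^ 2 + κ ^ 2 = 1)
    (A : E →L[ℂ] E) {y : E} (hy : ‖y‖ = 1) :
    NR (Sy ((1 + κ) / q) y * A * Sy ((1 + κ) / q)⁻¹ y) ⊆ Om' q κ A := by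
  rintro _ ⟨z, hz, rfl⟩
  set s : ℝ := (1 + κ) / q with hs
  have hs0 : 0 < s := by rw [hs]; positivity
  have hsinv : s⁻¹ = (1 - κ) / q := by
    rw [hs, inv_div, div_eq_div_iff (by positivity) hq.ne']
    nlinarith
  have hss : s + s⁻¹ = 2 / q := by rw [hsinv, hs]; field_simp; ring
  have e1 : ⟪z, (Sy s y * A * Sy s⁻¹ y) z⟫_ℂ = ⟪Sy s y z, A (Sy s⁻¹ y z)⟫_ℂ := by
    show ⟪z, Sy s y (A (Sy s⁻¹ y z))⟫_ℂ = _
    rw [← Sy_symm]
  rw [e1]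
  refine om'_of_pair hq hκ hqκ A ?_ ?_
  · rw [Sy_symm, Sy_mul hy hs0.ne', inner_self_eq_norm_sq_to_K, hz]; simp
  · rw [Sy_norm hy _ hz, Sy_norm hy _ hz]
    set β := ‖⟪y, z⟫_ℂ‖ ^ 2 with hβ
    have e2 : (1 + (s⁻¹ ^ 2 - 1) * β) * (1 + (s ^ 2 - 1) * β) =
        1 + (s - s⁻¹) ^ 2 * (β * (1 - β)) := by
      field_simp
      ring
    have e3 : (s - s⁻¹) ^ 2 = (2 / q) ^ 2 - 4 := by
      rw [← hss]; field_simp; ring
    have e4 : β * (1 - β) ≤ 1 / 4 := by nlinarith [sq_nonneg (β - 1 / 2)]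
    rw [e2]
    have e5 : (s - s⁻¹) ^ 2 * (β * (1 - β)) ≤ (s - s⁻¹) ^ 2 * (1 / 4) :=
      mul_le_mul_of_nonneg_left e4 (sq_nonneg _)
    calc q ^ 2 * (1 + (s - s⁻¹) ^ 2 * (β * (1 - β))) ≤ q ^ 2 * (1 + (s - s⁻¹) ^ 2 * (1 / 4)) := by
          gcongr
      _ = 1 := by rw [e3]; field_simp; ring

lemma aeval_similar {S S' : E →L[ℂ] E} (h : S' * S = 1) (h' : S * S' = 1) (A : E →L[ℂ] E)
    (p : ℂ[X]) : aeval (S * A * S') p = S * aeval A p * S' := by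
  induction p using Polynomial.induction_on' with
  | add p r hp hr => rw [map_add, map_add, hp, hr, mul_add, add_mul]
  | monomial n c =>
    have h1 : ∀ n : ℕ, (S * A * S') ^ n = S * A ^ n * S' := by
      intro n
      induction n with
      | zero => rw [pow_zero, pow_zero, mul_one, h']
      | succ n ih =>
        rw [pow_succ, ih, pow_succ]
        calc S * A ^ n * S' * (S * A * S') = S * A ^ n * (S' * S) * A * S' := by
              simp only [mul_assoc]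
          _ = S * (A ^ n * A) * S' := by rw [h]; simp only [mul_assoc, one_mul]
    rw [aeval_monomial, aeval_monomial, h1, ← Algebra.smul_def, ← Algebra.smul_def,
      mul_smul_comm, smul_mul_assoc]

variable {K : Set ℂ} {A : E →L[ℂ] E} [CompactSpace K]

/-- **Reduction theorem**: constants for the numerical range give constants for `Ω_q` -/
theorem reduction [FiniteDimensional ℂ E] (hE : Dim2 E) {q κ : ℝ} (hq : 0 < q) (hκ : 0 ≤ κ)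
    (hqκ : q ^ 2 + κ ^ 2 = 1) (hAK : Om (q : ℂ) A ⊆ K) {c : ℝ}
    (hyp : ∀ B : E →L[ℂ] E, NR B ⊆ K → ∀ p : ℂ[X], (∀ z ∈ K, ‖p.eval z‖ ≤ 1) → ‖aeval B p‖ ≤ c)
    {p : ℂ[X]} {S : ℝ} (hS0 : 0 ≤ S) (hS : ∀ z ∈ K, ‖p.eval z‖ ≤ S) :
    ‖aeval A p‖ ≤ max 1 (c * q / (1 + κ)) * S := by
  have hs0 : 0 < (1 + κ) / q := by positivity
  have hOm' : Om' q κ A ⊆ K := by rw [← om_eq hE hq hκ hqκ]; exact hAK
  have hNR : NR A ⊆ K := by
    rintro _ ⟨x, hx, rfl⟩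
    exact nr_mem hE hq hκ hqκ hAK hx
  obtain ⟨M, hM, hM'⟩ := bound_of_pair (K := K) (A := A) (C0 := c)
    (fun p hp => hyp A hNR p ((norm_fst_le zero_le_one).1 hp)) (c1 := (1 + κ) / q) (c2 := 0)
    (B := c) hs0.le le_rfl (by
      intro M _ _ p hp η hη
      refine ⟨0, by simp; linarith, fun x y hx hy hxy => ?_⟩
      have h1 := hyp _ ((nr_similar hq hκ hqκ A hy).trans hOm') p ((norm_fst_le zero_le_one).1 hp)
      have h2 : Sy ((1 + κ) / q)⁻¹ y * Sy ((1 + κ) / q) y = 1 := by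
        ext z
        have := Sy_mul hy (inv_ne_zero hs0.ne') z
        rw [inv_inv] at this
        exact this
      have h2' : Sy ((1 + κ) / q) y * Sy ((1 + κ) / q)⁻¹ y = 1 := by
        ext z
        exact Sy_mul hy hs0.ne' z
      rw [aeval_similar h2 h2'] at h1
      have h3 : Sy ((1 + κ) / q)⁻¹ y x = x := by
        rw [Sy_apply, hxy, mul_zero, zero_smul, add_zero]
      have h4 : ⟪y, (Sy ((1 + κ) / q) y * aeval A p * Sy ((1 + κ) / q)⁻¹ y) x⟫_ℂ =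
          (((1 + κ) / q : ℝ) : ℂ) * ⟪y, aeval A p x⟫_ℂ := by
        show ⟪y, Sy ((1 + κ) / q) y (aeval A p (Sy ((1 + κ) / q)⁻¹ y x))⟫_ℂ = _
        rw [h3, Sy_inner_y hy]
      have h5 : ‖(((1 + κ) / q : ℝ) : ℂ) * ⟪y, aeval A p x⟫_ℂ‖ ≤ c := by
        rw [← h4]
        refine (norm_inner_le_norm _ _).trans ?_
        rw [hy, one_mul]
        refine (ContinuousLinearMap.le_opNorm _ _).trans ?_
        rw [hx, mul_one]
        exact h1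
      simp only [Complex.ofReal_zero, zero_mul, add_zero]
      linarith)
  have h1 : M ≤ max 1 (c * q / (1 + κ)) := by
    rcases hM' with h | ⟨-, h⟩
    · exact h.trans (le_max_left _ _)
    · refine le_trans ?_ (le_max_right _ _)
      rw [zero_div, add_zero] at h
      rw [le_div_iff₀ (by linarith)]
      have h6 := mul_le_mul_of_nonneg_left h hq.le
      have h7 : q * ((1 + κ) / q * M) = M * (1 + κ) := by field_simp
      linarith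
  have h2 : ‖(aeval (gen K A) p).1‖ ≤ S := (norm_fst_le hS0).2 hS
  calc ‖aeval A p‖ ≤ M * ‖(aeval (gen K A) p).1‖ := hM p
    _ ≤ max 1 (c * q / (1 + κ)) * S := mul_le_mul h1 h2 (norm_nonneg _) (by positivity)

end Pool.Agent.K1H30.QN
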