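import Pool.Agent.K1H30.QN.Main2
import Pool.Agent.K1H30.QN.Reduce

set_option autoImplicit false

/-!
# The bound for `Ω_q` itself, and the numerical range as a limit case
-/

namespace Pool.Agent.K1H30.QN

open scoped InnerProductSpace

open Complex ComplexConjugate Set Polynomial

variable {E : Type*} [NormedAddCommGroup E] [InnerProductSpace ℂ E]

lemma om_translate {q : ℂ} (hq : q ≠ 0) (A : E →L[ℂ] E) (c z : ℂ) :
    z ∈ Om q (A - c • (1 : E →L[ℂ] E)) ↔ z + c ∈ Om q A := by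
  have h : ∀ x y : E, ⟪y, x⟫_ℂ = q → ⟪y, (A - c • (1 : E →L[ℂ] E)) x⟫_ℂ / q = ⟪y, A x⟫_ℂ / q - c := by
    intro x y hxy
    have e0 : (A - c • (1 : E →L[ℂ] E)) x = A x - c • x := rfl
    rw [e0, inner_sub_right, inner_smul_right, hxy]
    field_simp
  constructor
  · rintro ⟨x, y, hx, hy, hxy, rfl⟩
    exact ⟨x, y, hx, hy, hxy, by rw [h x y hxy]; ring⟩
  · rintro ⟨x, y, hx, hy, hxy, hz⟩
    exact ⟨x, y, hx, hy, hxy, by rw [h x y hxy, ← hz]; ring⟩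

lemma aeval_translate (A : E →L[ℂ] E) (c : ℂ) (p : ℂ[X]) :
    aeval (A - c • (1 : E →L[ℂ] E)) (p.comp (X + C c)) = aeval A p := by
  rw [aeval_comp]
  congr 2
  rw [map_add, aeval_X, aeval_C, Algebra.algebraMap_eq_smul_one]
  abel

theorem main2' [FiniteDimensional ℂ E] (hE : Dim2 E) {q κ : ℝ} (hq : 0 < q) (hκ : 0 < κ)
    (hqκ : q ^ 2 + κ ^ 2 = 1) (A : E →L[ℂ] E)
    {p : ℂ[X]} {S : ℝ} (hS : ∀ z ∈ Om (q : ℂ) A, ‖p.eval z‖ ≤ S) :
    ‖aeval A p‖ ≤ max 1 ((1 + Real.sqrt 2) * q / (1 + κ)) * S := by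
  have hq' : (q : ℂ) ≠ 0 := by exact_mod_cast hq.ne'
  obtain ⟨c, hc⟩ := om_nonempty hE hq hκ.le hqκ A
  set A' : E →L[ℂ] E := A - c • (1 : E →L[ℂ] E) with hA'
  have hcomp : CompactSpace (Om (q : ℂ) A') := isCompact_iff_compactSpace.1 (om_isCompact _ A')
  have h0 : (0 : ℂ) ∈ Om (q : ℂ) A' := by
    rw [hA', om_translate hq', zero_add]; exact hc
  have h1 := main2 (K := Om (q : ℂ) A') (A := A') hE hq hκ hqκ (om_convex hE hq hκ.le hqκ A')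
    subset_rfl h0 (p := p.comp (X + C c)) (S := S) (by
      intro z hz
      rw [eval_comp, eval_add, eval_X, eval_C]
      exact hS _ ((om_translate hq' A c z).1 hz))
  rwa [hA', aeval_translate] at h1

lemma nr_isCompact [FiniteDimensional ℂ E] (A : E →L[ℂ] E) : IsCompact (NR A) := by
  have : ProperSpace E := FiniteDimensional.proper ℂ E
  have h1 : NR A = (fun x : E => ⟪x, A x⟫_ℂ) '' Metric.sphere (0 : E) 1 := by
    ext z
    constructor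
    · rintro ⟨x, hx, rfl⟩
      exact ⟨x, by simpa using hx, rfl⟩
    · rintro ⟨x, hx, rfl⟩
      exact ⟨x, by simpa using hx, rfl⟩
  rw [h1]
  exact (isCompact_sphere _ _).image (continuous_id.inner (𝕜 := ℂ) A.continuous)

lemma om_near_nr [FiniteDimensional ℂ E] (hE : Dim2 E) {q κ : ℝ} (hq : 0 < q) (hκ : 0 ≤ κ)
    (hqκ : q ^ 2 + κ ^ 2 = 1) (A : E →L[ℂ] E) {z : ℂ} (hz : z ∈ Om (q : ℂ) A) :
    ∃ w ∈ NR A, dist z w ≤ κ / q * (2 * ‖A‖) := by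
  rw [om_eq hE hq hκ hqκ] at hz
  obtain ⟨x, hx, h⟩ := hz
  refine ⟨_, ⟨x, hx, rfl⟩, ?_⟩
  rw [dist_eq_norm]
  have h1 : ‖A x‖ ≤ ‖A‖ := by
    have := A.le_opNorm x
    rwa [hx, mul_one] at this
  have h2 : ‖⟪x, A x⟫_ℂ‖ ≤ ‖A‖ := by
    refine (norm_inner_le_norm _ _).trans ?_
    rw [hx, one_mul]; exact h1
  have h3 : ‖A x - ⟪x, A x⟫_ℂ • x‖ ≤ 2 * ‖A‖ := by
    refine (norm_sub_le _ _).trans ?_
    rw [norm_smul, hx, mul_one]
    linarith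
  rw [div_mul_eq_mul_div, le_div_iff₀ hq]
  calc ‖z - ⟪x, A x⟫_ℂ‖ * q = q * ‖z - ⟪x, A x⟫_ℂ‖ := mul_comm _ _
    _ ≤ κ * ‖A x - ⟪x, A x⟫_ℂ • x‖ := h
    _ ≤ κ * (2 * ‖A‖) := mul_le_mul_of_nonneg_left h3 hκ

/-- the Crouzeix-Palencia theorem, as a limit case -/
theorem cp [FiniteDimensional ℂ E] (hE : Dim2 E) (A : E →L[ℂ] E)
    {p : ℂ[X]} {S : ℝ} (hS : ∀ z ∈ NR A, ‖p.eval z‖ ≤ S) :
    ‖aeval A p‖ ≤ (1 + Real.sqrt 2) * S := by
  have hs2 : 0 ≤ Real.sqrt 2 := Real.sqrt_nonneg 2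
  obtain ⟨x, hx, -⟩ := hE 0
  have hS0 : 0 ≤ S := (norm_nonneg _).trans (hS _ ⟨x, hx, rfl⟩)
  refine le_of_forall_pos_le_add fun δ' hδ' => ?_
  set δ : ℝ := δ' / (1 + Real.sqrt 2) with hδ
  have hδ0 : 0 < δ := by positivity
  have hδδ : (1 + Real.sqrt 2) * S + δ' = (1 + Real.sqrt 2) * (S + δ) := by
    rw [hδ]; field_simp
  rw [hδδ]
  have hU : IsOpen {z : ℂ | ‖p.eval z‖ < S + δ} := isOpen_lt p.continuous.norm continuous_const
  obtain ⟨r, hr, hsub⟩ := (nr_isCompact A).exists_cthickening_subset_open hU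
    (fun z hz => lt_of_le_of_lt (hS z hz) (by linarith))
  -- choose `q` close to one
  set κ : ℝ := min (1 / 2) (r / (4 * (‖A‖ + 1))) with hκd
  have hA0 : 0 ≤ ‖A‖ := norm_nonneg _
  have hκ : 0 < κ := lt_min (by norm_num) (by positivity)
  have hκ1 : κ ≤ 1 / 2 := min_le_left _ _
  have hκ2 : κ * (4 * (‖A‖ + 1)) ≤ r := by
    have : κ ≤ r / (4 * (‖A‖ + 1)) := min_le_right _ _
    rwa [le_div_iff₀ (by positivity)] at this
  set q : ℝ := Real.sqrt (1 - κ ^ 2) with hqd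
  have hq2 : q ^ 2 = 1 - κ ^ 2 := Real.sq_sqrt (by nlinarith)
  have hqκ : q ^ 2 + κ ^ 2 = 1 := by linarith
  have hqh : 1 / 2 ≤ q := by
    rw [hqd]; apply Real.le_sqrt_of_sq_le; nlinarith
  have hq : 0 < q := by linarith
  have hq1 : q ≤ 1 := by nlinarith
  have h1 := main2' hE hq hκ hqκ A (p := p) (S := S + δ) (by
    intro z hz
    obtain ⟨w, hw, hd⟩ := om_near_nr hE hq hκ.le hqκ A hz
    refine (hsub (Metric.mem_cthickening_of_dist_le z w r _ hw (hd.trans ?_))).le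
    have e1 : κ / q ≤ 2 * κ := by
      rw [div_le_iff₀ hq]; nlinarith
    calc κ / q * (2 * ‖A‖) ≤ 2 * κ * (2 * ‖A‖) := mul_le_mul_of_nonneg_right e1 (by positivity)
      _ ≤ r := by nlinarith)
  refine h1.trans (mul_le_mul_of_nonneg_right ?_ (by linarith))
  refine max_le (by linarith) ?_
  rw [div_le_iff₀ (by linarith)]
  nlinarith

/-- the bound for all `0 < q ≤ 1` -/
theorem main3 [FiniteDimensional ℂ E] (hE : Dim2 E) {q κ : ℝ} (hq : 0 < q) (hκ : 0 ≤ κ)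
    (hqκ : q ^ 2 + κ ^ 2 = 1) (A : E →L[ℂ] E)
    {p : ℂ[X]} {S : ℝ} (hS : ∀ z ∈ Om (q : ℂ) A, ‖p.eval z‖ ≤ S) :
    ‖aeval A p‖ ≤ max 1 ((1 + Real.sqrt 2) * q / (1 + κ)) * S := by
  rcases hκ.eq_or_lt with h | h
  · have hq1 : q = 1 := by
      rw [← h] at hqκ
      exact (pow_left_inj₀ hq.le zero_le_one two_ne_zero).1 (by linarith)
    have h1 := cp hE A (p := p) (S := S) (by
      rintro _ ⟨x, hx, rfl⟩
      apply hS
      rw [om_eq hE hq hκ hqκ]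
      exact ⟨x, hx, by rw [sub_self, norm_zero, mul_zero]; positivity⟩)
    obtain ⟨z, hz⟩ := om_nonempty hE hq hκ hqκ A
    have hS0 : 0 ≤ S := (norm_nonneg _).trans (hS z hz)
    refine h1.trans (mul_le_mul_of_nonneg_right ?_ hS0)
    rw [hq1, ← h]
    simp
  · exact main2' hE hq h hqκ A hS

lemma dim2_euclidean {n : ℕ} (hn : 2 ≤ n) : Dim2 (EuclideanSpace ℂ (Fin n)) := by
  intro x
  have h1 : LinearMap.ker ((innerSL ℂ x : EuclideanSpace ℂ (Fin n) →L[ℂ] ℂ) :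
      EuclideanSpace ℂ (Fin n) →ₗ[ℂ] ℂ) ≠ ⊥ := by
    apply LinearMap.ker_ne_bot_of_finrank_lt
    rw [finrank_euclideanSpace, Module.finrank_self, Fintype.card_fin]
    omega
  obtain ⟨u, hu, hu0⟩ := Submodule.exists_mem_ne_zero_of_ne_bot h1
  have hu1 : ⟪x, u⟫_ℂ = 0 := by simpa using hu
  have hn0 : 0 < ‖u‖ := norm_pos_iff.2 hu0
  refine ⟨((‖u‖⁻¹ : ℝ) : ℂ) • u, ?_, ?_⟩
  · rw [norm_smul, Complex.norm_real, Real.norm_of_nonneg (inv_nonneg.2 hn0.le)]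
    field_simp
  · rw [inner_smul_right, hu1, mul_zero]

end Pool.Agent.K1H30.QN
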