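import Pool.Agent.K1H30.QN.Approx
import Pool.Agent.K1H30.QN.Extremal

set_option autoImplicit false

/-!
# The first main theorem: a bound for all polynomials from the off-diagonal estimate
-/

namespace Pool.Agent.K1H30.QN

open scoped InnerProductSpace

open Complex ComplexConjugate Set Polynomial

variable {E : Type*} [NormedAddCommGroup E] [InnerProductSpace ℂ E]


/-- a curve on which `|p| ≤ 1 + η` -/
theorem exists_curve_poly {K : Set ℂ} (hK : IsCompact K) (hconv : Convex ℝ K) (h0 : (0 : ℂ) ∈ K)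
    {p : ℂ[X]} (hp : ∀ z ∈ K, ‖p.eval z‖ ≤ 1) {η : ℝ} (hη : 0 < η) :
    ∃ C : SF, ∃ ε : ℝ, 0 < ε ∧ Outer C K ε ∧ ∀ φ, ‖p.eval (C.σ φ)‖ ≤ 1 + η := by
  have hU : IsOpen {z : ℂ | ‖p.eval z‖ < 1 + η} :=
    isOpen_lt p.continuous.norm continuous_const
  obtain ⟨δ, hδ, hsub⟩ := hK.exists_cthickening_subset_open hU
    (fun z hz => lt_of_le_of_lt (hp z hz) (by linarith))
  obtain ⟨C, ⟨ε, hε, hC⟩, hH⟩ := exists_curve hK h0 hδ
  refine ⟨C, ε, hε, hC, fun φ => ?_⟩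
  obtain ⟨w, hw, hd⟩ := near_of_support hK ⟨0, h0⟩ hconv hδ.le (z := C.σ φ)
    (fun t => (C.support_le φ t).trans (hH t))
  exact (hsub (Metric.mem_cthickening_of_dist_le _ w δ K hw hd)).le

lemma aeval_eigen {A : E →L[ℂ] E} {v : E} {lam : ℂ} (h : A v = lam • v) (p : ℂ[X]) :
    aeval A p v = p.eval lam • v := by
  induction p using Polynomial.induction_on' with
  | add p r hp hr =>
    rw [map_add, eval_add, add_smul, ← hp, ← hr]; rfl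
  | monomial n c =>
    have h1 : ∀ n : ℕ, (A ^ n) v = lam ^ n • v := by
      intro n
      induction n with
      | zero => simp
      | succ n ih =>
        rw [pow_succ]
        show (A ^ n) (A v) = _
        rw [h, map_smul, ih, smul_smul, pow_succ, mul_comm]
    rw [aeval_monomial, eval_monomial, ← Algebra.smul_def]
    show c • (A ^ n) v = _
    rw [h1, smul_smul]

/-- crude bound for the norm from off-diagonal bounds -/
lemma crude_bound {N : E →L[ℂ] E} {C0 : ℝ} (hC0 : 0 ≤ C0)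
    (h1 : ∀ x y : E, ‖x‖ = 1 → ‖y‖ = 1 → ⟪y, x⟫_ℂ = 0 → ‖⟪y, N x⟫_ℂ‖ ≤ C0)
    {v : E} {c : ℂ} (hv : ‖v‖ = 1) (hNv : N v = c • v) (hc : ‖c‖ ≤ 1) : ‖N‖ ≤ 2 + 5 * C0 := by
  -- the component orthogonal to `x`
  have h2 : ∀ x : E, ‖x‖ = 1 → ‖N x - ⟪x, N x⟫_ℂ • x‖ ≤ C0 := by
    intro x hx
    set w := N x - ⟪x, N x⟫_ℂ • x with hw
    have hxw : ⟪x, w⟫_ℂ = 0 := by
      rw [hw, inner_sub_right, inner_smul_right, inner_self_eq_norm_sq_to_K, hx]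
      simp
    rcases eq_or_ne w 0 with h0 | h0
    · rw [h0, norm_zero]; exact hC0
    have hw0 : 0 < ‖w‖ := norm_pos_iff.2 h0
    have h3 := h1 x (((‖w‖⁻¹ : ℝ) : ℂ) • w) hx (by
      rw [norm_smul, Complex.norm_real, Real.norm_of_nonneg (inv_nonneg.2 hw0.le)]
      field_simp) (by rw [inner_smul_left, inner_eq_zero_symm.1 hxw, mul_zero])
    have h4 : ⟪w, N x⟫_ℂ = ((‖w‖ ^ 2 : ℝ) : ℂ) := by
      have h5 : N x = w + ⟪x, N x⟫_ℂ • x := by rw [hw]; abel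
      rw [h5, inner_add_right, inner_smul_right, inner_eq_zero_symm.1 hxw,
        inner_self_eq_norm_sq_to_K]
      push_cast
      simp
    rw [inner_smul_left, Complex.conj_ofReal, h4, ← Complex.ofReal_mul, Complex.norm_real,
      Real.norm_of_nonneg (by positivity)] at h3
    have h6 : ‖w‖⁻¹ * ‖w‖ ^ 2 = ‖w‖ := by field_simp
    rwa [h6] at h3
  have h3 : ∀ x : E, ‖x‖ = 1 → ‖N x‖ ≤ ‖⟪x, N x⟫_ℂ‖ + C0 := by
    intro x hx
    have h4 : N x = ⟪x, N x⟫_ℂ • x + (N x - ⟪x, N x⟫_ℂ • x) := by abel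
    calc ‖N x‖ = ‖⟪x, N x⟫_ℂ • x + (N x - ⟪x, N x⟫_ℂ • x)‖ := by rw [← h4]
      _ ≤ ‖⟪x, N x⟫_ℂ • x‖ + ‖N x - ⟪x, N x⟫_ℂ • x‖ := norm_add_le _ _
      _ ≤ ‖⟪x, N x⟫_ℂ‖ + C0 := by rw [norm_smul, hx, mul_one]; linarith [h2 x hx]
  -- differences of diagonal entries
  have h4 : ∀ u : E, ‖u‖ = 1 → ⟪v, u⟫_ℂ = 0 → ‖⟪u, N u⟫_ℂ‖ ≤ 1 + 4 * C0 := by
    intro u hu hvu
    have huv : ⟪u, v⟫_ℂ = 0 := inner_eq_zero_symm.1 hvu
    set s : ℝ := Real.sqrt (1 / 2) with hs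
    have hs2 : s ^ 2 = 1 / 2 := Real.sq_sqrt (by norm_num)
    have hsc : (s : ℂ) * s = 1 / 2 := by
      rw [← Complex.ofReal_mul, ← sq, hs2]; norm_num
    have hs0 : 0 ≤ s := Real.sqrt_nonneg _
    have n1 : ‖(s : ℂ) • (u + v)‖ = 1 := by
      have e1 := norm_add_sq_eq_norm_sq_add_norm_sq_of_inner_eq_zero u v huv
      rw [norm_smul, Complex.norm_real, Real.norm_of_nonneg hs0]
      refine (pow_left_inj₀ (by positivity) zero_le_one two_ne_zero).1 ?_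
      rw [mul_pow, hs2]
      nlinarith [e1, hu, hv]
    have n2 : ‖(s : ℂ) • (u - v)‖ = 1 := by
      have huv' : ⟪u, -v⟫_ℂ = 0 := by rw [inner_neg_right, huv, neg_zero]
      have e1 := norm_add_sq_eq_norm_sq_add_norm_sq_of_inner_eq_zero u (-v) huv'
      rw [← sub_eq_add_neg, norm_neg] at e1
      rw [norm_smul, Complex.norm_real, Real.norm_of_nonneg hs0]
      refine (pow_left_inj₀ (by positivity) zero_le_one two_ne_zero).1 ?_
      rw [mul_pow, hs2]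
      nlinarith [e1, hu, hv]
    have o1 : ⟪(s : ℂ) • (u - v), (s : ℂ) • (u + v)⟫_ℂ = 0 := by
      simp only [inner_smul_left, inner_smul_right, inner_sub_left, inner_add_right, huv, hvu,
        inner_self_eq_norm_sq_to_K, hu, hv]
      simp
    have h5 := h1 _ _ n1 n2 o1
    have h6 : ⟪(s : ℂ) • (u - v), N ((s : ℂ) • (u + v))⟫_ℂ =
        (1 / 2) * (⟪u, N u⟫_ℂ - c + ⟪u, N v⟫_ℂ - ⟪v, N u⟫_ℂ) := by
      have e1 : ⟪v, N v⟫_ℂ = c := by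
        rw [hNv, inner_smul_right, inner_self_eq_norm_sq_to_K, hv]; simp
      rw [map_smul, map_add, inner_smul_left, inner_smul_right, Complex.conj_ofReal, ← mul_assoc,
        hsc, inner_sub_left, inner_add_right, inner_add_right, e1]
      ring
    have h7 : ⟪u, N u⟫_ℂ = 2 * ⟪(s : ℂ) • (u - v), N ((s : ℂ) • (u + v))⟫_ℂ + c - ⟪u, N v⟫_ℂ +
        ⟪v, N u⟫_ℂ := by rw [h6]; ring
    have h8 := h1 v u hv hu huv
    have h9 := h1 u v hu hv hvu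
    rw [h7]
    calc ‖2 * ⟪(s : ℂ) • (u - v), N ((s : ℂ) • (u + v))⟫_ℂ + c - ⟪u, N v⟫_ℂ + ⟪v, N u⟫_ℂ‖ ≤
        ‖2 * ⟪(s : ℂ) • (u - v), N ((s : ℂ) • (u + v))⟫_ℂ‖ + ‖c‖ + ‖⟪u, N v⟫_ℂ‖ + ‖⟪v, N u⟫_ℂ‖ := by
          refine (norm_add_le _ _).trans ?_
          gcongr
          refine (norm_sub_le _ _).trans ?_
          gcongr
          exact norm_add_le _ _
      _ ≤ 2 * C0 + 1 + C0 + C0 := by
          rw [norm_mul]
          have : ‖(2 : ℂ)‖ = 2 := by norm_num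
          rw [this]
          gcongr
      _ = 1 + 4 * C0 := by ring
  refine ContinuousLinearMap.opNorm_le_of_unit_norm (by positivity) fun x hx => ?_
  set w := x - ⟪v, x⟫_ℂ • v with hw
  have hvw : ⟪v, w⟫_ℂ = 0 := by
    rw [hw, inner_sub_right, inner_smul_right, inner_self_eq_norm_sq_to_K, hv]
    simp
  have hw2 := norm_sub_sq (w := x) hv
  rw [← hw, hx] at hw2
  have hw1 : ‖w‖ ≤ 1 := by nlinarith [norm_nonneg w, sq_nonneg ‖⟪v, x⟫_ℂ‖]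
  have hvx : ‖⟪v, x⟫_ℂ‖ ≤ 1 := by
    have := norm_inner_le_norm (𝕜 := ℂ) v x
    rwa [hv, hx, mul_one] at this
  have hx' : x = ⟪v, x⟫_ℂ • v + w := by rw [hw]; abel
  have hNw : ‖N w‖ ≤ 1 + 5 * C0 := by
    rcases eq_or_ne w 0 with h0 | h0
    · rw [h0, map_zero, norm_zero]; positivity
    have hw0 : 0 < ‖w‖ := norm_pos_iff.2 h0
    set u : E := ((‖w‖⁻¹ : ℝ) : ℂ) • w with hu
    have hun : ‖u‖ = 1 := by
      rw [hu, norm_smul, Complex.norm_real, Real.norm_of_nonneg (inv_nonneg.2 hw0.le)]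
      field_simp
    have hvu : ⟪v, u⟫_ℂ = 0 := by rw [hu, inner_smul_right, hvw, mul_zero]
    have hwu : w = (‖w‖ : ℂ) • u := by
      rw [hu, smul_smul, ← Complex.ofReal_mul, mul_inv_cancel₀ hw0.ne']
      simp
    rw [hwu, map_smul, norm_smul, Complex.norm_real, norm_norm]
    have h5 : ‖N u‖ ≤ 1 + 5 * C0 := by linarith [h3 u hun, h4 u hun hvu]
    calc ‖w‖ * ‖N u‖ ≤ 1 * (1 + 5 * C0) := mul_le_mul hw1 h5 (norm_nonneg _) zero_le_one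
      _ = _ := one_mul _
  calc ‖N x‖ = ‖⟪v, x⟫_ℂ • N v + N w‖ := by rw [← map_smul, ← map_add, ← hx']
    _ ≤ ‖⟪v, x⟫_ℂ • N v‖ + ‖N w‖ := norm_add_le _ _
    _ ≤ 1 + (1 + 5 * C0) := by
        refine add_le_add ?_ hNw
        rw [norm_smul, hNv, norm_smul, hv, mul_one]
        calc ‖⟪v, x⟫_ℂ‖ * ‖c‖ ≤ 1 * 1 := mul_le_mul hvx hc (norm_nonneg _) zero_le_one
          _ = 1 := one_mul 1
    _ = 2 + 5 * C0 := by ring

variable {K : Set ℂ} {A : E →L[ℂ] E} [CompactSpace K]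

lemma norm_fst_le {p : ℂ[X]} {S : ℝ} (hS : 0 ≤ S) :
    ‖(aeval (gen K A) p).1‖ ≤ S ↔ ∀ z ∈ K, ‖p.eval z‖ ≤ S := by
  rw [ContinuousMap.norm_le _ hS]
  constructor
  · intro h z hz
    have := h ⟨z, hz⟩
    rwa [aeval_fst] at this
  · intro h z
    rw [aeval_fst]
    exact h z z.2

/-- from pair estimates to bounds for all polynomials -/
theorem bound_of_pair [FiniteDimensional ℂ E] {C0 : ℝ}
    (hcrude : ∀ p : ℂ[X], ‖(aeval (gen K A) p).1‖ ≤ 1 → ‖aeval A p‖ ≤ C0)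
    {c1 c2 B : ℝ} (hc1 : 0 ≤ c1) (hc2 : 0 ≤ c2)
    (hpair : ∀ M : ℝ, 1 < M → (∀ p : ℂ[X], ‖aeval A p‖ ≤ M * ‖(aeval (gen K A) p).1‖) →
      ∀ p : ℂ[X], ‖(aeval (gen K A) p).1‖ ≤ 1 → ∀ η : ℝ, 0 < η →
      ∃ g : alg K A, ‖g.1.1‖ ≤ 1 + η ∧ ∀ x y : E, ‖x‖ = 1 → ‖y‖ = 1 → ⟪y, x⟫_ℂ = 0 →
        ‖(c1 : ℂ) * ⟪y, aeval A p x⟫_ℂ + (c2 : ℂ) * conj ⟪x, g.1.2 y⟫_ℂ‖ ≤ B + η) :
    ∃ M : ℝ, (∀ p : ℂ[X], ‖aeval A p‖ ≤ M * ‖(aeval (gen K A) p).1‖) ∧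
      (M ≤ 1 ∨ (1 < M ∧ c1 * M ≤ B + c2 / M)) := by
  set T : Set ℝ := {t | ∃ p : ℂ[X], ‖(aeval (gen K A) p).1‖ ≤ 1 ∧ t = ‖aeval A p‖} with hT
  have hbdd : BddAbove T := ⟨C0, by rintro t ⟨p, hp, rfl⟩; exact hcrude p hp⟩
  have hne : T.Nonempty := ⟨_, 0, by simp, rfl⟩
  set M := sSup T with hM
  have hM0 : ∀ p : ℂ[X], ‖(aeval (gen K A) p).1‖ ≤ 1 → ‖aeval A p‖ ≤ M := fun p hp =>
    le_csSup hbdd ⟨p, hp, rfl⟩
  have hub : ∀ p : ℂ[X], ‖aeval A p‖ ≤ M * ‖(aeval (gen K A) p).1‖ := by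
    intro p
    have hsc : ∀ t : ℝ, 0 ≤ t → t * ‖(aeval (gen K A) p).1‖ ≤ 1 → t * ‖aeval A p‖ ≤ M := by
      intro t ht h
      have h1 := hM0 ((t : ℂ) • p) (by
        rw [map_smul, Prod.smul_fst, norm_smul, Complex.norm_real, Real.norm_of_nonneg ht]
        exact h)
      rwa [map_smul, norm_smul, Complex.norm_real, Real.norm_of_nonneg ht] at h1
    rcases (norm_nonneg (aeval (gen K A) p).1).eq_or_lt with h | h
    · rw [← h, mul_zero]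
      by_contra hcon
      push Not at hcon
      have h1 := hsc ((|M| + 1) / ‖aeval A p‖) (by positivity) (by rw [← h]; simp)
      rw [div_mul_cancel₀ _ hcon.ne'] at h1
      linarith [le_abs_self M]
    · have h1 := hsc (‖(aeval (gen K A) p).1‖⁻¹) (by positivity) (by
        rw [inv_mul_cancel₀ h.ne'])
      rw [inv_mul_eq_div, div_le_iff₀ h] at h1
      exact h1
  refine ⟨M, hub, ?_⟩
  rcases le_or_gt M 1 with h1 | h1
  · exact Or.inl h1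
  · refine Or.inr ⟨h1, extremal h1 hub ?_ hc1 hc2 (hpair M h1 hub)⟩
    intro M' hM'
    obtain ⟨t, ⟨p, hp, rfl⟩, ht⟩ := exists_lt_of_lt_csSup hne hM'
    exact ⟨p, hp, ht⟩

omit [CompactSpace K] in
lemma exists_eigen [FiniteDimensional ℂ E] (hE : Dim2 E) (A : E →L[ℂ] E) :
    ∃ (v : E) (lam : ℂ), ‖v‖ = 1 ∧ A v = lam • v := by
  obtain ⟨x, hx, -⟩ := hE 0
  have hnt : Nontrivial E := ⟨x, 0, by
    intro h; rw [h, norm_zero] at hx; exact zero_ne_one hx⟩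
  obtain ⟨lam, hlam⟩ := Module.End.exists_eigenvalue (A : E →ₗ[ℂ] E)
  obtain ⟨v₀, hv₀⟩ := hlam.exists_hasEigenvector
  have hv₀' : A v₀ = lam • v₀ := hv₀.apply_eq_smul
  have hv₀n : 0 < ‖v₀‖ := norm_pos_iff.2 hv₀.2
  refine ⟨((‖v₀‖⁻¹ : ℝ) : ℂ) • v₀, lam, ?_, ?_⟩
  · rw [norm_smul, Complex.norm_real, Real.norm_of_nonneg (inv_nonneg.2 hv₀n.le)]
    field_simp
  · rw [map_smul, hv₀', smul_comm]

/-- off-diagonal entries of `p(A)` -/
theorem off_bound' [FiniteDimensional ℂ E] (hE : Dim2 E) {q κ : ℝ} (hq : 0 < q) (hκ : 0 < κ)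
    (hqκ : q ^ 2 + κ ^ 2 = 1) (hconv : Convex ℝ K) (hAK : Om (q : ℂ) A ⊆ K) (h0 : (0 : ℂ) ∈ K)
    {p : ℂ[X]} (hp : ‖(aeval (gen K A) p).1‖ ≤ 1) {x y : E}
    (hx : ‖x‖ = 1) (hy : ‖y‖ = 1) (hxy : ⟪y, x⟫_ℂ = 0) : κ * ‖⟪y, aeval A p x⟫_ℂ‖ ≤ q := by
  have hK : IsCompact K := isCompact_iff_compactSpace.2 inferInstance
  rw [norm_fst_le zero_le_one] at hp
  refine le_of_forall_pos_le_add fun η hη => ?_
  obtain ⟨C, ε, hε, hC, hS⟩ := exists_curve_poly hK hconv h0 hp (η := η / q) (by positivity)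
  have h1 := off_bound hE hq hκ.le hqκ hAK hε hC h0 hS hx hy hxy
  have h2 : q * (1 + η / q) = q + η := by field_simp
  linarith

theorem crude [FiniteDimensional ℂ E] (hE : Dim2 E) {q κ : ℝ} (hq : 0 < q) (hκ : 0 < κ)
    (hqκ : q ^ 2 + κ ^ 2 = 1) (hconv : Convex ℝ K) (hAK : Om (q : ℂ) A ⊆ K) (h0 : (0 : ℂ) ∈ K)
    (p : ℂ[X]) (hp : ‖(aeval (gen K A) p).1‖ ≤ 1) : ‖aeval A p‖ ≤ 2 + 5 * (q / κ) := by
  obtain ⟨v, lam, hv, hAv⟩ := exists_eigen hE A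
  refine crude_bound (by positivity) (fun x y hx hy hxy => ?_) hv (aeval_eigen hAv p) ?_
  · have h1 := off_bound' hE hq hκ hqκ hconv hAK h0 hp hx hy hxy
    rw [le_div_iff₀ hκ]
    linarith
  · rw [norm_fst_le zero_le_one] at hp
    have h2 : lam ∈ K := by
      have h3 := nr_mem hE hq hκ.le hqκ hAK hv
      rw [hAv, inner_smul_right, inner_self_eq_norm_sq_to_K, hv] at h3
      simpa using h3
    exact hp lam h2

/-- first main theorem, with `0 ∈ K` -/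
theorem main1 [FiniteDimensional ℂ E] (hE : Dim2 E) {q κ : ℝ} (hq : 0 < q) (hκ : 0 < κ)
    (hqκ : q ^ 2 + κ ^ 2 = 1) (hconv : Convex ℝ K) (hAK : Om (q : ℂ) A ⊆ K) (h0 : (0 : ℂ) ∈ K)
    {p : ℂ[X]} {S : ℝ} (hS : ∀ z ∈ K, ‖p.eval z‖ ≤ S) :
    ‖aeval A p‖ ≤ max 1 (q / κ) * S := by
  have hS0 : 0 ≤ S := (norm_nonneg _).trans (hS 0 h0)
  obtain ⟨M, hM, hM'⟩ := bound_of_pair (crude hE hq hκ hqκ hconv hAK h0) hκ.le le_rfl (B := q)
    (by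
      intro M _ _ p hp η hη
      refine ⟨0, by simp; linarith, fun x y hx hy hxy => ?_⟩
      have h1 := off_bound' hE hq hκ hqκ hconv hAK h0 hp hx hy hxy
      simp only [Complex.ofReal_zero, zero_mul, add_zero, norm_mul, Complex.norm_real,
        Real.norm_of_nonneg hκ.le]
      linarith)
  have h1 : M ≤ max 1 (q / κ) := by
    rcases hM' with h | ⟨-, h⟩
    · exact h.trans (le_max_left _ _)
    · refine le_trans ?_ (le_max_right _ _)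
      rw [le_div_iff₀ hκ]
      simp at h
      linarith
  have h2 : ‖(aeval (gen K A) p).1‖ ≤ S := (norm_fst_le hS0).2 hS
  calc ‖aeval A p‖ ≤ M * ‖(aeval (gen K A) p).1‖ := hM p
    _ ≤ max 1 (q / κ) * S := mul_le_mul h1 h2 (norm_nonneg _) (by positivity)

end Pool.Agent.K1H30.QN
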