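import Pool.Agent.K1H30.QN.CP2
import Pool.Agent.K1H30.QN.Main1

set_option autoImplicit false

/-!
# The second main theorem: the Crouzeix-Palencia type bound
-/

namespace Pool.Agent.K1H30.QN

open scoped InnerProductSpace

open Complex ComplexConjugate Set Polynomial

variable {E : Type*} [NormedAddCommGroup E] [InnerProductSpace ℂ E]


variable {K : Set ℂ} {A : E →L[ℂ] E} [CompactSpace K] {C : SF} {ε : ℝ}

lemma D_fst' [CompleteSpace E] (hε : 0 < ε) (hC : Outer C K ε)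
    (h0 : (0 : ℂ) ∈ K) (hnr : ∀ x : E, ‖x‖ = 1 → ⟪x, A x⟫_ℂ ∈ K) (φ : ℝ) (z : K) :
    (D K A C φ).1.1 z = dd C z φ := by
  have h1 := D_fst hε hC h0 hnr φ z
  exact eq_inv_of_mul_eq_one_right h1

/-- the function component of the transform of `conj p` -/
lemma gp_fst [CompleteSpace E] (hε : 0 < ε) (hC : Outer C K ε)
    (h0 : (0 : ℂ) ∈ K) (hnr : ∀ x : E, ‖x‖ = 1 → ⟪x, A x⟫_ℂ ∈ K) (p : ℂ[X]) (z : K) :
    (gp K A C p).1.1 z = gg C p z := by
  have h1 := L_integral hε hC h0 hnr (conj_pσ_cont C p) (ev1 (K := K) (A := A) z)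
  have h2 : (gp K A C p).1.1 z = ev1 (K := K) (A := A) z (gp K A C p) := rfl
  rw [h2, gp, map_smul, h1, gg, smul_eq_mul]
  congr 1
  refine intervalIntegral.integral_congr fun φ _ => ?_
  have h3 : ev1 (K := K) (A := A) z (D K A C φ) = (D K A C φ).1.1 z := rfl
  rw [h3, D_fst' hε hC h0 hnr]

lemma gp_norm [CompleteSpace E] (hε : 0 < ε) (hC : Outer C K ε)
    (h0 : (0 : ℂ) ∈ K) (hnr : ∀ x : E, ‖x‖ = 1 → ⟪x, A x⟫_ℂ ∈ K) {p : ℂ[X]} {S : ℝ}
    (hS : ∀ φ, ‖p.eval (C.σ φ)‖ ≤ S) : ‖(gp K A C p).1.1‖ ≤ S := by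
  have hS0 : 0 ≤ S := (norm_nonneg _).trans (hS 0)
  rw [ContinuousMap.norm_le _ hS0]
  intro z
  rw [gp_fst hε hC h0 hnr]
  exact gg_bound hε (fun φ => hC φ z z.2) hS

lemma quad_solve {q κ M : ℝ} (hq : 0 < q) (hκ : 0 ≤ κ) (hqκ : q ^ 2 + κ ^ 2 = 1) (hM : 0 < M)
    (h : (1 + κ) * M ≤ 2 * q + (1 - κ) / M) : M ≤ (1 + Real.sqrt 2) * q / (1 + κ) := by
  have h1 : (1 + κ) * M ^ 2 ≤ 2 * q * M + (1 - κ) := by
    have h2 := mul_le_mul_of_nonneg_right h hM.le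
    have h3 : (2 * q + (1 - κ) / M) * M = 2 * q * M + (1 - κ) := by field_simp
    nlinarith
  have h2 : ((1 + κ) * M - q) ^ 2 ≤ (Real.sqrt 2 * q) ^ 2 := by
    rw [mul_pow, Real.sq_sqrt (by norm_num)]
    nlinarith [mul_le_mul_of_nonneg_left h1 (by linarith : 0 ≤ 1 + κ)]
  have h3 : (1 + κ) * M - q ≤ Real.sqrt 2 * q := abs_le_of_sq_le_sq' h2 (by positivity) |>.2
  rw [le_div_iff₀ (by linarith)]
  linarith

/-- second main theorem, with `0 ∈ K` -/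
theorem main2 [FiniteDimensional ℂ E] (hE : Dim2 E) {q κ : ℝ} (hq : 0 < q) (hκ : 0 < κ)
    (hqκ : q ^ 2 + κ ^ 2 = 1) (hconv : Convex ℝ K) (hAK : Om (q : ℂ) A ⊆ K) (h0 : (0 : ℂ) ∈ K)
    {p : ℂ[X]} {S : ℝ} (hS : ∀ z ∈ K, ‖p.eval z‖ ≤ S) :
    ‖aeval A p‖ ≤ max 1 ((1 + Real.sqrt 2) * q / (1 + κ)) * S := by
  have hcE : CompleteSpace E := FiniteDimensional.complete ℂ E
  have hnr : ∀ x : E, ‖x‖ = 1 → ⟪x, A x⟫_ℂ ∈ K := fun x hx => nr_mem hE hq hκ.le hqκ hAK hx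
  have hK : IsCompact K := isCompact_iff_compactSpace.2 inferInstance
  have hS0 : 0 ≤ S := (norm_nonneg _).trans (hS 0 h0)
  have hκ1 : κ ≤ 1 := by nlinarith
  obtain ⟨M, hM, hM'⟩ := bound_of_pair (crude hE hq hκ hqκ hconv hAK h0)
    (c1 := 1 + κ) (c2 := 1 - κ) (B := 2 * q) (by linarith) (by linarith)
    (by
      intro M _ _ p hp η hη
      rw [norm_fst_le zero_le_one] at hp
      set η' : ℝ := min η (η / (2 * q)) with hη'
      have hη'0 : 0 < η' := lt_min hη (by positivity)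
      obtain ⟨C, ε, hε, hC, hS⟩ := exists_curve_poly hK hconv h0 hp hη'0
      refine ⟨gp K A C p, ?_, fun x y hx hy hxy => ?_⟩
      · refine (gp_norm hε hC h0 hnr hS).trans ?_
        linarith [min_le_left η (η / (2 * q))]
      · refine (star_bound hE hq hκ.le hqκ hAK hε hC h0 hS hx hy hxy).trans ?_
        have h1 : η' ≤ η / (2 * q) := min_le_right _ _
        have h2 : 2 * q * η' ≤ 2 * q * (η / (2 * q)) := mul_le_mul_of_nonneg_left h1 (by positivity)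
        have h3 : 2 * q * (η / (2 * q)) = η := by field_simp
        linarith)
  have h1 : M ≤ max 1 ((1 + Real.sqrt 2) * q / (1 + κ)) := by
    rcases hM' with h | ⟨h1, h⟩
    · exact h.trans (le_max_left _ _)
    · exact (quad_solve hq hκ.le hqκ (by linarith) h).trans (le_max_right _ _)
  have h2 : ‖(aeval (gen K A) p).1‖ ≤ S := (norm_fst_le hS0).2 hS
  calc ‖aeval A p‖ ≤ M * ‖(aeval (gen K A) p).1‖ := hM p
    _ ≤ max 1 ((1 + Real.sqrt 2) * q / (1 + κ)) * S :=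
        mul_le_mul h1 h2 (norm_nonneg _) (by positivity)

end Pool.Agent.K1H30.QN
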