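import Pool.Agent.K1H30.QN.Final

set_option autoImplicit false

/-!
# Matrices
-/

namespace Pool.Agent.K1H30.QN

open scoped InnerProductSpace

open Complex ComplexConjugate Set Polynomial

variable {n : ℕ}

lemma mat_aeval (A : Matrix (Fin n) (Fin n) ℂ) (p : ℂ[X]) :
    Matrix.toEuclideanCLM (𝕜 := ℂ) (aeval A p) = aeval (Matrix.toEuclideanCLM (𝕜 := ℂ) A) p :=
  (Polynomial.aeval_algHom_apply (Matrix.toEuclideanCLM (𝕜 := ℂ) (n := Fin n)) A p).symm

/-- from pointwise bounds to suprema -/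
lemma sup_bound {K : Set ℂ} (hK : IsCompact K) (p : ℂ[X]) :
    ∀ z ∈ K, ‖p.eval z‖ ≤ sSup ((fun z => ‖p.eval z‖) '' K) := fun _ hz =>
  le_csSup (hK.image p.continuous.norm).bddAbove (mem_image_of_mem _ hz)

lemma sup_nonneg (K : Set ℂ) (p : ℂ[X]) : 0 ≤ sSup ((fun z => ‖p.eval z‖) '' K) :=
  Real.sSup_nonneg (by rintro _ ⟨z, _, rfl⟩; exact norm_nonneg _)

end Pool.Agent.K1H30.QN
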