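import Pool.Agent.K1H30.QN.Curve

set_option autoImplicit false

/-!
# The support inequality
-/

namespace Pool.Agent.K1H30.QN

open Complex ComplexConjugate Set

namespace SF

variable (C : SF)

lemma re_exp_σ (t φ : ℝ) : (exp (-(t * I)) * C.σ φ).re =
    C.H φ * Real.cos (t - φ) + C.H1 φ * Real.sin (t - φ) := by
  have h1 : exp (-(t * I)) * C.σ φ = exp (((φ - t : ℝ) : ℂ) * I) * C.m φ := by
    rw [σ, ← mul_assoc, ← Complex.exp_add]
    congr 2
    push_cast
    ring
  rw [h1, Complex.mul_re, Complex.exp_ofReal_mul_I_re, Complex.exp_ofReal_mul_I_im, C.m_re]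
  have h2 : (C.m φ).im = C.H1 φ := by simp [m]
  rw [h2, ← neg_sub t φ, Real.cos_neg, Real.sin_neg]
  ring

/-- the auxiliary function -/
lemma hasDerivAt_w (t s : ℝ) :
    HasDerivAt (fun s => C.H s * Real.cos (t - s) + C.H1 s * Real.sin (t - s))
      (C.ρ s * Real.sin (t - s)) s := by
  have h0 : HasDerivAt (fun s : ℝ => t - s) (-1) s := by
    simpa using (hasDerivAt_id s).const_sub t
  have h1 := (C.hH s).mul h0.cos
  have h2 := (C.hH1 s).mul h0.sin
  refine (h1.add h2).congr_deriv ?_
  ring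

lemma support_lt_right {φ t : ℝ} (h1 : φ < t) (h2 : t ≤ φ + Real.pi) :
    (exp (-(t * I)) * C.σ φ).re < C.H t := by
  rw [re_exp_σ]
  set w : ℝ → ℝ := fun s => C.H s * Real.cos (t - s) + C.H1 s * Real.sin (t - s) with hw
  have hmono : StrictMonoOn w (Icc φ t) := by
    refine strictMonoOn_of_deriv_pos (convex_Icc _ _)
      (fun s _ => (C.hasDerivAt_w t s).continuousAt.continuousWithinAt) fun s hs => ?_
    rw [interior_Icc] at hs
    rw [(C.hasDerivAt_w t s).deriv]
    exact mul_pos (C.hρ s) (Real.sin_pos_of_pos_of_lt_pi (by linarith [hs.2]) (by linarith [hs.1]))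
  have h3 := hmono (left_mem_Icc.2 h1.le) (right_mem_Icc.2 h1.le) h1
  simpa [hw] using h3

lemma support_lt_left {φ t : ℝ} (h1 : t < φ) (h2 : φ ≤ t + Real.pi) :
    (exp (-(t * I)) * C.σ φ).re < C.H t := by
  rw [re_exp_σ]
  set w : ℝ → ℝ := fun s => C.H s * Real.cos (t - s) + C.H1 s * Real.sin (t - s) with hw
  have hmono : StrictAntiOn w (Icc t φ) := by
    refine strictAntiOn_of_deriv_neg (convex_Icc _ _)
      (fun s _ => (C.hasDerivAt_w t s).continuousAt.continuousWithinAt) fun s hs => ?_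
    rw [interior_Icc] at hs
    rw [(C.hasDerivAt_w t s).deriv]
    exact mul_neg_of_pos_of_neg (C.hρ s) (Real.sin_neg_of_neg_of_neg_pi_lt (by linarith [hs.1])
      (by linarith [hs.2]))
  have h3 := hmono (left_mem_Icc.2 h1.le) (right_mem_Icc.2 h1.le) h1
  simpa [hw] using h3

lemma exp_neg_per (φ : ℝ) : exp (-(((φ + 2 * Real.pi : ℝ) : ℂ) * I)) = exp (-(φ * I)) := by
  rw [Complex.exp_neg, exp_per, Complex.exp_neg]

lemma support_self (φ : ℝ) : (exp (-(φ * I)) * C.σ φ).re = C.H φ := by
  rw [C.exp_σ, C.m_re]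

/-- the support inequality -/
theorem support_le (φ t : ℝ) : (exp (-(t * I)) * C.σ φ).re ≤ C.H t := by
  have hper : Function.Periodic (fun t : ℝ => C.H t - (exp (-(t * I)) * C.σ φ).re)
      (2 * Real.pi) := by
    intro t
    simp only
    rw [exp_neg_per, C.per]
  obtain ⟨y, hy, hty⟩ := hper.exists_mem_Ioc (by positivity) t (φ - Real.pi)
  have h1 : 0 ≤ C.H y - (exp (-(y * I)) * C.σ φ).re := by
    rcases lt_trichotomy y φ with h | h | h
    · linarith [C.support_lt_left h (by linarith [hy.1])]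
    · rw [h, C.support_self]; simp
    · linarith [C.support_lt_right h (by linarith [hy.2])]
  linarith

/-- strictness away from the point -/
theorem support_lt {φ t : ℝ} (h1 : t < φ) (h2 : φ < t + 2 * Real.pi) :
    (exp (-(t * I)) * C.σ φ).re < C.H t := by
  rcases le_or_gt φ (t + Real.pi) with h | h
  · exact C.support_lt_left h1 h
  · have h3 := C.support_lt_right (φ := φ) (t := t + 2 * Real.pi) h2 (by linarith)
    rwa [exp_neg_per, C.per] at h3

end SF

end Pool.Agent.K1H30.QN
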